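import Pool.Agent.Work.MP_157c12_gt.Surf

/-!
# Sets invariant under the rotations about a line
-/

namespace Pool.Agent.Work.MP_157c12_gt

/-- `S` is mapped into itself by all rotations about the line `o + ℝ e`: the maps
`z ↦ o + A (z - o)`, `A` a linear isometry with determinant `1` and `A e = e` -/
def RotInv {m : ℕ} (o e : E m) (S : Set (E m)) : Prop :=
  ∀ A : E m ≃ₗᵢ[ℝ] E m, LinearMap.det (A.toLinearEquiv : E m →ₗ[ℝ] E m) = 1 → A e = e →
    ∀ z ∈ S, o + A (z - o) ∈ S

end Pool.Agent.Work.MP_157c12_gt
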