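import Pool.Agent.Work.MP_157c12_gt.Rot.GDefs

/-!
# Rotational hypersurfaces of finite type: statements (geometric part)
-/

open TopologicalSpace Finset
open scoped Manifold ContDiff

namespace Pool.Agent.Work.MP_157c12_gt.Rot

open Pool.Agent.Work.MP_157c12_gt

/-! ### algebra of hypersurfaces -/

/-- Jacobi's formula -/
def JC : Prop := ∀ (R : Type) [CommRing R] [Algebra ℝ R] (D : Derivation ℝ R R) (n : ℕ)
  (M : Matrix (Fin n) (Fin n) R), D M.det = ∑ i, ∑ j, M.adjugate i j * D (M j i)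

/-- the Laplace operator by tangential derivatives -/
def LD : Prop := ∀ (R : Type) [CommRing R] [Algebra ℝ R] (n m : ℕ)
  (d : Fin n → Derivation ℝ R R) (x : Fin m → R) (Gi : Matrix (Fin n) (Fin n) R) (W Wi : R),
  (∀ i j f, d i (d j f) = d j (d i f)) → gm d x * Gi = 1 → W ^ 2 = (gm d x).det → W * Wi = 1 →
  ∀ f, lapD (nb d x Gi) f = lapC d Gi W Wi f

/-- coordinates give the structure `Hyp` -/
def HY : Prop := ∀ (R : Type) [CommRing R] [Algebra ℝ R] (n m : ℕ)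
  (d : Fin n → Derivation ℝ R R) (x N : Fin m → R) (Gi : Matrix (Fin n) (Fin n) R),
  (∀ i j f, d i (d j f) = d j (d i f)) → gm d x * Gi = 1 → ∑ a, N a ^ 2 = 1 →
  (∀ a b, N a * N b = (if a = b then 1 else 0) - nb d x Gi a (x b)) →
  Hyp (nb d x Gi) x N ∧ (∀ i, ∑ a, N a * d i (x a) = 0) ∧
    ∀ i f, d i f = ∑ a, d i (x a) * nb d x Gi a f

/-- first derivatives on a hypersurface of revolution -/
def RA1 : Prop := ∀ (R : Type) [CommRing R] [Algebra ℝ R] (m : ℕ) (D : Fin m → Derivation ℝ R R)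
  (x N : Fin m → R) (o e : Fin m → ℝ) (r ri c s : R) (w : Fin m → R),
  RotH D x N o e r ri c s w →
  pT D e c s w r = c ∧ pT D e c s w (∑ b, x b * algebraMap ℝ R (e b)) = s ∧
  Rad D e c s w r ∧ Rad D e c s w (∑ b, x b * algebraMap ℝ R (e b)) ∧
  Rad D e c s w c ∧ Rad D e c s w s ∧
  (∀ a b, D a (w b) = ri * ((if a = b then 1 else 0) - algebraMap ℝ R (e a * e b) - w a * w b)) ∧
  ∑ a, (c * w a + s * algebraMap ℝ R (e a)) ^ 2 = 1 ∧
  ∑ a, (c * w a + s * algebraMap ℝ R (e a)) * N a = 0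

/-- the ring of radial functions is closed under the derivative -/
def RA2 : Prop := ∀ (R : Type) [CommRing R] [Algebra ℝ R] (m : ℕ) (D : Fin m → Derivation ℝ R R)
  (x N : Fin m → R) (o e : Fin m → ℝ) (r ri c s : R) (w : Fin m → R),
  RotH D x N o e r ri c s w →
  (∀ u, Rad D e c s w u → Rad D e c s w (pT D e c s w u)) ∧
  (∀ u v, Rad D e c s w u → Rad D e c s w v → Rad D e c s w (u + v) ∧ Rad D e c s w (u * v)) ∧
  (∀ t : ℝ, Rad D e c s w (algebraMap ℝ R t)) ∧ Rad D e c s w ri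

/-- the Laplace operator on radial functions -/
def RA3 : Prop := ∀ (R : Type) [CommRing R] [Algebra ℝ R] (n : ℕ)
  (D : Fin (n + 1) → Derivation ℝ R R) (x N : Fin (n + 1) → R) (o e : Fin (n + 1) → ℝ)
  (r ri c s : R) (w : Fin (n + 1) → R), RotH D x N o e r ri c s w →
  ∀ u, Rad D e c s w u →
    lapD D u = pT D e c s w (pT D e c s w u) + (n - 1) * (c * ri * pT D e c s w u) ∧
    ∀ a, lapD D (u * w a) = (pT D e c s w (pT D e c s w u) + (n - 1) * (c * ri * pT D e c s w u)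
      - (n - 1) * (ri ^ 2 * u)) * w a

/-- the tower of the position vector -/
def RT : Prop := ∀ (R : Type) [CommRing R] [Algebra ℝ R] (n : ℕ)
  (D : Fin (n + 1) → Derivation ℝ R R) (x N : Fin (n + 1) → R) (o e : Fin (n + 1) → ℝ)
  (r ri c s : R) (w : Fin (n + 1) → R), RotH D x N o e r ri c s w →
  ∃ F G : ℕ → R, F 0 = r ∧ G 0 = ∑ b, x b * algebraMap ℝ R (e b) ∧
    (∀ j, Rad D e c s w (F j) ∧ Rad D e c s w (G j)) ∧
    (∀ j, 4 * r ^ 2 * F (j + 1) = ((2 * r) • pT D e c s w) (((2 * r) • pT D e c s w) (F j))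
      + (n - 2) * (2 * c * ((2 * r) • pT D e c s w) (F j)) - 4 * (n - 1) * F j) ∧
    (∀ j, 4 * r ^ 2 * G (j + 1) = ((2 * r) • pT D e c s w) (((2 * r) • pT D e c s w) (G j))
      + (n - 2) * (2 * c * ((2 * r) • pT D e c s w) (G j))) ∧
    ∀ a j, (lapD D)^[j] (x a - algebraMap ℝ R (o a)) = F j * w a + G j * algebraMap ℝ R (e a)

/-- the centre lies on the axis -/
def GC : Prop := ∀ (R : Type) [CommRing R] [Nontrivial R] [Algebra ℝ R] (n k : ℕ) (al : ℕ → ℝ)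
  (D : Fin (n + 1) → Derivation ℝ R R) (x N : Fin (n + 1) → R) (o e : Fin (n + 1) → ℝ)
  (r ri c s : R) (w : Fin (n + 1) → R) (F G : ℕ → R), 2 ≤ n → RotH D x N o e r ri c s w →
  (∀ j, Rad D e c s w (F j) ∧ Rad D e c s w (G j)) →
  (∀ a j, (lapD D)^[j] (x a - algebraMap ℝ R (o a)) = F j * w a + G j * algebraMap ℝ R (e a)) →
  al k ≠ 0 → (∀ a, ∑ l ∈ range (k + 1), algebraMap ℝ R (al l) * (lapD D)^[k - l] (x a) = 0) →
  (∀ a, o a = 0) ∧ ∑ l ∈ range (k + 1), algebraMap ℝ R (al l) * F (k - l) = 0 ∧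
    ∑ l ∈ range (k + 1), algebraMap ℝ R (al l) * G (k - l) = 0

/-- jets at a point -/
def JT : Prop := ∀ (R : Type) [CommRing R] [Algebra ℝ R] (D : Derivation ℝ R R)
  (ev : R →ₐ[ℝ] ℝ) (n k : ℕ) (al : ℕ → ℝ) (r z c s : R) (F G : ℕ → R), 2 ≤ n → 1 ≤ k →
  al 0 = 1 → al k ≠ 0 → c ^ 2 + s ^ 2 = 1 → D r = 2 * r * c → D z = 2 * r * s → ev r ≠ 0 →
  F 0 = r → G 0 = z →
  (∀ j, 4 * r ^ 2 * F (j + 1) = D (D (F j)) + (n - 2) * (2 * c * D (F j)) - 4 * (n - 1) * F j) →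
  (∀ j, 4 * r ^ 2 * G (j + 1) = D (D (G j)) + (n - 2) * (2 * c * D (G j))) →
  ∑ l ∈ range (k + 1), algebraMap ℝ R (al l) * F (k - l) = 0 →
  ∑ l ∈ range (k + 1), algebraMap ℝ R (al l) * G (k - l) = 0 →
  ev (D (r ^ 2 + z ^ 2)) = 0

/-- the local theorem, algebraic form -/
def GA : Prop := ∀ (R : Type) [CommRing R] [Algebra ℝ R] (ev : R →ₐ[ℝ] ℝ) (n k : ℕ)
  (al : ℕ → ℝ) (D : Fin (n + 1) → Derivation ℝ R R) (x N : Fin (n + 1) → R)
  (o e : Fin (n + 1) → ℝ) (r ri c s : R) (w : Fin (n + 1) → R), 2 ≤ n → 1 ≤ k → al 0 = 1 →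
  al k ≠ 0 → RotH D x N o e r ri c s w →
  (∀ a, ∑ l ∈ range (k + 1), algebraMap ℝ R (al l) * (lapD D)^[k - l] (x a) = 0) →
  (∀ a, o a = 0) ∧ ∀ a, ev (D a (∑ b, x b ^ 2)) = 0

/-! ### patches -/

/-- coordinates of a patch -/
def NE1 : Prop := ∀ (n m : ℕ) (O : Opens (E n)) (X : E n → E m), PatchN O X →
  ∃ (x : Fin m → Sm O) (Gi : Matrix (Fin n) (Fin n) (Sm O)) (W Wi : Sm O),
    (∀ a, ∀ p ∈ O, ev (x a) p = X p a) ∧ gm (dS O) x * Gi = 1 ∧ W ^ 2 = (gm (dS O) x).det ∧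
    W * Wi = 1 ∧ ∀ (f : E n → ℝ) (g : Sm O), (∀ p ∈ O, ev g p = f p) →
      ∀ p ∈ O, lap X f p = ev (lapC (dS O) Gi W Wi g) p

/-- unit normal near a point -/
def NE2 : Prop := ∀ (n : ℕ) (O : Opens (E n)) (X : E n → E (n + 1)), PatchN O X → ∀ p ∈ O,
  ∃ U : Opens (E n), U ≤ O ∧ p ∈ U ∧ ∀ V : Opens (E n), V ≤ U → ∀ (x : Fin (n + 1) → Sm V)
    (Gi : Matrix (Fin n) (Fin n) (Sm V)), (∀ a, ∀ q ∈ V, ev (x a) q = X q a) →
    gm (dS V) x * Gi = 1 → ∃ N : Fin (n + 1) → Sm V, ∑ a, N a ^ 2 = 1 ∧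
      ∀ a b, N a * N b = (if a = b then 1 else 0) - nb (dS V) x Gi a (x b)

/-- a tangent rotational patch off the axis -/
def RE : Prop := ∀ (n : ℕ) (V : Opens (E n)) (X : E n → E (n + 1)) (o e : E (n + 1)),
  PatchN V X → ‖e‖ = 1 → inner ℝ o e = 0 → TanRot V X o e →
  (∀ p ∈ V, ∀ t : ℝ, X p ≠ o + t • e) → ∀ (D : Fin (n + 1) → Derivation ℝ (Sm V) (Sm V))
    (x N : Fin (n + 1) → Sm V), (∀ a, ∀ q ∈ V, ev (x a) q = X q a) → Hyp D x N →
    (∀ i, ∑ a, N a * dS V i (x a) = 0) →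
    ∃ (r ri c s : Sm V) (w : Fin (n + 1) → Sm V),
      RotH D x N (fun a => o a) (fun a => e a) r ri c s w

/-- the local theorem -/
def GLoc : Prop := ∀ (n k : ℕ) (al : ℕ → ℝ) (O : Opens (E n)) (X : E n → E (n + 1))
  (o e : E (n + 1)), 2 ≤ n → 1 ≤ k → al 0 = 1 → al k ≠ 0 → PatchN O X → ‖e‖ = 1 →
  inner ℝ o e = 0 → TanRot O X o e → FTn O X k al →
  ∀ p ∈ O, (∀ t : ℝ, X p ≠ o + t • e) → o = 0 ∧ fderiv ℝ (fun q => ‖X q‖ ^ 2) p = 0

/-! ### the theorem on the manifold -/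

/-- charts give patches -/
def MP : Prop := ∀ (n m : ℕ) (M : Type) [TopologicalSpace M] [ChartedSpace (E n) M]
  [IsManifold 𝓘(ℝ, E n) ∞ M] (x : M → E m), SmoothImmersion (V := E n) x →
  ∀ φ ∈ atlas (E n) M, PatchN ⟨φ.target, φ.open_target⟩ (fun q => x (φ.symm q))

/-- the image has no interior points -/
def MI : Prop := ∀ (n : ℕ) (M : Type) [TopologicalSpace M] [ChartedSpace (E n) M]
  [IsManifold 𝓘(ℝ, E n) ∞ M] [CompactSpace M] (x : M → E (n + 1)),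
  SmoothImmersion (V := E n) x → interior (Set.range x) = ∅

/-- rotating a patch which is not tangent to the orbits -/
def MR : Prop := ∀ (n : ℕ) (O : Opens (E n)) (X : E n → E (n + 1)) (o e v : E (n + 1)) (p : E n),
  PatchN O X → ‖e‖ = 1 → p ∈ O → (∀ t : ℝ, X p ≠ o + t • e) → inner ℝ v e = 0 →
  inner ℝ v (X p - o) = 0 → (¬ ∃ u : E n, ∀ a, fderiv ℝ (fun q => X q a) p u = v a) →
  {y | ∃ A : E (n + 1) ≃ₗᵢ[ℝ] E (n + 1),
    LinearMap.det (A.toLinearEquiv : E (n + 1) →ₗ[ℝ] E (n + 1)) = 1 ∧ A e = e ∧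
    ∃ q ∈ O, y = o + A (X q - o)} ∈ nhds (X p)

/-- invariance of the image gives tangency -/
def MT : Prop := ∀ (n : ℕ) (M : Type) [TopologicalSpace M] [ChartedSpace (E n) M]
  [IsManifold 𝓘(ℝ, E n) ∞ M] [CompactSpace M] (x : M → E (n + 1)),
  SmoothImmersion (V := E n) x → ∀ o e : E (n + 1), ‖e‖ = 1 →
  (∀ A : E (n + 1) ≃ₗᵢ[ℝ] E (n + 1),
    LinearMap.det (A.toLinearEquiv : E (n + 1) →ₗ[ℝ] E (n + 1)) = 1 → A e = e →
    ∀ p, o + A (x p - o) ∈ Set.range x) →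
  ∀ φ ∈ atlas (E n) M, TanRot ⟨φ.target, φ.open_target⟩ (fun q => x (φ.symm q)) o e

/-- points off the axis are dense -/
def MD : Prop := ∀ (n : ℕ) (M : Type) [TopologicalSpace M] [ChartedSpace (E n) M]
  [IsManifold 𝓘(ℝ, E n) ∞ M] (x : M → E (n + 1)), 2 ≤ n →
  SmoothImmersion (V := E n) x → ∀ o e : E (n + 1), Dense {p : M | ∀ t : ℝ, x p ≠ o + t • e}

/-- eigenvalues are not zero; the equation of finite type in charts -/
def MF : Prop := ∀ (n : ℕ) (M : Type) [TopologicalSpace M] [ChartedSpace (E n) M]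
  [IsManifold 𝓘(ℝ, E n) ∞ M] [CompactSpace M] [ConnectedSpace M] (x : M → E (n + 1)), 1 ≤ n →
  SmoothImmersion (V := E n) x → FiniteType (n := n) x →
  ∃ (c : E (n + 1)) (k : ℕ) (al : ℕ → ℝ), 1 ≤ k ∧ al 0 = 1 ∧ al k ≠ 0 ∧
    ∀ φ ∈ atlas (E n) M, FTn ⟨φ.target, φ.open_target⟩ (fun q => x (φ.symm q) - c) k al

/-- immersed compact hypersurfaces in a sphere -/
def MS : Prop := ∀ (n : ℕ) (M : Type) [TopologicalSpace M] [ChartedSpace (E n) M]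
  [IsManifold 𝓘(ℝ, E n) ∞ M] [CompactSpace M] [ConnectedSpace M] (x : M → E (n + 1)), 1 ≤ n →
  SmoothImmersion (V := E n) x → ∀ κ : ℝ, (∀ p, ‖x p‖ ^ 2 = κ) →
  ∃ r : ℝ, 0 < r ∧ Set.range x = Metric.sphere 0 r

/-- the main theorem -/
def MM : Prop := ∀ (n : ℕ) (M : Type) [TopologicalSpace M] [ChartedSpace (E n) M]
  [IsManifold 𝓘(ℝ, E n) ∞ M] [CompactSpace M] [ConnectedSpace M] (x : M → E (n + 1)), 2 ≤ n →
  SmoothImmersion (V := E n) x → FiniteType (n := n) x → ∀ o e : E (n + 1), e ≠ 0 →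
  (∀ A : E (n + 1) ≃ₗᵢ[ℝ] E (n + 1),
    LinearMap.det (A.toLinearEquiv : E (n + 1) →ₗ[ℝ] E (n + 1)) = 1 → A e = e →
    ∀ p, o + A (x p - o) ∈ Set.range x) →
  ∃ (c : E (n + 1)) (r : ℝ), 0 < r ∧ Set.range x = Metric.sphere c r

end Pool.Agent.Work.MP_157c12_gt.Rot
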