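import Pool.Agent.Work.MP_157c12_gt.Rot.GStmts

section

/-!
# MP_157c12_gt, Rot, item JC: Jacobi's formula for derivations
-/

namespace Pool.Agent.Work.MP_157c12_gt.Rot

open Finset

open Pool.Agent.Work.MP_157c12_gt

theorem JC_prod {R : Type} [CommRing R] [Algebra ℝ R] (D : Derivation ℝ R R) {ι : Type}
    [DecidableEq ι] (s : Finset ι) (f : ι → R) :
    D (∏ i ∈ s, f i) = ∑ i ∈ s, (∏ j ∈ s.erase i, f j) * D (f i) := by
  induction s using Finset.induction_on with
  | empty => simp
  | insert a s ha ih =>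
    rw [prod_insert ha, Derivation.leibniz, ih, sum_insert ha, erase_insert ha]
    simp only [smul_eq_mul]
    rw [add_comm, mul_sum]
    congr 1
    refine sum_congr rfl fun i hi => ?_
    have hne : a ≠ i := fun h => ha (h ▸ hi)
    rw [erase_insert_of_ne hne, prod_insert (fun h => ha (mem_of_mem_erase h)), mul_assoc]

theorem pr_JC : JC := by
  intro R _ _ D n M
  have h1 : ∀ i, ∑ j, M.adjugate i j * D (M j i) = (M.updateCol i (fun k => D (M k i))).det := by
    intro i
    rw [← Matrix.cramer_apply, Matrix.cramer_eq_adjugate_mulVec]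
    rfl
  simp only [h1]
  rw [Matrix.det_apply, map_sum]
  have h2 : ∀ i, (M.updateCol i (fun k => D (M k i))).det = ∑ σ : Equiv.Perm (Fin n),
      Equiv.Perm.sign σ • ((∏ j ∈ univ.erase i, M (σ j) j) * D (M (σ i) i)) := by
    intro i
    rw [Matrix.det_apply]
    refine sum_congr rfl fun σ _ => ?_
    congr 1
    rw [← mul_prod_erase univ _ (mem_univ i), mul_comm]
    congr 1
    · refine prod_congr rfl fun j hj => ?_
      rw [Matrix.updateCol_ne (ne_of_mem_erase hj)]
    · rw [Matrix.updateCol_self]
  simp only [h2]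
  rw [sum_comm]
  refine sum_congr rfl fun σ _ => ?_
  rw [← smul_sum, ← JC_prod, Units.smul_def, Units.smul_def, map_zsmul]

end Pool.Agent.Work.MP_157c12_gt.Rot

end

section

/-!
# Item LD: the Laplace operator by tangential derivatives
-/

set_option autoImplicit false

open TopologicalSpace Finset
open scoped Manifold ContDiff

namespace Pool.Agent.Work.MP_157c12_gt.Rot

open Pool.Agent.Work.MP_157c12_gt

namespace LDaux

variable {R : Type} [CommRing R] [Algebra ℝ R] {n m : ℕ}

theorem LD_sum {ι : Type} (s : Finset ι) (D : ι → Derivation ℝ R R) (f : R) :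
    (∑ i ∈ s, D i) f = ∑ i ∈ s, D i f := by
  have h := congrFun (map_sum (Derivation.coeFnAddMonoidHom (R := ℝ) (A := R) (M := R)) D s) f
  rw [Finset.sum_apply] at h
  exact h

/-- gradient -/
def LD_V (d : Fin n → Derivation ℝ R R) (Gi : Matrix (Fin n) (Fin n) R) (f : R) (k : Fin n) : R :=
  ∑ j, Gi k j * d j f

theorem LD_nb (d : Fin n → Derivation ℝ R R) (x : Fin m → R) (Gi : Matrix (Fin n) (Fin n) R)
    (a : Fin m) (f : R) : nb d x Gi a f = ∑ i, d i (x a) * LD_V d Gi f i := by
  unfold nb LD_V
  rw [LD_sum]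
  refine Finset.sum_congr rfl fun i _ => ?_
  rw [LD_sum, Finset.mul_sum]
  refine Finset.sum_congr rfl fun j _ => ?_
  rw [Derivation.smul_apply, smul_eq_mul]
  ring

theorem LD_nb' (d : Fin n → Derivation ℝ R R) (x : Fin m → R) (Gi : Matrix (Fin n) (Fin n) R)
    (a : Fin m) (f : R) : nb d x Gi a f = ∑ i, ∑ j, Gi i j * d i (x a) * d j f := by
  unfold nb
  rw [LD_sum]
  refine Finset.sum_congr rfl fun i _ => ?_
  rw [LD_sum]
  refine Finset.sum_congr rfl fun j _ => ?_
  rw [Derivation.smul_apply, smul_eq_mul]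

theorem LD_gm_symm (d : Fin n → Derivation ℝ R R) (x : Fin m → R) (i j : Fin n) :
    gm d x i j = gm d x j i := by
  unfold gm
  rw [Matrix.of_apply, Matrix.of_apply]
  exact Finset.sum_congr rfl fun a _ => mul_comm _ _

theorem LD_Gi_symm {d : Fin n → Derivation ℝ R R} {x : Fin m → R}
    {Gi : Matrix (Fin n) (Fin n) R} (hG : gm d x * Gi = 1) (i j : Fin n) : Gi i j = Gi j i := by
  have h1 : (gm d x).transpose = gm d x := by
    ext i j
    exact LD_gm_symm d x j i
  have h2 : Gi.transpose * gm d x = 1 := by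
    have := congrArg Matrix.transpose hG
    rwa [Matrix.transpose_mul, h1, Matrix.transpose_one] at this
  have h3 : Gi.transpose = Gi := by
    calc Gi.transpose = Gi.transpose * (gm d x * Gi) := by rw [hG, Matrix.mul_one]
      _ = (Gi.transpose * gm d x) * Gi := by rw [Matrix.mul_assoc]
      _ = Gi := by rw [h2, Matrix.one_mul]
  have h4 := congrFun (congrFun h3 j) i
  rw [Matrix.transpose_apply] at h4
  exact h4

/-- second derivatives contracted with the first derivatives -/
def LD_B (d : Fin n → Derivation ℝ R R) (x : Fin m → R) (Gi : Matrix (Fin n) (Fin n) R)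
    (k : Fin n) : R := ∑ i, ∑ j, Gi i j * ∑ a, d i (x a) * d j (d k (x a))

theorem LD_twoB {d : Fin n → Derivation ℝ R R} {x : Fin m → R} {Gi : Matrix (Fin n) (Fin n) R}
    (hc : ∀ i j f, d i (d j f) = d j (d i f)) (hG : gm d x * Gi = 1) (k : Fin n) :
    2 * LD_B d x Gi k = ∑ i, ∑ j, Gi i j * d k (gm d x j i) := by
  have e1 : ∀ i j, d k (gm d x j i) = ∑ a, d j (x a) * d i (d k (x a)) +
      ∑ a, d i (x a) * d j (d k (x a)) := by
    intro i j
    unfold gm
    rw [Matrix.of_apply, map_sum, ← Finset.sum_add_distrib]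
    refine Finset.sum_congr rfl fun a _ => ?_
    rw [Derivation.leibniz, smul_eq_mul, smul_eq_mul, hc k i, hc k j]
  have e2 : ∑ i, ∑ j, Gi i j * ∑ a, d j (x a) * d i (d k (x a)) = LD_B d x Gi k := by
    unfold LD_B
    rw [Finset.sum_comm]
    refine Finset.sum_congr rfl fun i _ => Finset.sum_congr rfl fun j _ => ?_
    rw [LD_Gi_symm hG j i]
  have e3 : ∑ i, ∑ j, Gi i j * d k (gm d x j i) =
      ∑ i, ∑ j, Gi i j * (∑ a, d j (x a) * d i (d k (x a))) +
        ∑ i, ∑ j, Gi i j * ∑ a, d i (x a) * d j (d k (x a)) := by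
    rw [← Finset.sum_add_distrib]
    refine Finset.sum_congr rfl fun i _ => ?_
    rw [← Finset.sum_add_distrib]
    refine Finset.sum_congr rfl fun j _ => ?_
    rw [e1, mul_add]
  rw [e3, e2, two_mul]
  rfl

theorem LD_adj {d : Fin n → Derivation ℝ R R} {x : Fin m → R} {Gi : Matrix (Fin n) (Fin n) R}
    (hG : gm d x * Gi = 1) (i j : Fin n) :
    (gm d x).adjugate i j = (gm d x).det * Gi i j := by
  have h1 : Gi * gm d x = 1 := mul_eq_one_comm.mp hG
  have h2 : (gm d x).adjugate = (gm d x).det • Gi := by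
    calc (gm d x).adjugate = (Gi * gm d x) * (gm d x).adjugate := by rw [h1, Matrix.one_mul]
      _ = Gi * (gm d x * (gm d x).adjugate) := by rw [Matrix.mul_assoc]
      _ = (gm d x).det • Gi := by
        rw [Matrix.mul_adjugate, Matrix.mul_smul, Matrix.mul_one]
  rw [h2]
  rfl

theorem LD_two (u v : R) (h : 2 * u = 2 * v) : u = v := by
  have h2 : IsUnit (2 : R) := by
    have := (isUnit_iff_ne_zero.mpr (two_ne_zero : (2 : ℝ) ≠ 0)).map (algebraMap ℝ R)
    rwa [map_ofNat] at this
  exact h2.mul_left_cancel h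

theorem LD_Bk (hJC : JC) {d : Fin n → Derivation ℝ R R} {x : Fin m → R}
    {Gi : Matrix (Fin n) (Fin n) R} {W Wi : R} (hc : ∀ i j f, d i (d j f) = d j (d i f))
    (hG : gm d x * Gi = 1) (hW : W ^ 2 = (gm d x).det) (hWi : W * Wi = 1) (k : Fin n) :
    LD_B d x Gi k = Wi * d k W := by
  apply LD_two
  have h1 := hJC R (d k) n (gm d x)
  have h2 : ∑ i, ∑ j, (gm d x).adjugate i j * d k (gm d x j i) = W ^ 2 * (2 * LD_B d x Gi k) := by
    rw [LD_twoB hc hG, Finset.mul_sum]
    refine Finset.sum_congr rfl fun i _ => ?_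
    rw [Finset.mul_sum]
    refine Finset.sum_congr rfl fun j _ => ?_
    rw [LD_adj hG, hW, mul_assoc]
  rw [h2, ← hW, pow_two, Derivation.leibniz, smul_eq_mul] at h1
  linear_combination (-Wi ^ 2) * h1 + (2 * LD_B d x Gi k * (W * Wi + 1) * (-1) +
    2 * Wi * d k W) * hWi

end LDaux

open LDaux in
theorem pr_LD (hJC : JC) : LD := by
  intro R _ _ n m d x Gi W Wi hc hG hW hWi f
  have hGi := LD_Gi_symm hG
  have h1 : Gi * gm d x = 1 := mul_eq_one_comm.mp hG
  set V := LD_V d Gi f with hV
  have eC : lapC d Gi W Wi f = ∑ j, d j (V j) + ∑ k, Wi * d k W * V k := by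
    unfold lapC
    rw [Finset.mul_sum, ← Finset.sum_add_distrib]
    refine Finset.sum_congr rfl fun i _ => ?_
    have : ∑ j, Gi i j * d j f = V i := rfl
    rw [this, Derivation.leibniz, smul_eq_mul, smul_eq_mul]
    linear_combination (d i (V i)) * hWi
  have eD : lapD (nb d x Gi) f = ∑ j, d j (V j) + ∑ k, LD_B d x Gi k * V k := by
    unfold lapD
    have e1 : ∀ a, nb d x Gi a (nb d x Gi a f) =
        ∑ i, ∑ j, ∑ k, (Gi i j * (d i (x a) * d k (x a)) * d j (V k) +
          Gi i j * (d i (x a) * d j (d k (x a))) * V k) := by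
      intro a
      rw [LD_nb']
      refine Finset.sum_congr rfl fun i _ => Finset.sum_congr rfl fun j _ => ?_
      rw [LD_nb, map_sum, Finset.mul_sum]
      refine Finset.sum_congr rfl fun k _ => ?_
      rw [Derivation.leibniz, smul_eq_mul, smul_eq_mul]
      ring
    simp only [e1, Finset.sum_add_distrib]
    congr 1
    · rw [Finset.sum_comm]
      have e2 : ∀ i : Fin n, ∑ a, ∑ j, ∑ k, Gi i j * (d i (x a) * d k (x a)) * d j (V k) =
          ∑ j, ∑ k, Gi j i * gm d x i k * d j (V k) := by
        intro i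
        rw [Finset.sum_comm]
        refine Finset.sum_congr rfl fun j _ => ?_
        rw [Finset.sum_comm]
        refine Finset.sum_congr rfl fun k _ => ?_
        unfold gm
        rw [Matrix.of_apply, ← Finset.sum_mul, ← Finset.mul_sum, hGi]
      simp only [e2]
      rw [Finset.sum_comm]
      refine Finset.sum_congr rfl fun j _ => ?_
      rw [Finset.sum_comm]
      have e3 : ∀ k, ∑ i, Gi j i * gm d x i k * d j (V k) = if j = k then d j (V k) else 0 := by
        intro k
        rw [← Finset.sum_mul]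
        have h := congrFun (congrFun h1 j) k
        rw [Matrix.mul_apply, Matrix.one_apply] at h
        rw [h]
        split_ifs <;> simp
      simp only [e3]
      simp
    · rw [Finset.sum_comm]
      have e2 : ∀ i : Fin n, ∑ a, ∑ j, ∑ k, Gi i j * (d i (x a) * d j (d k (x a))) * V k =
          ∑ k, ∑ j, Gi i j * (∑ a, d i (x a) * d j (d k (x a))) * V k := by
        intro i
        rw [Finset.sum_comm, Finset.sum_congr rfl fun j _ => Finset.sum_comm, Finset.sum_comm]
        refine Finset.sum_congr rfl fun k _ => Finset.sum_congr rfl fun j _ => ?_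
        rw [← Finset.sum_mul, ← Finset.mul_sum]
      simp only [e2]
      rw [Finset.sum_comm]
      refine Finset.sum_congr rfl fun k _ => ?_
      unfold LD_B
      rw [Finset.sum_mul]
      refine Finset.sum_congr rfl fun i _ => ?_
      rw [Finset.sum_mul]
  rw [eC, eD]
  congr 1
  refine Finset.sum_congr rfl fun k _ => ?_
  rw [LD_Bk hJC hc hG hW hWi]

end Pool.Agent.Work.MP_157c12_gt.Rot

end

section

/-!
# Rotational hypersurfaces: coordinates give the structure Hyp
-/

open Finset

namespace Pool.Agent.Work.MP_157c12_gt.Rot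

namespace HYaux

variable {R : Type} [CommRing R] [Algebra ℝ R] {n m : ℕ}

/-- coefficients of the tangential derivatives -/
def vv (d : Fin n → Derivation ℝ R R) (x : Fin m → R) (Gi : Matrix (Fin n) (Fin n) R)
    (a : Fin m) (j : Fin n) : R := ∑ i, Gi i j * d i (x a)

theorem HY_sum {ι : Type} (s : Finset ι) (D : ι → Derivation ℝ R R) (f : R) :
    (∑ i ∈ s, D i) f = ∑ i ∈ s, D i f := by
  have h := congrFun (map_sum (Derivation.coeFnAddMonoidHom (R := ℝ) (A := R) (M := R)) D s) f
  rw [Finset.sum_apply] at h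
  exact h

theorem HY_nb (d : Fin n → Derivation ℝ R R) (x : Fin m → R) (Gi : Matrix (Fin n) (Fin n) R)
    (a : Fin m) (f : R) : nb d x Gi a f = ∑ j, vv d x Gi a j * d j f := by
  unfold nb vv
  rw [HY_sum, Finset.sum_congr rfl (fun i _ => HY_sum _ _ _), Finset.sum_comm]
  refine Finset.sum_congr rfl fun j _ => ?_
  rw [Finset.sum_mul]
  refine Finset.sum_congr rfl fun i _ => ?_
  rw [Derivation.smul_apply, smul_eq_mul]

/-- the metric times the coefficients -/
theorem HY_dv {d : Fin n → Derivation ℝ R R} {x : Fin m → R} {Gi : Matrix (Fin n) (Fin n) R}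
    (hG : gm d x * Gi = 1) (k j : Fin n) :
    ∑ a, d k (x a) * vv d x Gi a j = if k = j then 1 else 0 := by
  have h := congrFun (congrFun hG k) j
  rw [Matrix.mul_apply, Matrix.one_apply] at h
  rw [← h]
  unfold vv gm
  simp only [Matrix.of_apply, Finset.mul_sum, Finset.sum_mul]
  rw [Finset.sum_comm]
  refine Finset.sum_congr rfl fun i _ => Finset.sum_congr rfl fun a _ => ?_
  ring

theorem HY_vg {d : Fin n → Derivation ℝ R R} {x : Fin m → R} {Gi : Matrix (Fin n) (Fin n) R}
    (hG : gm d x * Gi = 1) (a : Fin m) (k : Fin n) :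
    ∑ j, vv d x Gi a j * gm d x j k = d k (x a) := by
  have h2 : Gi * gm d x = 1 := mul_eq_one_comm.mp hG
  unfold vv
  simp only [Finset.sum_mul]
  rw [Finset.sum_comm]
  have h3 : ∀ i, ∑ j, Gi i j * d i (x a) * gm d x j k = if i = k then d i (x a) else 0 := by
    intro i
    have h := congrFun (congrFun h2 i) k
    rw [Matrix.mul_apply, Matrix.one_apply] at h
    have : ∑ j, Gi i j * d i (x a) * gm d x j k = d i (x a) * ∑ j, Gi i j * gm d x j k := by
      rw [Finset.mul_sum]; exact Finset.sum_congr rfl fun j _ => by ring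
    rw [this, h]; split_ifs <;> simp
  rw [Finset.sum_congr rfl fun i _ => h3 i]
  simp

theorem HY_pd {d : Fin n → Derivation ℝ R R} {x : Fin m → R} {Gi : Matrix (Fin n) (Fin n) R}
    (hG : gm d x * Gi = 1) (a : Fin m) (k : Fin n) :
    ∑ b, nb d x Gi a (x b) * d k (x b) = d k (x a) := by
  rw [← HY_vg hG a k]
  simp only [HY_nb, Finset.sum_mul]
  rw [Finset.sum_comm]
  refine Finset.sum_congr rfl fun j _ => ?_
  unfold gm
  rw [Matrix.of_apply, Finset.mul_sum]
  exact Finset.sum_congr rfl fun b _ => by ring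

end HYaux

open HYaux in
theorem pr_HY : HY := by
  intro R _ _ n m d x N Gi hd hG hN hP
  have h0 : ∀ k, ∑ b, N b * d k (x b) = 0 := by
    intro k
    have h1 : ∀ a, N a * ∑ b, N b * d k (x b) = 0 := by
      intro a
      have : N a * ∑ b, N b * d k (x b) =
          ∑ b, ((if a = b then 1 else 0) - nb d x Gi a (x b)) * d k (x b) := by
        rw [Finset.mul_sum]
        exact Finset.sum_congr rfl fun b _ => by rw [← hP a b]; ring
      rw [this]
      simp only [sub_mul, Finset.sum_sub_distrib, ite_mul, one_mul, zero_mul]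
      rw [HY_pd hG]
      simp
    have h2 : ∑ a, N a * (N a * ∑ b, N b * d k (x b)) = 0 :=
      Finset.sum_eq_zero fun a _ => by rw [h1, mul_zero]
    have h3 : ∑ a, N a * (N a * ∑ b, N b * d k (x b)) = (∑ a, N a ^ 2) * ∑ b, N b * d k (x b) := by
      rw [Finset.sum_mul]
      exact Finset.sum_congr rfl fun a _ => by ring
    rw [h3, hN, one_mul] at h2
    exact h2
  have hv : ∀ j, ∑ a, N a * vv d x Gi a j = 0 := by
    intro j
    unfold vv
    simp only [Finset.mul_sum]
    rw [Finset.sum_comm]
    refine Finset.sum_eq_zero fun i _ => ?_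
    have : ∑ a, N a * (Gi i j * d i (x a)) = Gi i j * ∑ a, N a * d i (x a) := by
      rw [Finset.mul_sum]; exact Finset.sum_congr rfl fun a _ => by ring
    rw [this, h0, mul_zero]
  have hdf : ∀ i f, d i f = ∑ a, d i (x a) * nb d x Gi a f := by
    intro i f
    simp only [HY_nb, Finset.mul_sum]
    rw [Finset.sum_comm]
    have : ∀ j, ∑ a, d i (x a) * (vv d x Gi a j * d j f) = if i = j then d j f else 0 := by
      intro j
      have h1 := HY_dv hG i j
      have h2 : ∑ a, d i (x a) * (vv d x Gi a j * d j f) =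
          (∑ a, d i (x a) * vv d x Gi a j) * d j f := by
        rw [Finset.sum_mul]; exact Finset.sum_congr rfl fun a _ => by ring
      rw [h2, h1]; split_ifs <;> simp
    rw [Finset.sum_congr rfl fun j _ => this j]
    simp
  have two : ∀ y : R, 2 * y = 0 → y = 0 := by
    intro y hy
    have h1 : (algebraMap ℝ R (1 / 2)) * (2 * y) = 0 := by rw [hy, mul_zero]
    have h2 : (2 : R) = algebraMap ℝ R 2 := by rw [map_ofNat]
    rw [h2, ← mul_assoc, ← map_mul] at h1
    norm_num at h1
    exact h1
  have hNd : ∀ j, ∑ c, N c * d j (N c) = 0 := by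
    intro j
    apply two
    have h1 := congrArg (d j) hN
    rw [Derivation.map_one_eq_zero, map_sum] at h1
    rw [← h1, Finset.mul_sum]
    refine Finset.sum_congr rfl fun c _ => ?_
    rw [Derivation.leibniz_pow]
    simp only [smul_eq_mul, nsmul_eq_mul]
    push_cast
    ring
  have hx : ∀ a b, nb d x Gi a (x b) = (if a = b then 1 else 0) - N a * N b := by
    intro a b
    rw [hP a b]; ring
  have hdN : ∀ b j, d j (N b) = ∑ l, vv d x Gi b l * ∑ c, d l (x c) * d j (N c) := by
    intro b j
    have h1 : d j (N b) = ∑ c, (nb d x Gi b (x c)) * d j (N c) := by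
      have h2 : ∑ c, (nb d x Gi b (x c)) * d j (N c) =
          ∑ c, (if b = c then 1 else 0) * d j (N c) - N b * ∑ c, N c * d j (N c) := by
        rw [Finset.mul_sum, ← Finset.sum_sub_distrib]
        exact Finset.sum_congr rfl fun c _ => by rw [hx b c]; ring
      rw [h2, hNd, mul_zero, sub_zero]
      simp
    rw [h1]
    simp only [HY_nb, Finset.sum_mul, Finset.mul_sum]
    rw [Finset.sum_comm]
    exact Finset.sum_congr rfl fun l _ => Finset.sum_congr rfl fun c _ => by ring
  have hH : ∀ l j, ∑ c, d l (x c) * d j (N c) = -∑ c, N c * d j (d l (x c)) := by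
    intro l j
    have h1 := congrArg (d j) (h0 l)
    rw [map_zero, map_sum] at h1
    rw [eq_neg_iff_add_eq_zero, ← Finset.sum_add_distrib, ← h1]
    refine Finset.sum_congr rfl fun c _ => ?_
    rw [Derivation.leibniz]
    simp only [smul_eq_mul]
    ring
  have hsym : ∀ a b, nb d x Gi a (N b) = nb d x Gi b (N a) := by
    intro a b
    rw [HY_nb, HY_nb]
    have e1 : ∀ a b, ∑ j, vv d x Gi a j * d j (N b) =
        ∑ j, ∑ l, vv d x Gi a j * vv d x Gi b l * (-∑ c, N c * d j (d l (x c))) := by
      intro a b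
      refine Finset.sum_congr rfl fun j _ => ?_
      rw [hdN b j, Finset.mul_sum]
      refine Finset.sum_congr rfl fun l _ => ?_
      rw [hH l j]; ring
    rw [e1 a b, e1 b a, Finset.sum_comm]
    refine Finset.sum_congr rfl fun j _ => Finset.sum_congr rfl fun l _ => ?_
    have : ∀ c, d l (d j (x c)) = d j (d l (x c)) := fun c => hd l j (x c)
    simp only [this]
    ring
  have hbr : ∀ a b, ∃ w : Fin n → R, ∀ f, nb d x Gi a (nb d x Gi b f) - nb d x Gi b (nb d x Gi a f)
      = ∑ j, w j * d j f := by
    intro a b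
    refine ⟨fun j => nb d x Gi a (vv d x Gi b j) - nb d x Gi b (vv d x Gi a j), fun f => ?_⟩
    have e1 : ∀ a b, nb d x Gi a (nb d x Gi b f) = ∑ j, nb d x Gi a (vv d x Gi b j) * d j f +
        ∑ j, ∑ k, vv d x Gi b j * vv d x Gi a k * d k (d j f) := by
      intro a b
      rw [HY_nb d x Gi b f, map_sum, ← Finset.sum_add_distrib]
      refine Finset.sum_congr rfl fun j _ => ?_
      rw [Derivation.leibniz]
      simp only [smul_eq_mul]
      rw [HY_nb d x Gi a (d j f), Finset.mul_sum, add_comm, mul_comm (d j f)]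
      congr 1
      exact Finset.sum_congr rfl fun k _ => by ring
    have e2 : ∑ j, ∑ k, vv d x Gi b j * vv d x Gi a k * d k (d j f) =
        ∑ j, ∑ k, vv d x Gi a j * vv d x Gi b k * d k (d j f) := by
      rw [Finset.sum_comm]
      refine Finset.sum_congr rfl fun j _ => Finset.sum_congr rfl fun k _ => ?_
      rw [hd j k f]; ring
    rw [e1 a b, e1 b a, e2, add_sub_add_right_eq_sub, ← Finset.sum_sub_distrib]
    exact Finset.sum_congr rfl fun j _ => by ring
  have hcx : ∀ a b c, nb d x Gi a (nb d x Gi b (x c)) - nb d x Gi b (nb d x Gi a (x c)) =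
      N a * nb d x Gi b (N c) - N b * nb d x Gi a (N c) := by
    intro a b c
    have e1 : ∀ a b, nb d x Gi a (nb d x Gi b (x c)) =
        -(nb d x Gi a (N b) * N c) - N b * nb d x Gi a (N c) := by
      intro a b
      rw [hx b c, map_sub, Derivation.leibniz]
      have : nb d x Gi a (if b = c then (1 : R) else 0) = 0 := by
        split_ifs
        · exact Derivation.map_one_eq_zero _
        · exact map_zero _
      rw [this]
      simp only [smul_eq_mul]
      ring
    rw [e1 a b, e1 b a, hsym a b]
    ring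
  refine ⟨⟨hN, hx, ?_, hsym, ?_⟩, h0, hdf⟩
  · intro f
    simp only [HY_nb, Finset.mul_sum]
    rw [Finset.sum_comm]
    refine Finset.sum_eq_zero fun j _ => ?_
    have : ∑ a, N a * (vv d x Gi a j * d j f) = (∑ a, N a * vv d x Gi a j) * d j f := by
      rw [Finset.sum_mul]; exact Finset.sum_congr rfl fun a _ => by ring
    rw [this, hv, zero_mul]
  · intro a b f
    obtain ⟨w, hw⟩ := hbr a b
    rw [hw f]
    have e1 : ∑ j, w j * d j f = ∑ c, (∑ j, w j * d j (x c)) * nb d x Gi c f := by
      simp only [Finset.sum_mul]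
      rw [Finset.sum_comm]
      refine Finset.sum_congr rfl fun j _ => ?_
      rw [hdf j f, Finset.mul_sum]
      exact Finset.sum_congr rfl fun c _ => by ring
    rw [e1]
    refine Finset.sum_congr rfl fun c _ => ?_
    rw [← hw (x c), hcx a b c]

end Pool.Agent.Work.MP_157c12_gt.Rot

end

section

/-!
# Item RA1: first derivatives on a hypersurface of revolution
-/

open TopologicalSpace Finset
open scoped Manifold ContDiff

namespace Pool.Agent.Work.MP_157c12_gt.Rot

section

variable {R : Type} [CommRing R] [Algebra ℝ R] {m : ℕ}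

theorem RA1_two {a : R} (h : 2 * a = 0) : a = 0 := by
  have h1 : (algebraMap ℝ R (1 / 2)) * 2 = 1 := by
    have : (2 : R) = algebraMap ℝ R 2 := (map_ofNat (algebraMap ℝ R) 2).symm
    rw [this, ← map_mul]
    norm_num
  calc a = (algebraMap ℝ R (1 / 2)) * 2 * a := by rw [h1, one_mul]
    _ = (algebraMap ℝ R (1 / 2)) * (2 * a) := by ring
    _ = 0 := by rw [h, mul_zero]

theorem RA1_pT (D : Fin m → Derivation ℝ R R) (e : Fin m → ℝ) (c s : R) (w : Fin m → R) (f : R) :
    pT D e c s w f = ∑ a, (c * w a + s * algebraMap ℝ R (e a)) * D a f := by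
  have h1 : pT D e c s w f = Derivation.coeFnAddMonoidHom
      (∑ a, (c * w a + s * algebraMap ℝ R (e a)) • D a) f := rfl
  rw [h1, map_sum, Finset.sum_apply]
  rfl

omit [Algebra ℝ R] in
/-- a sum with a Kronecker symbol -/
theorem RA1_delta (a : Fin m) (f : Fin m → R) :
    ∑ b, (if a = b then (1 : R) else 0) * f b = f a := by
  simp

end

theorem pr_RA1 : RA1 := by
  intro R _ _ m D x N o e r ri c s w h
  set E : Fin m → R := fun a => algebraMap ℝ R (e a) with hE
  have hDE : ∀ a b, D a (E b) = 0 := fun a b => (D a).map_algebraMap (e b)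
  have hDO : ∀ a b, D a (algebraMap ℝ R (o b)) = 0 := fun a b => (D a).map_algebraMap (o b)
  have hcs : c ^ 2 + s ^ 2 = 1 := h.cs
  have hEE : ∑ b, E b ^ 2 = 1 := by
    have := congrArg (algebraMap ℝ R) h.e1
    rw [map_sum, map_one] at this
    rw [← this]
    exact Finset.sum_congr rfl fun b _ => (map_pow _ _ _).symm
  have hww : ∑ b, w b ^ 2 = 1 := h.w1
  have hwE : ∑ b, w b * E b = 0 := h.we
  have hN : ∀ a, N a = -s * w a + c * E a := h.N
  set T : Fin m → R := fun a => c * w a + s * E a with hT
  have hTT : ∑ a, T a ^ 2 = 1 := by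
    have : ∀ a, T a ^ 2 = c ^ 2 * w a ^ 2 + 2 * c * s * (w a * E a) + s ^ 2 * E a ^ 2 := by
      intro a
      simp only [hT]
      ring
    rw [Finset.sum_congr rfl fun a _ => this a, Finset.sum_add_distrib, Finset.sum_add_distrib,
      ← Finset.mul_sum, ← Finset.mul_sum, ← Finset.mul_sum, hww, hwE, hEE]
    linear_combination hcs
  have hTN : ∑ a, T a * N a = 0 := by
    have : ∀ a, T a * N a = -(c * s) * w a ^ 2 + (c ^ 2 - s ^ 2) * (w a * E a) +
        (c * s) * E a ^ 2 := by
      intro a
      rw [hN]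
      simp only [hT]
      ring
    rw [Finset.sum_congr rfl fun a _ => this a, Finset.sum_add_distrib, Finset.sum_add_distrib,
      ← Finset.mul_sum, ← Finset.mul_sum, ← Finset.mul_sum, hww, hwE, hEE]
    ring
  have hNE : ∑ a, N a * E a = c := by
    have : ∀ a, N a * E a = -s * (w a * E a) + c * E a ^ 2 := by
      intro a
      rw [hN]
      ring
    rw [Finset.sum_congr rfl fun a _ => this a, Finset.sum_add_distrib,
      ← Finset.mul_sum, ← Finset.mul_sum, hwE, hEE]
    ring
  have hNw : ∑ a, N a * w a = -s := by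
    have : ∀ a, N a * w a = -s * w a ^ 2 + c * (w a * E a) := by
      intro a
      rw [hN]
      ring
    rw [Finset.sum_congr rfl fun a _ => this a, Finset.sum_add_distrib,
      ← Finset.mul_sum, ← Finset.mul_sum, hwE, hww]
    ring
  set z : R := ∑ b, x b * E b with hz
  have hdx := h.hyp.dx
  -- derivative of z
  have hDz : ∀ a, D a z = s * T a := by
    intro a
    rw [hz, map_sum]
    have : ∀ b, D a (x b * E b) = (if a = b then (1 : R) else 0) * E b - N a * (N b * E b) := by
      intro b
      rw [Derivation.leibniz, hDE, smul_zero, zero_add, hdx, smul_eq_mul]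
      ring
    rw [Finset.sum_congr rfl fun b _ => this b, Finset.sum_sub_distrib, RA1_delta,
      ← Finset.mul_sum, hNE, hN]
    simp only [hT]
    linear_combination (-(E a)) * hcs
  -- derivative of r w
  have hDrw : ∀ a b, r * D a (w b) + w b * D a r =
      (if a = b then (1 : R) else 0) - N a * N b - s * T a * E b := by
    intro a b
    have h1 := hdx a b
    rw [h.xw b] at h1
    rw [map_add, map_add, Derivation.leibniz, Derivation.leibniz, hDO, zero_add] at h1
    have h2 : D a (∑ b, x b * algebraMap ℝ R (e b)) = s * T a := hDz a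
    have h3 : D a (algebraMap ℝ R (e b)) = 0 := hDE a b
    rw [h2, h3, smul_zero, zero_add] at h1
    simp only [smul_eq_mul] at h1
    have h4 : algebraMap ℝ R (e b) = E b := rfl
    rw [h4] at h1
    linear_combination h1
  have hwDw : ∀ a, ∑ b, w b * D a (w b) = 0 := by
    intro a
    apply RA1_two
    have h1 := congrArg (D a) hww
    rw [map_sum, Derivation.map_one_eq_zero] at h1
    rw [← h1, Finset.mul_sum]
    refine Finset.sum_congr rfl fun b _ => ?_
    rw [pow_two, Derivation.leibniz]
    simp only [smul_eq_mul]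
    ring
  have hDr : ∀ a, D a r = c * T a := by
    intro a
    have h1 : ∑ b, w b * (r * D a (w b) + w b * D a r) =
        ∑ b, w b * ((if a = b then (1 : R) else 0) - N a * N b - s * T a * E b) :=
      Finset.sum_congr rfl fun b _ => by rw [hDrw]
    have h2 : ∑ b, w b * (r * D a (w b) + w b * D a r) = D a r := by
      have : ∀ b, w b * (r * D a (w b) + w b * D a r) =
          r * (w b * D a (w b)) + D a r * w b ^ 2 := fun b => by ring
      rw [Finset.sum_congr rfl fun b _ => this b, Finset.sum_add_distrib, ← Finset.mul_sum,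
        ← Finset.mul_sum, hwDw, hww]
      ring
    have h3 : ∑ b, w b * ((if a = b then (1 : R) else 0) - N a * N b - s * T a * E b) =
        w a + N a * s := by
      have : ∀ b, w b * ((if a = b then (1 : R) else 0) - N a * N b - s * T a * E b) =
          (if a = b then (1 : R) else 0) * w b - N a * (N b * w b) - s * T a * (w b * E b) :=
        fun b => by ring
      rw [Finset.sum_congr rfl fun b _ => this b, Finset.sum_sub_distrib, Finset.sum_sub_distrib,
        RA1_delta, ← Finset.mul_sum, ← Finset.mul_sum, hNw, hwE]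
      ring
    rw [h2, h3, hN] at h1
    rw [h1]
    simp only [hT]
    linear_combination (-(w a)) * hcs
  have hDw : ∀ a b, D a (w b) = ri * ((if a = b then (1 : R) else 0) - E a * E b - w a * w b) := by
    intro a b
    have h1 := hDrw a b
    rw [hDr, hN, hN] at h1
    simp only [hT] at h1
    have h2 : r * D a (w b) = (if a = b then (1 : R) else 0) - E a * E b - w a * w b := by
      linear_combination h1 - (w a * w b + E a * E b) * hcs
    calc D a (w b) = ri * (r * D a (w b)) - (r * ri - 1) * D a (w b) := by ring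
      _ = ri * (r * D a (w b)) := by rw [h.ri]; ring
      _ = _ := by rw [h2]
  -- derivatives of c and s
  have hcDc : ∀ a, c * D a c + s * D a s = 0 := by
    intro a
    apply RA1_two
    have h1 := congrArg (D a) hcs
    rw [map_add, Derivation.map_one_eq_zero, pow_two, pow_two, Derivation.leibniz,
      Derivation.leibniz] at h1
    simp only [smul_eq_mul] at h1
    rw [← h1]
    ring
  set th : Fin m → R := fun a => c * D a s - s * D a c with hth
  have hDs : ∀ a, D a s = c * th a := by
    intro a
    simp only [hth]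
    linear_combination (-(D a s)) * hcs + s * hcDc a
  have hDc : ∀ a, D a c = -s * th a := by
    intro a
    simp only [hth]
    linear_combination (-(D a c)) * hcs + c * hcDc a
  have hsym : ∀ a b, th a * T b = th b * T a := by
    intro a b
    have h1 := h.hyp.symm a b
    have h2 : ∀ a b, D a (N b) = -(th a * T b) - s * D a (w b) := by
      intro a b
      rw [hN, map_add, Derivation.leibniz, Derivation.leibniz, map_neg, hDs, hDc, hDE]
      simp only [smul_eq_mul, hT]
      ring
    rw [h2, h2, hDw, hDw] at h1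
    have h3 : (if a = b then (1 : R) else 0) = if b = a then 1 else 0 := by
      by_cases hab : a = b
      · rw [if_pos hab, if_pos hab.symm]
      · rw [if_neg hab, if_neg (Ne.symm hab)]
    rw [h3] at h1
    linear_combination -h1
  have hthT : ∀ a, th a = (∑ b, th b * T b) * T a := by
    intro a
    calc th a = th a * ∑ b, T b ^ 2 := by rw [hTT, mul_one]
      _ = ∑ b, (th a * T b) * T b := by
          rw [Finset.mul_sum]
          exact Finset.sum_congr rfl fun b _ => by ring
      _ = ∑ b, (th b * T a) * T b := Finset.sum_congr rfl fun b _ => by rw [hsym]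
      _ = (∑ b, th b * T b) * T a := by
          rw [Finset.sum_mul]
          exact Finset.sum_congr rfl fun b _ => by ring
  -- radial functions
  have hpT : ∀ f, pT D e c s w f = ∑ a, T a * D a f := RA1_pT D e c s w
  have hrad : ∀ f g, (∀ a, D a f = g * T a) → pT D e c s w f = g ∧ Rad D e c s w f := by
    intro f g hf
    have h1 : pT D e c s w f = g := by
      rw [hpT]
      calc ∑ a, T a * D a f = ∑ a, g * T a ^ 2 :=
            Finset.sum_congr rfl fun a _ => by rw [hf]; ring
        _ = g := by rw [← Finset.mul_sum, hTT, mul_one]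
    refine ⟨h1, fun a => ?_⟩
    rw [h1, hf]
  obtain ⟨r1, r2⟩ := hrad r c hDr
  obtain ⟨z1, z2⟩ := hrad z s hDz
  obtain ⟨c1, c2⟩ := hrad c (-s * ∑ b, th b * T b) (fun a => by rw [hDc, hthT a]; ring)
  obtain ⟨s1, s2⟩ := hrad s (c * ∑ b, th b * T b) (fun a => by rw [hDs, hthT a]; ring)
  refine ⟨r1, z1, r2, z2, c2, s2, fun a b => ?_, hTT, hTN⟩
  rw [hDw, map_mul]

end Pool.Agent.Work.MP_157c12_gt.Rot

end

section

/-!
# Item RA2: radial functions are closed under the derivative
-/

open Finset

namespace Pool.Agent.Work.MP_157c12_gt.Rot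

section

variable {R : Type} [CommRing R] [Algebra ℝ R] {m : ℕ}

lemma RA2_pT (D : Fin m → Derivation ℝ R R) (e : Fin m → ℝ) (c s : R) (w : Fin m → R) (f : R) :
    pT D e c s w f = ∑ a, (c * w a + s * algebraMap ℝ R (e a)) * D a f := by
  have h : ∀ (S : Finset (Fin m)) (g : Fin m → Derivation ℝ R R),
      (∑ a ∈ S, g a) f = ∑ a ∈ S, g a f := by
    intro S g
    classical
    induction S using Finset.induction_on with
    | empty => simp
    | insert a S ha ih => rw [Finset.sum_insert ha, Finset.sum_insert ha, Derivation.add_apply, ih]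
  rw [pT, h]
  rfl

lemma RA2_inv (d : Derivation ℝ R R) {r ri : R} (h : r * ri = 1) : d ri = -ri ^ 2 * d r := by
  have h1 : d (r * ri) = 0 := by rw [h]; simp
  rw [Derivation.leibniz] at h1
  simp only [smul_eq_mul] at h1
  linear_combination ri * h1 - d ri * h

lemma RA2_two {x : R} (h : 2 * x = 0) : x = 0 := by
  have h2 : algebraMap ℝ R (1 / 2) * 2 = 1 := by
    have : (2 : R) = algebraMap ℝ R 2 := (map_ofNat (algebraMap ℝ R) 2).symm
    rw [this, ← map_mul]
    norm_num
  linear_combination (algebraMap ℝ R (1 / 2)) * h - x * h2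

/-- the derivatives of `T` and `N` on a hypersurface of revolution -/
lemma RA2_TN (D : Fin m → Derivation ℝ R R)
    (x N : Fin m → R) (o e : Fin m → ℝ) (r ri c s : R) (w : Fin m → R)
    (h : RotH D x N o e r ri c s w)
    (hc : Rad D e c s w c) (hs : Rad D e c s w s)
    (hw : ∀ a b, D a (w b) = ri * ((if a = b then 1 else 0) - algebraMap ℝ R (e a * e b) - w a * w b)) :
    ∃ K : R,
      (∀ a b, D a (c * w b + s * algebraMap ℝ R (e b)) =
        K * (c * w a + s * algebraMap ℝ R (e a)) * N b + c * D a (w b)) ∧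
      (∀ a b, D a (N b) = -K * (c * w a + s * algebraMap ℝ R (e a)) *
        (c * w b + s * algebraMap ℝ R (e b)) - s * D a (w b)) ∧
      (∀ a b, D a (w b) = D b (w a)) ∧
      (∀ a, ∑ b, (c * w b + s * algebraMap ℝ R (e b)) * D a (w b) = 0) ∧
      ∑ a, (c * w a + s * algebraMap ℝ R (e a)) ^ 2 = 1 ∧
      ∑ b, algebraMap ℝ R (e b) * (c * w b + s * algebraMap ℝ R (e b)) = s ∧
      ∑ b, w b * (c * w b + s * algebraMap ℝ R (e b)) = c := by
  have hcs : c * pT D e c s w c + s * pT D e c s w s = 0 := by
    apply RA2_two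
    have h1 : pT D e c s w (c ^ 2 + s ^ 2) = 0 := by rw [h.cs]; simp
    rw [map_add, Derivation.leibniz_pow, Derivation.leibniz_pow] at h1
    simp only [smul_eq_mul, nsmul_eq_mul] at h1
    linear_combination h1
  have hK1 : pT D e c s w c = -s * (c * pT D e c s w s - s * pT D e c s w c) := by
    linear_combination c * hcs - (pT D e c s w c) * h.cs
  have hK2 : pT D e c s w s = c * (c * pT D e c s w s - s * pT D e c s w c) := by
    linear_combination s * hcs - (pT D e c s w s) * h.cs
  generalize hKdef : c * pT D e c s w s - s * pT D e c s w c = K at hK1 hK2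
  have he1 : ∑ a, algebraMap ℝ R (e a) ^ 2 = 1 := by
    rw [← map_one (algebraMap ℝ R), ← h.e1, map_sum]
    exact Finset.sum_congr rfl fun a _ => (map_pow _ _ _).symm
  have heT : ∑ b, algebraMap ℝ R (e b) * (c * w b + s * algebraMap ℝ R (e b)) = s := by
    have : ∑ b, algebraMap ℝ R (e b) * (c * w b + s * algebraMap ℝ R (e b)) =
        c * ∑ b, w b * algebraMap ℝ R (e b) + s * ∑ b, algebraMap ℝ R (e b) ^ 2 := by
      rw [Finset.mul_sum, Finset.mul_sum, ← Finset.sum_add_distrib]
      exact Finset.sum_congr rfl fun b _ => by ring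
    rw [this, h.we, he1]; ring
  have hwT : ∑ b, w b * (c * w b + s * algebraMap ℝ R (e b)) = c := by
    have : ∑ b, w b * (c * w b + s * algebraMap ℝ R (e b)) =
        c * ∑ b, w b ^ 2 + s * ∑ b, w b * algebraMap ℝ R (e b) := by
      rw [Finset.mul_sum, Finset.mul_sum, ← Finset.sum_add_distrib]
      exact Finset.sum_congr rfl fun b _ => by ring
    rw [this, h.we, h.w1]; ring
  have hda : ∀ (a : Fin m) (t : ℝ), D a (algebraMap ℝ R t) = 0 := fun a t => by simp
  have hDc : ∀ a, D a c = -s * K * (c * w a + s * algebraMap ℝ R (e a)) := by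
    intro a
    rw [hc a, hK1]
  have hDs : ∀ a, D a s = c * K * (c * w a + s * algebraMap ℝ R (e a)) := by
    intro a
    rw [hs a, hK2]
  refine ⟨K, ?_, ?_, ?_, ?_, ?_, heT, hwT⟩
  · intro a b
    rw [map_add, Derivation.leibniz, Derivation.leibniz, hda, hDc, hDs, h.N b]
    simp only [smul_eq_mul]
    ring
  · intro a b
    rw [h.N b, map_add, Derivation.leibniz, Derivation.leibniz, hda, hDc, map_neg, hDs]
    simp only [smul_eq_mul]
    ring
  · intro a b
    rw [hw a b, hw b a]
    by_cases hab : a = b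
    · subst hab; rfl
    · rw [if_neg hab, if_neg (Ne.symm hab), mul_comm (e a)]
      ring
  · intro a
    have h1 : ∀ b, (c * w b + s * algebraMap ℝ R (e b)) * D a (w b) =
        ri * ((if a = b then (c * w b + s * algebraMap ℝ R (e b)) else 0) -
          algebraMap ℝ R (e a) * (algebraMap ℝ R (e b) * (c * w b + s * algebraMap ℝ R (e b))) -
          w a * (w b * (c * w b + s * algebraMap ℝ R (e b)))) := by
      intro b
      rw [hw a b, map_mul]
      split_ifs <;> ring
    simp only [h1]
    rw [← Finset.mul_sum, Finset.sum_sub_distrib, Finset.sum_sub_distrib, ← Finset.mul_sum,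
      ← Finset.mul_sum, heT, hwT, Finset.sum_ite_eq]
    simp only [Finset.mem_univ, if_true]
    ring
  · have h1 : ∀ a, (c * w a + s * algebraMap ℝ R (e a)) ^ 2 =
        c * (w a * (c * w a + s * algebraMap ℝ R (e a))) +
          s * (algebraMap ℝ R (e a) * (c * w a + s * algebraMap ℝ R (e a))) := fun a => by ring
    simp only [h1]
    rw [Finset.sum_add_distrib, ← Finset.mul_sum, ← Finset.mul_sum, heT, hwT]
    linear_combination h.cs

end

theorem pr_RA2 (hRA1 : RA1) : RA2 := by
  intro R _ _ m D x N o e r ri c s w h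
  obtain ⟨-, -, hr, -, hc, hs, hw, -, -⟩ := hRA1 R m D x N o e r ri c s w h
  obtain ⟨K, hT, hN, hsym, hTw, hT2, -, -⟩ := RA2_TN D x N o e r ri c s w h hc hs hw
  refine ⟨?_, ?_, ?_, ?_⟩
  · intro u hu
    have key : ∀ a b, D a (pT D e c s w u) * (c * w b + s * algebraMap ℝ R (e b)) =
        D b (pT D e c s w u) * (c * w a + s * algebraMap ℝ R (e a)) := by
      intro a b
      have hcm := h.hyp.comm a b u
      have hS : ∀ b, ∑ c', D b (N c') * (c * w c' + s * algebraMap ℝ R (e c')) =
          -K * (c * w b + s * algebraMap ℝ R (e b)) := by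
        intro b
        have h1 : ∀ c', D b (N c') * (c * w c' + s * algebraMap ℝ R (e c')) =
            (-K * (c * w b + s * algebraMap ℝ R (e b))) *
              (c * w c' + s * algebraMap ℝ R (e c')) ^ 2 -
            s * ((c * w c' + s * algebraMap ℝ R (e c')) * D b (w c')) := by
          intro c'
          rw [hN b c']
          ring
        simp only [h1]
        rw [Finset.sum_sub_distrib, ← Finset.mul_sum, ← Finset.mul_sum, hT2, hTw]
        ring
      have hR : ∑ c', (N a * D b (N c') - N b * D a (N c')) * D c' u =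
          pT D e c s w u * (N a * ∑ c', D b (N c') * (c * w c' + s * algebraMap ℝ R (e c')) -
            N b * ∑ c', D a (N c') * (c * w c' + s * algebraMap ℝ R (e c'))) := by
        rw [Finset.mul_sum, Finset.mul_sum, ← Finset.sum_sub_distrib, Finset.mul_sum]
        refine Finset.sum_congr rfl fun c' _ => ?_
        rw [hu c']
        ring
      rw [hR, hS, hS, hu a, hu b, Derivation.leibniz, Derivation.leibniz, hT a b, hT b a] at hcm
      simp only [smul_eq_mul] at hcm
      rw [hsym a b] at hcm
      linear_combination hcm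
    intro a
    have h1 : D a (pT D e c s w u) * ∑ b, (c * w b + s * algebraMap ℝ R (e b)) ^ 2 =
        pT D e c s w (pT D e c s w u) * (c * w a + s * algebraMap ℝ R (e a)) := by
      rw [RA2_pT D e c s w (pT D e c s w u), Finset.mul_sum, Finset.sum_mul]
      refine Finset.sum_congr rfl fun b _ => ?_
      linear_combination (c * w b + s * algebraMap ℝ R (e b)) * key a b
    rw [hT2, mul_one] at h1
    exact h1
  · intro u v hu hv
    refine ⟨fun a => ?_, fun a => ?_⟩
    · rw [map_add, map_add, hu a, hv a]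
      ring
    · rw [Derivation.leibniz, Derivation.leibniz, hu a, hv a]
      simp only [smul_eq_mul]
      ring
  · intro t a
    simp
  · intro a
    rw [RA2_inv (D a) h.ri, RA2_inv (pT D e c s w) h.ri, hr a]
    ring

end Pool.Agent.Work.MP_157c12_gt.Rot

end

section

/-!
# Item RA3: the Laplace operator on radial functions
-/

open Finset

namespace Pool.Agent.Work.MP_157c12_gt.Rot

theorem pr_RA3 (hRA1 : RA1) (hRA2 : RA2) : RA3 := by
  intro R _ _ n D x N o e r ri c s w h u hu
  obtain ⟨hTr, -, hr, -, hc, hs, hw, -, hTN⟩ := hRA1 R (n + 1) D x N o e r ri c s w h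
  obtain ⟨K, hT, -, hsym, hTw, hT2, heT, hwT⟩ := RA2_TN D x N o e r ri c s w h hc hs hw
  have hU := (hRA2 R (n + 1) D x N o e r ri c s w h).1 u hu
  have he1 : ∑ a, algebraMap ℝ R (e a) * algebraMap ℝ R (e a) = 1 := by
    rw [← map_one (algebraMap ℝ R), ← h.e1, map_sum]
    exact Finset.sum_congr rfl fun a _ => by rw [← map_mul, sq]
  have hw1 : ∑ a, w a * w a = 1 := by
    rw [← h.w1]
    exact Finset.sum_congr rfl fun a _ => (sq _).symm
  -- the trace of the projector
  have htr : ∑ a, D a (w a) = (n - 1) * ri := by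
    have h1 : ∀ a, D a (w a) = ri * (1 - algebraMap ℝ R (e a) * algebraMap ℝ R (e a) -
        w a * w a) := by
      intro a
      rw [hw a a, if_pos rfl, map_mul]
    simp only [h1]
    rw [← Finset.mul_sum, Finset.sum_sub_distrib, Finset.sum_sub_distrib, he1, hw1]
    simp only [Finset.sum_const, Finset.card_univ, Fintype.card_fin, nsmul_eq_mul, mul_one]
    push_cast
    ring
  have htrT : ∑ a, D a (c * w a + s * algebraMap ℝ R (e a)) = (n - 1) * (c * ri) := by
    simp only [hT]
    rw [Finset.sum_add_distrib, ← Finset.mul_sum, htr]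
    have h1 : ∀ a, K * (c * w a + s * algebraMap ℝ R (e a)) * N a =
        K * ((c * w a + s * algebraMap ℝ R (e a)) * N a) := fun a => by ring
    simp only [h1]
    rw [← Finset.mul_sum, hTN]
    ring
  have hlap : lapD D u = pT D e c s w (pT D e c s w u) +
      (n - 1) * (c * ri * pT D e c s w u) := by
    have h1 : ∀ a, D a (D a u) = pT D e c s w (pT D e c s w u) *
        (c * w a + s * algebraMap ℝ R (e a)) ^ 2 +
          pT D e c s w u * D a (c * w a + s * algebraMap ℝ R (e a)) := by
      intro a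
      rw [hu a, Derivation.leibniz, hU a]
      simp only [smul_eq_mul]
      ring
    rw [lapD]
    simp only [h1]
    rw [Finset.sum_add_distrib, ← Finset.mul_sum, ← Finset.mul_sum, hT2, htrT]
    ring
  refine ⟨hlap, fun b => ?_⟩
  -- the Laplace operator of `w b`
  have hDri : ∀ a, D a ri = -ri ^ 2 * (c * (c * w a + s * algebraMap ℝ R (e a))) := by
    intro a
    rw [RA2_inv (D a) h.ri, hr a, hTr]
  have hwD : ∑ a, w a * D a (w b) = 0 := by
    have h1 : ∀ a, w a * D a (w b) = ri * ((if a = b then w a else 0) -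
        algebraMap ℝ R (e b) * (w a * algebraMap ℝ R (e a)) - w b * (w a * w a)) := by
      intro a
      rw [hw a b, map_mul]
      split_ifs <;> ring
    simp only [h1]
    rw [← Finset.mul_sum, Finset.sum_sub_distrib, Finset.sum_sub_distrib, ← Finset.mul_sum,
      ← Finset.mul_sum, h.we, hw1, Finset.sum_ite_eq']
    simp
  have hTD : ∑ a, (c * w a + s * algebraMap ℝ R (e a)) * D a (w b) = 0 := by
    rw [← hTw b]
    exact Finset.sum_congr rfl fun a _ => by rw [hsym a b]
  have hlw : ∑ a, D a (D a (w b)) = -((n - 1) * ri ^ 2) * w b := by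
    have h1 : ∀ a, D a (D a (w b)) = -(ri * c) * ((c * w a + s * algebraMap ℝ R (e a)) *
        D a (w b)) - ri * (w b * D a (w a) + w a * D a (w b)) := by
      intro a
      have h2 : D a (D a (w b)) = D a (ri * ((if a = b then 1 else 0) -
        algebraMap ℝ R (e a * e b) - w a * w b)) := congrArg (D a) (hw a b)
      have h3 : D a (if a = b then (1 : R) else 0) = 0 := by
        split_ifs <;> simp
      rw [h2, Derivation.leibniz, map_sub, map_sub, h3, Derivation.leibniz, hDri a, hw a b]
      simp only [smul_eq_mul, Derivation.map_algebraMap]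
      ring_nf
    simp only [h1]
    rw [Finset.sum_sub_distrib, ← Finset.mul_sum, ← Finset.mul_sum, hTD, Finset.sum_add_distrib,
      hwD, ← Finset.mul_sum, htr]
    ring
  have h1 : ∀ a, D a (D a (u * w b)) = D a (D a u) * w b +
      2 * pT D e c s w u * ((c * w a + s * algebraMap ℝ R (e a)) * D a (w b)) +
        u * D a (D a (w b)) := by
    intro a
    rw [Derivation.leibniz, map_add]
    simp only [smul_eq_mul]
    rw [Derivation.leibniz, Derivation.leibniz]
    simp only [smul_eq_mul]
    rw [hu a]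
    ring
  have h2 : lapD D (u * w b) = lapD D u * w b + u * ∑ a, D a (D a (w b)) := by
    rw [lapD, lapD]
    simp only [h1]
    rw [Finset.sum_add_distrib, Finset.sum_add_distrib, ← Finset.mul_sum, ← Finset.mul_sum,
      hTD, ← Finset.sum_mul]
    ring
  rw [h2, hlap, hlw]
  ring

end Pool.Agent.Work.MP_157c12_gt.Rot

end

section

/-! Item RT: the tower of the position vector. -/

open TopologicalSpace Finset
open scoped Manifold ContDiff

namespace Pool.Agent.Work.MP_157c12_gt.Rot

open Pool.Agent.Work.MP_157c12_gt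

theorem RT_lap_add {R : Type} [CommRing R] [Algebra ℝ R] {m : ℕ}
    (D : Fin m → Derivation ℝ R R) (u v : R) : lapD D (u + v) = lapD D u + lapD D v := by
  unfold lapD
  rw [← Finset.sum_add_distrib]
  exact Finset.sum_congr rfl fun a _ => by rw [map_add, map_add]

theorem RT_lap_const {R : Type} [CommRing R] [Algebra ℝ R] {m : ℕ}
    (D : Fin m → Derivation ℝ R R) (u : R) (t : ℝ) :
    lapD D (u * algebraMap ℝ R t) = lapD D u * algebraMap ℝ R t := by
  unfold lapD
  rw [Finset.sum_mul]
  refine Finset.sum_congr rfl fun a _ => ?_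
  have h : ∀ v : R, D a (v * algebraMap ℝ R t) = D a v * algebraMap ℝ R t := by
    intro v
    rw [Derivation.leibniz, Derivation.map_algebraMap, smul_zero, zero_add, smul_eq_mul, mul_comm]
  rw [h, h]

theorem pr_RT (hRA1 : RA1) (hRA2 : RA2) (hRA3 : RA3) : RT := by
  intro R _ _ n D x N o e r ri c s w h
  obtain ⟨a1, _, a3, a4, a5, _, _, _, _⟩ := hRA1 R (n + 1) D x N o e r ri c s w h
  obtain ⟨b1, b2, b3, b4⟩ := hRA2 R (n + 1) D x N o e r ri c s w h
  have c3 := hRA3 R n D x N o e r ri c s w h
  set P := pT D e c s w with hP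
  have hn : Rad D e c s w ((n : R) - 1) := by
    have := b3 ((n : ℝ) - 1)
    rwa [map_sub, map_natCast, map_one] at this
  have hm1 : Rad D e c s w (-1 : R) := by
    have := b3 (-1)
    rwa [map_neg, map_one] at this
  let F : ℕ → R := fun j => Nat.rec r
    (fun _ f => P (P f) + ((n : R) - 1) * (c * ri * P f) - ((n : R) - 1) * (ri ^ 2 * f)) j
  let G : ℕ → R := fun j => Nat.rec (∑ b, x b * algebraMap ℝ R (e b))
    (fun _ f => P (P f) + ((n : R) - 1) * (c * ri * P f)) j
  have F0 : F 0 = r := rfl
  have G0 : G 0 = ∑ b, x b * algebraMap ℝ R (e b) := rfl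
  have F1 : ∀ j, F (j + 1) = P (P (F j)) + ((n : R) - 1) * (c * ri * P (F j)) -
      ((n : R) - 1) * (ri ^ 2 * F j) := fun _ => rfl
  have G1 : ∀ j, G (j + 1) = P (P (G j)) + ((n : R) - 1) * (c * ri * P (G j)) := fun _ => rfl
  clear_value F G
  have hmul : ∀ u v, Rad D e c s w u → Rad D e c s w v → Rad D e c s w (u * v) :=
    fun u v hu hv => (b2 u v hu hv).2
  have hadd : ∀ u v, Rad D e c s w u → Rad D e c s w v → Rad D e c s w (u + v) :=
    fun u v hu hv => (b2 u v hu hv).1
  have hG : ∀ u, Rad D e c s w u →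
      Rad D e c s w (P (P u) + ((n : R) - 1) * (c * ri * P u)) := fun u hu =>
    hadd _ _ (b1 _ (b1 _ hu)) (hmul _ _ hn (hmul _ _ (hmul _ _ a5 b4) (b1 _ hu)))
  have hFr : ∀ j, Rad D e c s w (F j) := by
    intro j
    induction j with
    | zero => rw [F0]; exact a3
    | succ j ih =>
      rw [F1]
      have e1 : P (P (F j)) + ((n : R) - 1) * (c * ri * P (F j)) - ((n : R) - 1) * (ri ^ 2 * F j) =
        P (P (F j)) + ((n : R) - 1) * (c * ri * P (F j)) +
          (-1) * (((n : R) - 1) * (ri * ri * F j)) := by ring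
      rw [e1]
      exact hadd _ _ (hG _ ih) (hmul _ _ hm1 (hmul _ _ hn (hmul _ _ (hmul _ _ b4 b4) ih)))
  have hGr : ∀ j, Rad D e c s w (G j) := by
    intro j
    induction j with
    | zero => rw [G0]; exact a4
    | succ j ih => rw [G1]; exact hG _ ih
  have hE : ∀ u, ((2 * r) • P) (((2 * r) • P) u) = 4 * r ^ 2 * P (P u) + 4 * r * c * P u := by
    intro u
    rw [Derivation.smul_apply, Derivation.smul_apply, smul_eq_mul, smul_eq_mul,
      Derivation.leibniz, Derivation.leibniz]
    have h2 : P (2 : R) = 0 := by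
      have := Derivation.map_natCast P 2
      simpa using this
    rw [h2, a1]
    simp only [smul_eq_mul]
    ring
  have hE1 : ∀ u, ((2 * r) • P) u = 2 * r * P u := fun u => rfl
  have hri := h.ri
  refine ⟨F, G, F0, G0, fun j => ⟨hFr j, hGr j⟩, ?_, ?_, ?_⟩
  · intro j
    rw [hE, hE1, F1]
    linear_combination (4 * ((n : R) - 1) * r * c * P (F j) -
      4 * ((n : R) - 1) * F j * (r * ri + 1)) * hri
  · intro j
    rw [hE, hE1, G1]
    linear_combination (4 * ((n : R) - 1) * r * c * P (G j)) * hri
  · intro a j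
    induction j with
    | zero =>
      rw [Function.iterate_zero, id, F0, G0]
      linear_combination h.xw a
    | succ j ih =>
      rw [Function.iterate_succ_apply', ih, RT_lap_add, RT_lap_const, (c3 (F j) (hFr j)).2 a,
        (c3 (G j) (hGr j)).1, F1, G1]

end Pool.Agent.Work.MP_157c12_gt.Rot

end

section

/-!
# Item GC: the centre lies on the axis
-/

open Finset

namespace Pool.Agent.Work.MP_157c12_gt.Rot

section

variable {R : Type} [CommRing R] [Algebra ℝ R] {m : ℕ}

lemma GC_lap_const (D : Fin m → Derivation ℝ R R) (f : R) (t : ℝ) (j : ℕ) :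
    (lapD D)^[j + 1] (f - algebraMap ℝ R t) = (lapD D)^[j + 1] f := by
  rw [Function.iterate_succ_apply, Function.iterate_succ_apply]
  congr 1
  rw [lapD, lapD]
  exact Finset.sum_congr rfl fun a _ => by rw [map_sub, Derivation.map_algebraMap, sub_zero]

end

theorem pr_GC (hRA1 : RA1) : GC := by
  intro R _ _ _ n k al D x N o e r ri c s w F G hn h hFG hFGx hal hx
  obtain ⟨-, -, hr, -, hc, hs, hw, -, -⟩ := hRA1 R (n + 1) D x N o e r ri c s w h
  have he1 : ∑ a, algebraMap ℝ R (e a) * algebraMap ℝ R (e a) = 1 := by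
    rw [← map_one (algebraMap ℝ R), ← h.e1, map_sum]
    exact Finset.sum_congr rfl fun a _ => by rw [← map_mul, sq]
  have hw1 : ∑ a, w a * w a = 1 := by
    rw [← h.w1]
    exact Finset.sum_congr rfl fun a _ => (sq _).symm
  have hoe : ∑ a, algebraMap ℝ R (o a) * algebraMap ℝ R (e a) = 0 := by
    rw [← map_zero (algebraMap ℝ R), ← h.oe, map_sum]
    exact Finset.sum_congr rfl fun a _ => by rw [← map_mul]
  set A : R := ∑ l ∈ range (k + 1), algebraMap ℝ R (al l) * F (k - l) with hA
  set B : R := ∑ l ∈ range (k + 1), algebraMap ℝ R (al l) * G (k - l) with hB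
  have key : ∀ a, A * w a + B * algebraMap ℝ R (e a) +
      algebraMap ℝ R (al k) * algebraMap ℝ R (o a) = 0 := by
    intro a
    rw [← hx a, hA, hB, Finset.sum_mul, Finset.sum_mul, ← Finset.sum_add_distrib]
    rw [Finset.sum_range_succ _ k, Finset.sum_range_succ _ k]
    have h0 := hFGx a 0
    simp only [Function.iterate_zero, id] at h0
    simp only [Nat.sub_self, Function.iterate_zero, id]
    have h1 : ∀ l ∈ range k, algebraMap ℝ R (al l) * F (k - l) * w a +
        algebraMap ℝ R (al l) * G (k - l) * algebraMap ℝ R (e a) =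
          algebraMap ℝ R (al l) * (lapD D)^[k - l] (x a) := by
      intro l hl
      have hl' := Finset.mem_range.mp hl
      obtain ⟨j, hj⟩ : ∃ j, k - l = j + 1 := ⟨k - l - 1, by omega⟩
      rw [hj, ← GC_lap_const D (x a) (o a) j, hFGx a (j + 1)]
      ring
    rw [Finset.sum_congr rfl h1]
    linear_combination -(algebraMap ℝ R (al k)) * h0
  have hB0 : B = 0 := by
    have h1 : ∑ a, (A * w a + B * algebraMap ℝ R (e a) +
      algebraMap ℝ R (al k) * algebraMap ℝ R (o a)) * algebraMap ℝ R (e a) = 0 := by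
      refine Finset.sum_eq_zero fun a _ => ?_
      rw [key a, zero_mul]
    have h2 : ∀ a, (A * w a + B * algebraMap ℝ R (e a) +
      algebraMap ℝ R (al k) * algebraMap ℝ R (o a)) * algebraMap ℝ R (e a) =
        A * (w a * algebraMap ℝ R (e a)) + B * (algebraMap ℝ R (e a) * algebraMap ℝ R (e a)) +
          algebraMap ℝ R (al k) * (algebraMap ℝ R (o a) * algebraMap ℝ R (e a)) :=
      fun a => by ring
    simp only [h2] at h1
    rw [Finset.sum_add_distrib, Finset.sum_add_distrib, ← Finset.mul_sum, ← Finset.mul_sum,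
      ← Finset.mul_sum, h.we, he1, hoe] at h1
    linear_combination h1
  have key2 : ∀ a, A * w a = -(algebraMap ℝ R (al k) * algebraMap ℝ R (o a)) := by
    intro a
    have := key a
    rw [hB0] at this
    linear_combination this
  have key3 : ∀ a b, D b A * w a + A * D b (w a) = 0 := by
    intro a b
    have h1 : D b (A * w a) = 0 := by
      rw [key2 a, ← map_mul, map_neg, Derivation.map_algebraMap, neg_zero]
    rw [Derivation.leibniz] at h1
    simp only [smul_eq_mul] at h1
    linear_combination h1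
  -- the trace
  have htr : ∑ a, D a (w a) = (n - 1) * ri := by
    have h1 : ∀ a, D a (w a) = ri * (1 - algebraMap ℝ R (e a) * algebraMap ℝ R (e a) -
        w a * w a) := by
      intro a
      rw [hw a a, if_pos rfl, map_mul]
    simp only [h1]
    rw [← Finset.mul_sum, Finset.sum_sub_distrib, Finset.sum_sub_distrib, he1, hw1]
    simp only [Finset.sum_const, Finset.card_univ, Fintype.card_fin, nsmul_eq_mul, mul_one]
    push_cast
    ring
  have hA0 : A = 0 := by
    -- `A` is a multiple of the radial derivative along `w`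
    have hww : ∀ b, ∑ a, w a * D b (w a) = 0 := by
      intro b
      have h1 : ∀ a, w a * D b (w a) = ri * ((if b = a then w a else 0) -
          algebraMap ℝ R (e b) * (w a * algebraMap ℝ R (e a)) - w b * (w a * w a)) := by
        intro a
        rw [hw b a, map_mul]
        split_ifs <;> ring
      simp only [h1]
      rw [← Finset.mul_sum, Finset.sum_sub_distrib, Finset.sum_sub_distrib, ← Finset.mul_sum,
        ← Finset.mul_sum, h.we, hw1, Finset.sum_ite_eq]
      simp
    have hDA : ∀ b, D b A = 0 := by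
      intro b
      have h1 : ∑ a, w a * (D b A * w a + A * D b (w a)) = 0 := by
        refine Finset.sum_eq_zero fun a _ => ?_
        rw [key3 a b, mul_zero]
      have h2 : ∀ a, w a * (D b A * w a + A * D b (w a)) =
          D b A * (w a * w a) + A * (w a * D b (w a)) := fun a => by ring
      simp only [h2] at h1
      rw [Finset.sum_add_distrib, ← Finset.mul_sum, ← Finset.mul_sum, hww, hw1] at h1
      linear_combination h1
    have h3 : A * ∑ a, D a (w a) = 0 := by
      rw [Finset.mul_sum]
      refine Finset.sum_eq_zero fun a _ => ?_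
      have := key3 a a
      rw [hDA a] at this
      linear_combination this
    rw [htr] at h3
    have hn1 : algebraMap ℝ R (1 / ((n : ℝ) - 1)) * ((n : R) - 1) = 1 := by
      have h4 : ((n : R) - 1) = algebraMap ℝ R ((n : ℝ) - 1) := by
        rw [map_sub, map_natCast, map_one]
      have h5 : ((n : ℝ) - 1) ≠ 0 := by
        have : (2 : ℝ) ≤ n := by exact_mod_cast hn
        linarith
      rw [h4, ← map_mul, one_div, inv_mul_cancel₀ h5, map_one]
    linear_combination (r * algebraMap ℝ R (1 / ((n : ℝ) - 1))) * h3 - A * hn1 -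
      A * (algebraMap ℝ R (1 / ((n : ℝ) - 1)) * ((n : R) - 1)) * (h.ri)
  refine ⟨fun a => ?_, hA0, hB0⟩
  have h1 := key2 a
  rw [hA0, zero_mul, ← map_mul] at h1
  have h2 : algebraMap ℝ R (al k * o a) = algebraMap ℝ R 0 := by
    rw [map_zero]
    linear_combination h1
  have h3 := (algebraMap ℝ R).injective h2
  rcases mul_eq_zero.mp h3 with h4 | h4
  · exact absurd h4 hal
  · exact h4

end Pool.Agent.Work.MP_157c12_gt.Rot

end

section

/-!
# Rotational hypersurfaces of finite type: the local theorem, algebraic form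
-/

open Finset

namespace Pool.Agent.Work.MP_157c12_gt.Rot

open Pool.Agent.Work.MP_157c12_gt

lemma GA_sum {R : Type} [CommRing R] [Algebra ℝ R] {m : ℕ} (x w : Fin m → R) (e : Fin m → ℝ)
    (r z : R) (e1 : ∑ a, e a ^ 2 = 1) (w1 : ∑ a, w a ^ 2 = 1)
    (we : ∑ a, w a * algebraMap ℝ R (e a) = 0)
    (hx : ∀ a, x a = z * algebraMap ℝ R (e a) + r * w a) :
    ∑ b, x b ^ 2 = r ^ 2 + z ^ 2 := by
  have h1 : ∑ b, algebraMap ℝ R (e b) ^ 2 = 1 := by
    have := congrArg (algebraMap ℝ R) e1
    rw [map_sum, map_one] at this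
    rw [← this]
    exact sum_congr rfl fun b _ => (map_pow _ _ _).symm
  calc ∑ b, x b ^ 2 = ∑ b, (z ^ 2 * algebraMap ℝ R (e b) ^ 2 +
        2 * z * r * (w b * algebraMap ℝ R (e b)) + r ^ 2 * w b ^ 2) := by
        refine sum_congr rfl fun b _ => ?_
        rw [hx b]
        ring
    _ = z ^ 2 * ∑ b, algebraMap ℝ R (e b) ^ 2 +
        2 * z * r * ∑ b, (w b * algebraMap ℝ R (e b)) + r ^ 2 * ∑ b, w b ^ 2 := by
        rw [sum_add_distrib, sum_add_distrib, mul_sum, mul_sum, mul_sum]
    _ = r ^ 2 + z ^ 2 := by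
        rw [h1, we, w1]
        ring

theorem pr_GA (hRA1 : RA1) (hRA2 : RA2) (hRT : RT) (hGC : GC) (hJT : JT) : GA := by
  intro R _ _ ev n k al D x N o e r ri c s w hn hk h0 hak hH hft
  have hnt : Nontrivial R := ⟨⟨0, 1, fun h => by
    have h2 := congrArg ev h
    rw [map_zero, map_one] at h2
    exact zero_ne_one h2⟩⟩
  obtain ⟨F, G, hF0, hG0, hRad, hF, hG, htw⟩ := hRT R n D x N o e r ri c s w hH
  obtain ⟨ho, hrF, hrG⟩ := hGC R n k al D x N o e r ri c s w F G hn hH hRad htw hak hft
  refine ⟨ho, ?_⟩
  obtain ⟨pr, pz, Rr, Rz, -⟩ := hRA1 R (n + 1) D x N o e r ri c s w hH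
  obtain ⟨-, hcl, -, -⟩ := hRA2 R (n + 1) D x N o e r ri c s w hH
  have D'r : ((2 * r) • pT D e c s w) r = 2 * r * c := by
    show (2 * r) * pT D e c s w r = _
    rw [pr]
  have D'z : ((2 * r) • pT D e c s w) (∑ b, x b * algebraMap ℝ R (e b)) = 2 * r * s := by
    show (2 * r) * pT D e c s w (∑ b, x b * algebraMap ℝ R (e b)) = _
    rw [pz]
  have evr : ev r ≠ 0 := by
    intro h
    have h2 := congrArg ev hH.ri
    rw [map_mul, h, zero_mul, map_one] at h2
    exact zero_ne_one h2
  have key := hJT R ((2 * r) • pT D e c s w) ev n k al r (∑ b, x b * algebraMap ℝ R (e b)) c s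
    F G hn hk h0 hak hH.cs D'r D'z evr hF0 hG0 hF hG hrF hrG
  have hxw : ∀ a, x a = (∑ b, x b * algebraMap ℝ R (e b)) * algebraMap ℝ R (e a) + r * w a := by
    intro a
    have h6 := hH.xw a
    rw [ho a, map_zero, zero_add] at h6
    exact h6
  have hsum : ∑ b, x b ^ 2 = r ^ 2 + (∑ b, x b * algebraMap ℝ R (e b)) ^ 2 :=
    GA_sum x w e r _ hH.e1 hH.w1 hH.we hxw
  intro a
  rw [hsum]
  clear hsum hxw
  generalize (∑ b, x b * algebraMap ℝ R (e b)) = z at *
  have key2 : ev (pT D e c s w (r ^ 2 + z ^ 2)) = 0 := by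
    have h3 : ev ((2 * r) * pT D e c s w (r ^ 2 + z ^ 2)) = 0 := key
    rw [map_mul, map_mul] at h3
    have h4 : ev (2 : R) = 2 := by
      have : (2 : R) = algebraMap ℝ R 2 := by rw [map_ofNat]
      rw [this]
      exact ev.commutes 2
    rw [h4] at h3
    rcases mul_eq_zero.1 h3 with h5 | h5
    · exact absurd h5 (mul_ne_zero two_ne_zero evr)
    · exact h5
  have hR : Rad D e c s w (r ^ 2 + z ^ 2) := by
    rw [pow_two, pow_two]
    exact (hcl _ _ (hcl _ _ Rr Rr).2 (hcl _ _ Rz Rz).2).1
  rw [hR a, map_mul, key2, zero_mul]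

end Pool.Agent.Work.MP_157c12_gt.Rot

end
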