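import Pool.Agent.Work.MP_157c12_gt.Rot.GStmts
import Pool.Agent.Work.MP_157c12_gt.Bd.B06

section

/-!
# Item MP: charts give patches
-/

open PowerSeries Finset TopologicalSpace
open scoped Manifold ContDiff

namespace Pool.Agent.Work.MP_157c12_gt.Rot

open Pool.Agent.Work.MP_157c12_gt

/-- charts give patches -/
theorem pr_MP : MP := by
  intro n m M _ _ _ x hx φ hφ
  have h := gm1 gm2 n m M x hx.1 hx.2 φ hφ
  exact ⟨h.smooth, h.imm⟩

end Pool.Agent.Work.MP_157c12_gt.Rot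

end

section

/-!
# Rotational hypersurfaces of finite type: rotating a transversal patch
-/

open TopologicalSpace Finset Filter
open scoped Manifold ContDiff RealInnerProductSpace Topology

namespace Pool.Agent.Work.MP_157c12_gt.Rot

open Pool.Agent.Work.MP_157c12_gt

section MRrot

variable {V : Type*} [NormedAddCommGroup V] [InnerProductSpace ℝ V]

/-- rotation by the angle `t` in the plane of `a`, `b` -/
noncomputable def MR_rot (a b : V) (t : ℝ) (u : V) : V :=
  u + ((Real.cos t - 1) • (⟪a, u⟫ • a + ⟪b, u⟫ • b) +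
    Real.sin t • (⟪a, u⟫ • b - ⟪b, u⟫ • a))

lemma MR_rot_zero (a b u : V) : MR_rot a b 0 u = u := by simp [MR_rot]

lemma MR_inner_a {a b : V} (ha : ‖a‖ = 1) (hab : ⟪a, b⟫ = 0) (t : ℝ) (u : V) :
    ⟪a, MR_rot a b t u⟫ = Real.cos t * ⟪a, u⟫ - Real.sin t * ⟪b, u⟫ := by
  simp only [MR_rot, inner_add_right, inner_sub_right, real_inner_smul_right, hab,
    real_inner_self_eq_norm_sq, ha]
  ring

lemma MR_inner_b {a b : V} (hb : ‖b‖ = 1) (hab : ⟪a, b⟫ = 0) (t : ℝ) (u : V) :
    ⟪b, MR_rot a b t u⟫ = Real.cos t * ⟪b, u⟫ + Real.sin t * ⟪a, u⟫ := by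
  have hba : ⟪b, a⟫ = 0 := by rw [real_inner_comm, hab]
  simp only [MR_rot, inner_add_right, inner_sub_right, real_inner_smul_right, hba,
    real_inner_self_eq_norm_sq, hb]
  ring

lemma MR_add {a b : V} (ha : ‖a‖ = 1) (hb : ‖b‖ = 1) (hab : ⟪a, b⟫ = 0) (s t : ℝ) (u : V) :
    MR_rot a b s (MR_rot a b t u) = MR_rot a b (s + t) u := by
  rw [MR_rot, MR_inner_a ha hab, MR_inner_b hb hab, MR_rot, MR_rot, Real.cos_add, Real.sin_add]
  module

lemma MR_norm {a b : V} (ha : ‖a‖ = 1) (hb : ‖b‖ = 1) (hab : ⟪a, b⟫ = 0) (t : ℝ) (u : V) :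
    ‖MR_rot a b t u‖ = ‖u‖ := by
  have hba : ⟪b, a⟫ = 0 := by rw [real_inner_comm, hab]
  have hua : ⟪u, a⟫ = ⟪a, u⟫ := real_inner_comm _ _
  have hub : ⟪u, b⟫ = ⟪b, u⟫ := real_inner_comm _ _
  have haa : ⟪a, a⟫ = 1 := by rw [real_inner_self_eq_norm_sq, ha]; norm_num
  have hbb : ⟪b, b⟫ = 1 := by rw [real_inner_self_eq_norm_sq, hb]; norm_num
  have h : ‖MR_rot a b t u‖ ^ 2 = ‖u‖ ^ 2 := by
    rw [← real_inner_self_eq_norm_sq, ← real_inner_self_eq_norm_sq]
    simp only [MR_rot, inner_add_right, inner_sub_right, real_inner_smul_right,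
      inner_add_left, inner_sub_left, real_inner_smul_left, hab, hba, hua, hub, haa, hbb]
    have := Real.sin_sq_add_cos_sq t
    linear_combination (⟪a, u⟫ ^ 2 + ⟪b, u⟫ ^ 2) * this
  have h2 := abs_eq_abs.mpr (sq_eq_sq_iff_eq_or_eq_neg.mp h)
  rwa [abs_norm, abs_norm] at h2

/-- the rotation as a linear isometry -/
noncomputable def MR_iso {a b : V} (ha : ‖a‖ = 1) (hb : ‖b‖ = 1) (hab : ⟪a, b⟫ = 0) (t : ℝ) :
    V ≃ₗᵢ[ℝ] V where
  toFun := MR_rot a b t
  invFun := MR_rot a b (-t)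
  map_add' := by
    intro u v
    simp only [MR_rot, inner_add_right]
    module
  map_smul' := by
    intro c u
    simp only [MR_rot, real_inner_smul_right, RingHom.id_apply]
    module
  left_inv := by
    intro u
    rw [MR_add ha hb hab, neg_add_cancel, MR_rot_zero]
  right_inv := by
    intro u
    rw [MR_add ha hb hab, add_neg_cancel, MR_rot_zero]
  norm_map' := MR_norm ha hb hab t

lemma MR_iso_apply {a b : V} (ha : ‖a‖ = 1) (hb : ‖b‖ = 1) (hab : ⟪a, b⟫ = 0) (t : ℝ) (u : V) :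
    MR_iso ha hb hab t u = MR_rot a b t u := rfl

lemma MR_det [FiniteDimensional ℝ V] {a b : V} (ha : ‖a‖ = 1) (hb : ‖b‖ = 1)
    (hab : ⟪a, b⟫ = 0) (t : ℝ) :
    LinearMap.det ((MR_iso ha hb hab t).toLinearEquiv : V →ₗ[ℝ] V) = 1 := by
  have h1 : ((MR_iso ha hb hab t).toLinearEquiv : V →ₗ[ℝ] V) =
      ((MR_iso ha hb hab (t / 2)).toLinearEquiv : V →ₗ[ℝ] V) *
      ((MR_iso ha hb hab (t / 2)).toLinearEquiv : V →ₗ[ℝ] V) := by
    ext u
    show MR_rot a b t u = MR_rot a b (t / 2) (MR_rot a b (t / 2) u)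
    rw [MR_add ha hb hab, add_halves]
  rw [h1, map_mul]
  have h2 := (MR_iso ha hb hab (t / 2)).toLinearIsometry.normDet_eq_one
  have h3 := LinearMap.normDet_eq_abs_det
    ((MR_iso ha hb hab (t / 2)).toLinearIsometry.toLinearMap)
  rw [h2] at h3
  have h4 : |LinearMap.det ((MR_iso ha hb hab (t / 2)).toLinearEquiv : V →ₗ[ℝ] V)| = 1 := h3.symm
  rw [← abs_mul_abs_self, h4, mul_one]

end MRrot

lemma MR_inj {n m : ℕ} {X : E n → E m} {p : E n} (h : 0 < (gram X p).det)
    (hX : DifferentiableAt ℝ X p) {u : E n} (hu : fderiv ℝ X p u = 0) : u = 0 := by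
  have h1 : ∀ a, fderiv ℝ (fun q => X q a) p u = 0 := by
    intro a
    have h2 : HasFDerivAt (fun q => X q a)
        ((EuclideanSpace.proj a : E m →L[ℝ] ℝ).comp (fderiv ℝ X p)) p :=
      (EuclideanSpace.proj a : E m →L[ℝ] ℝ).hasFDerivAt.comp p hX.hasFDerivAt
    rw [h2.fderiv]
    simp [hu]
  have h3 : ∀ a, ∑ j, u j * pd j (fun q => X q a) p = 0 := by
    intro a
    rw [← h1 a]
    conv_rhs => rw [← (EuclideanSpace.basisFun (Fin n) ℝ).sum_repr u]
    rw [map_sum]
    refine Finset.sum_congr rfl fun j _ => ?_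
    rw [map_smul, EuclideanSpace.basisFun_repr, EuclideanSpace.basisFun_apply, smul_eq_mul]
    rfl
  have h4 : (gram X p).mulVec (fun j => u j) = 0 := by
    funext i
    simp only [Matrix.mulVec, dotProduct, gram, Matrix.of_apply, Pi.zero_apply]
    have h5 : ∀ j, (∑ a, pd i (fun q => X q a) p * pd j (fun q => X q a) p) * u j =
        ∑ a, pd i (fun q => X q a) p * (u j * pd j (fun q => X q a) p) := by
      intro j
      rw [Finset.sum_mul]
      refine Finset.sum_congr rfl fun a _ => ?_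
      ring
    rw [Finset.sum_congr rfl fun j _ => h5 j, Finset.sum_comm]
    refine Finset.sum_eq_zero fun a _ => ?_
    rw [← Finset.mul_sum, h3 a, mul_zero]
  have h5 := Matrix.eq_zero_of_mulVec_eq_zero h.ne' h4
  ext j
  exact congrFun h5 j

theorem pr_MR : MR := by
  intro n O X o e v p hX he hp hax hve hvy hnot
  have hXc : ContDiffAt ℝ ∞ X p := by
    rw [contDiffAt_euclidean]
    intro a
    exact (hX.smooth a).contDiffAt (O.isOpen.mem_nhds hp)
  have hXd : DifferentiableAt ℝ X p := hXc.differentiableAt (by simp)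
  set y := X p - o with hy
  set z := ⟪y, e⟫ with hz
  have hr0 : y - z • e ≠ 0 := by
    intro h0
    apply hax z
    have h1 : y = z • e := sub_eq_zero.mp h0
    rw [← h1, hy]
    abel
  set r := ‖y - z • e‖ with hr
  have hrp : 0 < r := norm_pos_iff.mpr hr0
  have hee : ⟪e, e⟫ = 1 := by rw [real_inner_self_eq_norm_sq, he]; norm_num
  have hv0 : v ≠ 0 := by
    rintro rfl
    apply hnot
    exact ⟨0, fun a => by simp⟩
  have hvp : 0 < ‖v‖ := norm_pos_iff.mpr hv0
  set a : E (n + 1) := r⁻¹ • (y - z • e) with ha'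
  set b : E (n + 1) := ‖v‖⁻¹ • v with hb'
  have ha : ‖a‖ = 1 := by
    rw [ha', norm_smul, norm_inv, Real.norm_eq_abs, abs_of_pos hrp, ← hr,
      inv_mul_cancel₀ hrp.ne']
  have hb : ‖b‖ = 1 := by
    rw [hb', norm_smul, norm_inv, norm_norm, inv_mul_cancel₀ hvp.ne']
  have hae : ⟪a, e⟫ = 0 := by
    rw [ha', real_inner_smul_left, inner_sub_left, real_inner_smul_left, hee, ← hz]
    ring
  have hbe : ⟪b, e⟫ = 0 := by
    rw [hb', real_inner_smul_left]
    have : ⟪v, e⟫ = 0 := hve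
    rw [this, mul_zero]
  have hby : ⟪b, y⟫ = 0 := by
    rw [hb', real_inner_smul_left]
    have : ⟪v, y⟫ = 0 := hvy
    rw [this, mul_zero]
  have hab : ⟪a, b⟫ = 0 := by
    rw [ha', real_inner_smul_left, inner_sub_left, real_inner_smul_left,
      real_inner_comm b y, hby, real_inner_comm b e, hbe]
    ring
  have hay : ⟪a, y⟫ = r := by
    have h1 : ⟪a, y⟫ = ⟪a, y - z • e⟫ := by
      have h2 := inner_sub_right (𝕜 := ℝ) a y (z • e)
      rw [real_inner_smul_right, hae, mul_zero, sub_zero] at h2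
      exact h2.symm
    rw [h1, ha', real_inner_smul_left, real_inner_self_eq_norm_sq, ← hr]
    field_simp
  -- the map
  set Φ : E n × ℝ → E (n + 1) := fun w => o + MR_rot a b w.2 (X w.1 - o) with hΦ
  have hX1 : ContDiffAt ℝ ∞ (fun w : E n × ℝ => X w.1 - o) (p, 0) :=
    (ContDiffAt.comp (p, (0 : ℝ)) (g := X) (f := Prod.fst) hXc contDiffAt_fst).sub
      contDiffAt_const
  have hc2 : ContDiffAt ℝ ∞ (fun w : E n × ℝ => Real.cos w.2 - 1) (p, 0) :=
    (Real.contDiff_cos.contDiffAt.comp (p, (0 : ℝ)) contDiffAt_snd).sub contDiffAt_const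
  have hs2 : ContDiffAt ℝ ∞ (fun w : E n × ℝ => Real.sin w.2) (p, 0) :=
    Real.contDiff_sin.contDiffAt.comp (p, (0 : ℝ)) contDiffAt_snd
  have hia : ∀ c : E (n + 1), ContDiffAt ℝ ∞ (fun w : E n × ℝ => ⟪c, X w.1 - o⟫) (p, 0) :=
    fun c => contDiffAt_const.inner ℝ hX1
  have hΦc : ContDiffAt ℝ ∞ Φ (p, 0) := by
    refine contDiffAt_const.add (hX1.add (ContDiffAt.add ?_ ?_))
    · exact hc2.smul (((hia a).smul contDiffAt_const).add ((hia b).smul contDiffAt_const))
    · exact hs2.smul (((hia a).smul contDiffAt_const).sub ((hia b).smul contDiffAt_const))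
  have hΦs : HasStrictFDerivAt Φ (fderiv ℝ Φ (p, 0)) (p, 0) :=
    hΦc.hasStrictFDerivAt (by simp)
  have hΦd : DifferentiableAt ℝ Φ (p, 0) := hΦc.differentiableAt (by simp)
  have hd1 : ∀ u, fderiv ℝ Φ (p, 0) (u, 0) = fderiv ℝ X p u := by
    intro u
    have h1 : HasFDerivAt (fun q : E n => (q, (0 : ℝ))) (ContinuousLinearMap.inl ℝ (E n) ℝ) p :=
      (hasFDerivAt_id p).prodMk (hasFDerivAt_const (0 : ℝ) p)
    have h2 : HasFDerivAt (fun q : E n => Φ (q, 0))
        ((fderiv ℝ Φ (p, 0)).comp (ContinuousLinearMap.inl ℝ (E n) ℝ)) p :=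
      HasFDerivAt.comp p (g := Φ) hΦd.hasFDerivAt h1
    have h3 : (fun q : E n => Φ (q, 0)) = X := by
      funext q
      simp only [hΦ, MR_rot_zero]
      abel
    rw [h3] at h2
    rw [h2.fderiv]
    simp
  have hd2 : fderiv ℝ Φ (p, 0) (0, 1) = r • b := by
    have h1 : HasDerivAt (fun t : ℝ => ((p, t) : E n × ℝ)) ((0, 1) : E n × ℝ) 0 :=
      (hasDerivAt_const (0 : ℝ) p).prodMk (hasDerivAt_id (0 : ℝ))
    have h2 : HasDerivAt (fun t : ℝ => Φ (p, t)) (fderiv ℝ Φ (p, 0) (0, 1)) 0 :=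
      HasFDerivAt.comp_hasDerivAt (0 : ℝ) (l := Φ) hΦd.hasFDerivAt h1
    have h3 : HasDerivAt (fun t : ℝ => Φ (p, t)) (r • b) 0 := by
      have h4 : (fun t : ℝ => Φ (p, t)) = fun t : ℝ => (o + y) +
          ((Real.cos t - 1) • (r • a) + Real.sin t • (r • b)) := by
        funext t
        simp only [hΦ, MR_rot, ← hy, hay, hby, zero_smul, add_zero, sub_zero]
        abel
      rw [h4]
      have h5 : HasDerivAt (fun t : ℝ => (Real.cos t - 1) • (r • a)) (0 : E (n + 1)) 0 := by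
        have := ((Real.hasDerivAt_cos 0).sub_const 1).smul_const (r • a)
        simpa using this
      have h6 : HasDerivAt (fun t : ℝ => Real.sin t • (r • b)) (r • b) 0 := by
        have := (Real.hasDerivAt_sin 0).smul_const (r • b)
        simpa using this
      have := (h5.add h6).const_add (o + y)
      simpa using this
    exact h2.unique h3
  have hinj : Function.Injective (fderiv ℝ Φ (p, 0)) := by
    rw [injective_iff_map_eq_zero]
    rintro ⟨u, τ⟩ h0
    have h1 : ((u, τ) : E n × ℝ) = (u, 0) + τ • (0, 1) := by simp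
    rw [h1, map_add, map_smul, hd1, hd2] at h0
    have hτ : τ = 0 := by
      by_contra hτ
      apply hnot
      have h2 : fderiv ℝ X p ((-(‖v‖ * (τ * r)⁻¹)) • u) = v := by
        have h3 : fderiv ℝ X p u = -(τ • r • b) := eq_neg_of_add_eq_zero_left h0
        rw [map_smul, h3, hb', smul_neg, neg_smul, neg_neg, smul_smul, smul_smul, smul_smul]
        have h4 : ‖v‖ * (τ * r)⁻¹ * τ * r * ‖v‖⁻¹ = 1 := by
          field_simp
        rw [h4, one_smul]
      refine ⟨(-(‖v‖ * (τ * r)⁻¹)) • u, fun c => ?_⟩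
      have h5 : HasFDerivAt (fun q => X q c)
          ((EuclideanSpace.proj c : E (n + 1) →L[ℝ] ℝ).comp (fderiv ℝ X p)) p :=
        (EuclideanSpace.proj c : E (n + 1) →L[ℝ] ℝ).hasFDerivAt.comp p hXd.hasFDerivAt
      rw [h5.fderiv, ContinuousLinearMap.comp_apply, h2]
      rfl
    rw [hτ, zero_smul, add_zero] at h0
    rw [MR_inj (hX.imm p hp) hXd h0, hτ]
    rfl
  have hsurj : Function.Surjective (fderiv ℝ Φ (p, 0)) := by
    have h1 : Module.finrank ℝ (E n × ℝ) = Module.finrank ℝ (E (n + 1)) := by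
      rw [Module.finrank_prod, finrank_euclideanSpace, finrank_euclideanSpace]
      simp
    exact (LinearMap.injective_iff_surjective_of_finrank_eq_finrank h1
      (f := (fderiv ℝ Φ (p, 0) : E n × ℝ →ₗ[ℝ] E (n + 1)))).mp hinj
  have hmap := hΦs.map_nhds_eq_of_surj (LinearMap.range_eq_top.mpr hsurj)
  have hΦp : Φ (p, 0) = X p := by
    simp only [hΦ, MR_rot_zero]
    abel
  rw [hΦp] at hmap
  rw [← hmap, Filter.mem_map]
  have hO : (O : Set (E n)) ×ˢ (Set.univ : Set ℝ) ∈ 𝓝 ((p, 0) : E n × ℝ) :=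
    prod_mem_nhds (O.isOpen.mem_nhds hp) univ_mem
  filter_upwards [hO] with w hw
  refine ⟨MR_iso ha hb hab w.2, MR_det ha hb hab w.2, ?_, w.1, hw.1, rfl⟩
  rw [MR_iso_apply, MR_rot, hae, hbe]
  simp

end Pool.Agent.Work.MP_157c12_gt.Rot

end

section

/-!
# Rotational hypersurfaces of finite type: invariance of the image gives tangency
-/

open TopologicalSpace Finset
open scoped Manifold ContDiff

namespace Pool.Agent.Work.MP_157c12_gt.Rot

open Pool.Agent.Work.MP_157c12_gt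

theorem pr_MT (hMP : MP) (hMI : MI) (hMR : MR) : MT := by
  intro n M _ _ _ _ x hx o e he hinv φ hφ p hp hoff v hv1 hv2
  by_contra hcon
  have h1 := hMR n ⟨φ.target, φ.open_target⟩ (fun q => x (φ.symm q)) o e v p
    (hMP n (n + 1) M x hx φ hφ) he hp hoff hv1 hv2 hcon
  have h2 : Set.range x ∈ nhds (x (φ.symm p)) := by
    refine Filter.mem_of_superset h1 ?_
    rintro y ⟨A, hA, hAe, q, _, rfl⟩
    exact hinv A hA hAe (φ.symm q)
  have h3 := mem_interior_iff_mem_nhds.2 h2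
  rw [hMI n M x hx] at h3
  exact h3

end Pool.Agent.Work.MP_157c12_gt.Rot

end

section

/-!
# Item MF: the equation of finite type in charts
-/

open TopologicalSpace Finset
open scoped Manifold ContDiff

namespace Pool.Agent.Work.MP_157c12_gt.Rot

open Pool.Agent.Work.MP_157c12_gt

lemma MF_dAt {n : ℕ} {O : Opens (E n)} {f : E n → ℝ} (hf : ContDiffOn ℝ ∞ f O) {p : E n}
    (hp : p ∈ O) : DifferentiableAt ℝ f p :=
  (hf.contDiffAt (O.isOpen.mem_nhds hp)).differentiableAt (by simp)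

lemma MF_pd_congr {n : ℕ} {O : Opens (E n)} {f g : E n → ℝ} (h : ∀ q ∈ O, f q = g q) {p : E n}
    (hp : p ∈ O) (i : Fin n) : pd i f p = pd i g p := by
  unfold pd
  have h1 : f =ᶠ[nhds p] g := Filter.eventually_of_mem (O.isOpen.mem_nhds hp) h
  rw [h1.fderiv_eq]

lemma MF_lap_congr {n m : ℕ} {O : Opens (E n)} (Z : E n → E m) {f g : E n → ℝ}
    (h : ∀ q ∈ O, f q = g q) {p : E n} (hp : p ∈ O) : lap Z f p = lap Z g p := by
  unfold lap
  congr 1
  refine Finset.sum_congr rfl fun i _ => MF_pd_congr (O := O) ?_ hp i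
  intro q hq
  congr 1
  exact Finset.sum_congr rfl fun j _ => by rw [MF_pd_congr h hq j]

lemma MF_pd_lin {n : ℕ} {f g : E n → ℝ} {p : E n} (hf : DifferentiableAt ℝ f p)
    (hg : DifferentiableAt ℝ g p) (s t : ℝ) (i : Fin n) :
    pd i (fun q => s * f q + t * g q) p = s * pd i f p + t * pd i g p := by
  unfold pd
  rw [fderiv_fun_add (hf.const_mul s) (hg.const_mul t), fderiv_const_mul hf, fderiv_const_mul hg]
  simp

lemma MF_lap_lin {n m : ℕ} {O : Opens (E n)} {Z : E n → E m} (hZ : Patch O Z) {f g : E n → ℝ}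
    (hf : ContDiffOn ℝ ∞ f O) (hg : ContDiffOn ℝ ∞ g O) (s t : ℝ) {p : E n} (hp : p ∈ O) :
    lap Z (fun q => s * f q + t * g q) p = s * lap Z f p + t * lap Z g p := by
  obtain ⟨-, -, b, -, hexp⟩ := gh1 n m O Z hZ
  have hfg : ContDiffOn ℝ ∞ (fun q => s * f q + t * g q) O :=
    (contDiffOn_const.mul hf).add (contDiffOn_const.mul hg)
  rw [hexp _ hfg p hp, hexp _ hf p hp, hexp _ hg p hp]
  have e1 : ∀ i j, pd i (fun q => pd j (fun q => s * f q + t * g q) q) p =
      s * pd i (fun q => pd j f q) p + t * pd i (fun q => pd j g q) p := by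
    intro i j
    rw [MF_pd_congr (O := O) (g := fun q => s * pd j f q + t * pd j g q)
      (fun q hq => MF_pd_lin (MF_dAt hf hq) (MF_dAt hg hq) s t j) hp i]
    exact MF_pd_lin (f := pd j f) (g := pd j g) (MF_dAt (ItemGH1.pd_smooth hf j) hp)
      (MF_dAt (ItemGH1.pd_smooth hg j) hp) s t i
  have e2 : ∀ i, pd i (fun q => s * f q + t * g q) p = s * pd i f p + t * pd i g p := fun i =>
    MF_pd_lin (MF_dAt hf hp) (MF_dAt hg hp) s t i
  simp only [e1, e2, mul_add, Finset.sum_add_distrib, Finset.mul_sum]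
  have e3 : ∀ i j, (gram Z p)⁻¹ i j * (s * pd i (fun q => pd j f q) p) =
      s * ((gram Z p)⁻¹ i j * pd i (fun q => pd j f q) p) := fun i j => by ring
  have e4 : ∀ i j, (gram Z p)⁻¹ i j * (t * pd i (fun q => pd j g q) p) =
      t * ((gram Z p)⁻¹ i j * pd i (fun q => pd j g q) p) := fun i j => by ring
  have e5 : ∀ i, b p i * (s * pd i f p) = s * (b p i * pd i f p) := fun i => by ring
  have e6 : ∀ i, b p i * (t * pd i g p) = t * (b p i * pd i g p) := fun i => by ring
  simp only [e3, e4, e5, e6]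
  ring

lemma MF_lap_sum {n m : ℕ} {O : Opens (E n)} {Z : E n → E m} (hZ : Patch O Z) {ι : Type}
    (s : Finset ι) {f : ι → E n → ℝ} (hf : ∀ i, ContDiffOn ℝ ∞ (f i) O) (t : ι → ℝ) {p : E n}
    (hp : p ∈ O) : lap Z (fun q => ∑ i ∈ s, t i * f i q) p = ∑ i ∈ s, t i * lap Z (f i) p := by
  classical
  induction s using Finset.induction_on with
  | empty =>
    have h0 : ContDiffOn ℝ ∞ (fun _ : E n => (0 : ℝ)) O := contDiffOn_const
    have h := MF_lap_lin hZ h0 h0 0 0 hp
    simpa using h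
  | insert i s hi ih =>
    have h := MF_lap_lin hZ (hf i) (g := fun q => ∑ i ∈ s, t i * f i q)
      (ContDiffOn.sum fun j _ => contDiffOn_const.mul (hf j)) (t i) 1 hp
    simp only [one_mul] at h
    have e : (fun q => ∑ i ∈ insert i s, t i * f i q) =
        fun q => t i * f i q + ∑ i ∈ s, t i * f i q := by
      funext q
      rw [Finset.sum_insert hi]
    rw [e, h, ih, Finset.sum_insert hi]

theorem pr_MF (_hMP : MP) : MF := by
  intro n M _ _ _ _ _ x hn hxi hft
  obtain ⟨c, k, y, l, hsm, hnc, hsum, hL⟩ := hft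
  obtain ⟨hx, himm⟩ := hxi
  have hl : ∀ i, l i ≠ 0 := by
    intro i h0
    obtain ⟨p, q, hpq⟩ := hnc i
    apply hpq
    ext a
    have e := hL i a
    rw [h0] at e
    exact gm3 gh1 gh2 (gm1 gm2) gm2 n (n + 1) M x hx himm (y i) a (hsm i) e p q
  have hk : 1 ≤ k := by
    by_contra hk
    have hk0 : k = 0 := by omega
    subst hk0
    obtain ⟨p⟩ : Nonempty M := inferInstance
    have hxz : x = fun _ => c := by
      funext q
      rw [hsum q]
      simp
    have h1 : (mfderiv 𝓘(ℝ, E n) 𝓘(ℝ, E (n + 1)) x p : E n →L[ℝ] E (n + 1)) = 0 := by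
      rw [hxz]
      exact mfderiv_const
    have i0 : Fin n := ⟨0, hn⟩
    have h2 : (mfderiv 𝓘(ℝ, E n) 𝓘(ℝ, E (n + 1)) x p : E n →L[ℝ] E (n + 1))
        (EuclideanSpace.single i0 1) =
        (mfderiv 𝓘(ℝ, E n) 𝓘(ℝ, E (n + 1)) x p : E n →L[ℝ] E (n + 1)) 0 := by
      rw [h1]
      rfl
    have h3 : (EuclideanSpace.single i0 1 : E n) = 0 := himm p h2
    have h4 := congrArg (fun v : E n => v i0) h3
    simp at h4
  set P : Polynomial ℝ := ∏ i, (Polynomial.X - Polynomial.C (l i)) with hP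
  have hPm : P.Monic := Polynomial.monic_prod_of_monic _ _ fun i _ => Polynomial.monic_X_sub_C _
  have hPd : P.natDegree = k := by
    rw [hP, Polynomial.natDegree_prod_of_monic _ _ fun i _ => Polynomial.monic_X_sub_C _]
    simp
  have hPe : ∀ i, P.eval (l i) = 0 := by
    intro i
    rw [hP, Polynomial.eval_prod, Finset.prod_eq_zero (Finset.mem_univ i) (by simp)]
  refine ⟨c, k, fun j => P.coeff (k - j), hk, ?_, ?_, ?_⟩
  · show P.coeff (k - 0) = 1
    rw [Nat.sub_zero, ← hPd]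
    exact hPm.coeff_natDegree
  · show P.coeff (k - k) ≠ 0
    rw [Nat.sub_self, Polynomial.coeff_zero_eq_eval_zero, hP, Polynomial.eval_prod]
    refine Finset.prod_ne_zero_iff.2 fun i _ => ?_
    simpa using hl i
  · intro φ hφ p hp a
    have hpatch := gm1 gm2 n (n + 1) M x hx himm φ hφ
    have hlap : lap (fun q => x (φ.symm q) - c) = lap (fun q => x (φ.symm q)) := by
      funext f q
      exact ItemGMain.lap_sub (fun q => x (φ.symm q)) c f q
    have key : ∀ j, ∀ q ∈ φ.target, ((lap (fun q => x (φ.symm q)))^[j]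
        (fun q => (x (φ.symm q) - c) a)) q = ∑ i, l i ^ j * y i (φ.symm q) a := by
      intro j
      induction j with
      | zero =>
        intro q hq
        show (x (φ.symm q) - c) a = _
        rw [hsum (φ.symm q), add_sub_cancel_left]
        simp
      | succ j ih =>
        intro q hq
        rw [Function.iterate_succ_apply',
          MF_lap_congr (O := ⟨φ.target, φ.open_target⟩) _ (fun q hq => ih q hq) hq,
          MF_lap_sum hpatch Finset.univ (fun i => gm2 n (n + 1) M (y i) (hsm i) φ hφ a)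
            (fun i => l i ^ j) hq]
        refine Finset.sum_congr rfl fun i _ => ?_
        rw [hL i a φ hφ q hq, pow_succ]
        ring
    show ∑ j ∈ range (k + 1), P.coeff (k - j) *
      ((lap (fun q => x (φ.symm q) - c))^[k - j] (fun q => (x (φ.symm q) - c) a)) p = 0
    rw [hlap]
    have e : ∀ j ∈ range (k + 1), P.coeff (k - j) *
        ((lap (fun q => x (φ.symm q)))^[k - j] (fun q => (x (φ.symm q) - c) a)) p =
        ∑ i, (P.coeff (k - j) * l i ^ (k - j)) * y i (φ.symm p) a := by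
      intro j _
      rw [key (k - j) p hp, Finset.mul_sum]
      exact Finset.sum_congr rfl fun i _ => by ring
    rw [Finset.sum_congr rfl e, Finset.sum_comm]
    refine Finset.sum_eq_zero fun i _ => ?_
    rw [← Finset.sum_mul, Finset.sum_flip (fun j => P.coeff j * l i ^ j)]
    have h5 := hPe i
    rw [Polynomial.eval_eq_sum_range, hPd] at h5
    rw [h5, zero_mul]

end Pool.Agent.Work.MP_157c12_gt.Rot

end

section

/-!
# Item MS: compact hypersurfaces immersed in a sphere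
-/

open PowerSeries Finset TopologicalSpace
open scoped Manifold ContDiff

namespace Pool.Agent.Work.MP_157c12_gt.Rot.MSaux

open Pool.Agent.Work.MP_157c12_gt

variable {n : ℕ} {M : Type} [TopologicalSpace M] [ChartedSpace (E n) M]

/-- the differential vanishes at a global maximum -/
lemma mfderiv_eq_zero_of_max (f : M → ℝ) (p0 : M) (h : ∀ p, f p ≤ f p0) (v : E n) :
    (mfderiv 𝓘(ℝ, E n) 𝓘(ℝ, ℝ) f p0 : E n →L[ℝ] ℝ) v = 0 := by
  have key : (mfderiv 𝓘(ℝ, E n) 𝓘(ℝ, ℝ) f p0 : E n →L[ℝ] ℝ) = 0 := by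
    by_cases hd : MDifferentiableAt 𝓘(ℝ, E n) 𝓘(ℝ, ℝ) f p0
    · have hmax : IsLocalMax (writtenInExtChartAt 𝓘(ℝ, E n) 𝓘(ℝ, ℝ) p0 f)
          (extChartAt 𝓘(ℝ, E n) p0 p0) := by
        refine Filter.Eventually.of_forall fun q => ?_
        simp only [writtenInExtChartAt, Function.comp_apply, extChartAt_model_space_eq_id,
          PartialEquiv.refl_coe, id_eq, extChartAt_to_inv]
        exact h _
      have h2 := hd.hasMFDerivAt.2
      rw [modelWithCornersSelf_coe, Set.range_id] at h2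
      exact hmax.hasFDerivAt_eq_zero h2.hasFDerivAt_of_univ
    · exact mfderiv_zero_of_not_mdifferentiableAt hd
  rw [key]
  rfl

lemma not_const (h1n : 1 ≤ n) (x : M → E (n + 1)) (z : E (n + 1)) (hM : Nonempty M)
    (hx : ∀ p, Function.Injective (mfderiv 𝓘(ℝ, E n) 𝓘(ℝ, E (n + 1)) x p)) (hc : ∀ p, x p = z) :
    False := by
  obtain ⟨p⟩ := hM
  have hxz : x = fun _ => z := funext hc
  have h1 : (mfderiv 𝓘(ℝ, E n) 𝓘(ℝ, E (n + 1)) x p : E n →L[ℝ] E (n + 1)) = 0 := by
    rw [hxz]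
    exact mfderiv_const
  have h2 : (mfderiv 𝓘(ℝ, E n) 𝓘(ℝ, E (n + 1)) x p : E n →L[ℝ] E (n + 1)) (EuclideanSpace.single (⟨0, h1n⟩ : Fin n) 1) =
      (mfderiv 𝓘(ℝ, E n) 𝓘(ℝ, E (n + 1)) x p : E n →L[ℝ] E (n + 1)) 0 := by
    rw [h1]
    rfl
  have h3 : (EuclideanSpace.single (⟨0, h1n⟩ : Fin n) 1 : E n) = 0 := hx p h2
  have h4 := congrArg (fun v : E n => v ⟨0, h1n⟩) h3
  simp at h4

/-- differential of a smooth real function of `x` -/
lemma mfderiv_comp_apply (x : M → E (n + 1)) (p : M) (g : E (n + 1) → ℝ)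
    (hx : MDifferentiableAt 𝓘(ℝ, E n) 𝓘(ℝ, E (n + 1)) x p) (hg : DifferentiableAt ℝ g (x p)) (v : E n) :
    (mfderiv 𝓘(ℝ, E n) 𝓘(ℝ, ℝ) (g ∘ x) p : E n →L[ℝ] ℝ) v =
      fderiv ℝ g (x p) ((mfderiv 𝓘(ℝ, E n) 𝓘(ℝ, E (n + 1)) x p : E n →L[ℝ] E (n + 1)) v) := by
  have h := mfderiv_comp (I := 𝓘(ℝ, E n)) (I' := 𝓘(ℝ, E (n + 1))) (I'' := 𝓘(ℝ, ℝ)) p
    hg.mdifferentiableAt hx
  rw [h]
  rw [mfderiv_eq_fderiv]
  rfl

lemma half_norm_sq (a w : E (n + 1)) :
    fderiv ℝ (fun w : E (n + 1) => ‖w‖ ^ 2) a w = 0 ↔ inner ℝ a w = 0 := by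
  have e4 : fderiv ℝ (fun w : E (n + 1) => ‖w‖ ^ 2) a = 2 • innerSL ℝ a :=
    (hasStrictFDerivAt_norm_sq a).hasFDerivAt.fderiv
  rw [e4, two_smul]
  show inner ℝ a w + inner ℝ a w = 0 ↔ _
  constructor
  · intro h
    linarith
  · intro h
    rw [h, add_zero]

/-- two nonzero vectors orthogonal to a plane in space are proportional -/
lemma proportional (D : E n →L[ℝ] E (n + 1)) (hD : Function.Injective D) (a z : E (n + 1)) (ha : a ≠ 0)
    (h1 : ∀ v, inner ℝ a (D v) = 0) (h2 : ∀ v, inner ℝ z (D v) = 0) : ∃ c : ℝ, z = c • a := by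
  have hr : Module.finrank ℝ (LinearMap.range (D : E n →ₗ[ℝ] E (n + 1))) = n := by
    rw [LinearMap.finrank_range_of_inj hD]
    simp
  have ho : Module.finrank ℝ (LinearMap.range (D : E n →ₗ[ℝ] E (n + 1)))ᗮ = 1 := by
    have := (LinearMap.range (D : E n →ₗ[ℝ] E (n + 1))).finrank_add_finrank_orthogonal
    rw [hr] at this
    have h3 : Module.finrank ℝ (E (n + 1)) = n + 1 := by simp
    omega
  have mem : ∀ w : E (n + 1), (∀ v, inner ℝ w (D v) = 0) →
      w ∈ (LinearMap.range (D : E n →ₗ[ℝ] E (n + 1)))ᗮ := by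
    intro w hw
    rw [Submodule.mem_orthogonal']
    rintro u ⟨v, rfl⟩
    exact hw v
  have hne : (⟨a, mem a h1⟩ : (LinearMap.range (D : E n →ₗ[ℝ] E (n + 1)))ᗮ) ≠ 0 := by
    intro h
    exact ha (congrArg Subtype.val h)
  obtain ⟨c, hc⟩ := (finrank_eq_one_iff_of_nonzero' _ hne).mp ho ⟨z, mem z h2⟩
  exact ⟨c, (congrArg Subtype.val hc).symm⟩

end Pool.Agent.Work.MP_157c12_gt.Rot.MSaux

namespace Pool.Agent.Work.MP_157c12_gt.Rot

open Pool.Agent.Work.MP_157c12_gt MSaux

/-- a compact surface immersed in a sphere is the sphere -/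
theorem pr_MS : MS := by
  intro n M _ _ _ _ _ x h1n hsi κ hκ
  obtain ⟨hsm, hx⟩ := hsi
  have hM : Nonempty M := inferInstance
  have hκ0 : 0 ≤ κ := by
    obtain ⟨p⟩ := hM
    rw [← hκ p]
    positivity
  have hκpos : 0 < κ := by
    rcases hκ0.lt_or_eq with h | h
    · exact h
    · exfalso
      refine not_const h1n x 0 hM hx fun p => ?_
      have := hκ p
      rw [← h] at this
      have h2 : ‖x p‖ = 0 := by
        exact pow_eq_zero_iff (two_ne_zero) |>.mp this
      exact norm_eq_zero.mp h2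
  have hr : 0 < √κ := Real.sqrt_pos.mpr hκpos
  have hn : ∀ p, ‖x p‖ = √κ := by
    intro p
    rw [← hκ p, Real.sqrt_sq (norm_nonneg _)]
  refine ⟨√κ, hr, ?_⟩
  apply Set.Subset.antisymm
  · rintro _ ⟨p, rfl⟩
    rw [mem_sphere_zero_iff_norm]
    exact hn p
  · intro z hz
    rw [mem_sphere_zero_iff_norm] at hz
    by_contra hzr
    have hcont : Continuous fun p => inner ℝ z (x p) := by
      exact (innerSL ℝ z).continuous.comp hsm.continuous
    obtain ⟨p0, -, hp0⟩ := isCompact_univ.exists_isMaxOn (Set.univ_nonempty (α := M))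
      hcont.continuousOn
    have hmax : ∀ p, inner ℝ z (x p) ≤ inner ℝ z (x p0) := fun p => hp0 (Set.mem_univ p)
    have hmd : MDifferentiableAt 𝓘(ℝ, E n) 𝓘(ℝ, E (n + 1)) x p0 :=
      hsm.mdifferentiableAt (by simp)
    obtain ⟨D, hD⟩ : ∃ D : E n →L[ℝ] E (n + 1),
        D = (mfderiv 𝓘(ℝ, E n) 𝓘(ℝ, E (n + 1)) x p0 : E n →L[ℝ] E (n + 1)) := ⟨_, rfl⟩
    have hDi : Function.Injective D := by
      rw [hD]
      exact hx p0
    have h2 : ∀ v, inner ℝ z (D v) = 0 := by
      intro v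
      have e1 := mfderiv_comp_apply x p0 (innerSL ℝ z) hmd (innerSL ℝ z).differentiableAt v
      have e2 := mfderiv_eq_zero_of_max ((innerSL ℝ z) ∘ x) p0 hmax v
      rw [e2, ← hD, ContinuousLinearMap.fderiv] at e1
      exact e1.symm
    have h1 : ∀ v, inner ℝ (x p0) (D v) = 0 := by
      intro v
      have hdn : DifferentiableAt ℝ (fun w : E (n + 1) => ‖w‖ ^ 2) (x p0) :=
        (contDiff_norm_sq ℝ (n := 1)).differentiable one_ne_zero |>.differentiableAt
      have e1 := mfderiv_comp_apply x p0 (fun w : E (n + 1) => ‖w‖ ^ 2) hmd hdn v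
      have e2 : (fun w : E (n + 1) => ‖w‖ ^ 2) ∘ x = fun _ => κ := funext hκ
      rw [e2] at e1
      have e3 := mfderiv_eq_zero_of_max (fun _ : M => κ) p0 (fun _ => le_rfl) v
      rw [e3, ← hD] at e1
      exact (half_norm_sq (x p0) (D v)).mp e1.symm
    have hxne : x p0 ≠ 0 := by
      intro h
      have := hn p0
      rw [h, norm_zero] at this
      exact hr.ne this
    obtain ⟨c, hc⟩ := proportional D hDi (x p0) z hxne h1 h2
    have habs : |c| = 1 := by
      have e1 : ‖z‖ = |c| * ‖x p0‖ := by rw [hc, norm_smul, Real.norm_eq_abs]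
      rw [hz, hn p0] at e1
      have : (|c| - 1) * √κ = 0 := by linarith
      rcases mul_eq_zero.mp this with h | h
      · linarith
      · exact absurd h hr.ne'
    rcases (abs_eq (zero_le_one)).mp habs with h | h
    · rw [h, one_smul] at hc
      exact hzr ⟨p0, hc.symm⟩
    · rw [h, neg_one_smul] at hc
      refine not_const h1n x (-z) hM hx fun p => ?_
      have e1 := hmax p
      have e2 : inner ℝ z (x p0) = -κ := by
        rw [hc, inner_neg_left, real_inner_self_eq_norm_sq, hκ p0]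
      rw [e2] at e1
      have e3 : ‖z + x p‖ ^ 2 ≤ 0 := by
        rw [norm_add_sq_real, hz, hκ p, Real.sq_sqrt hκ0]
        linarith
      have e4 : ‖z + x p‖ = 0 := by
        have : ‖z + x p‖ ^ 2 = 0 := le_antisymm e3 (sq_nonneg _)
        exact pow_eq_zero_iff (two_ne_zero) |>.mp this
      have e5 := norm_eq_zero.mp e4
      exact eq_neg_of_add_eq_zero_right e5

end Pool.Agent.Work.MP_157c12_gt.Rot

end

section

/-!
# Rotational hypersurfaces of finite type: item MM, the main theorem on the manifold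
-/

open TopologicalSpace Finset
open scoped Manifold ContDiff

namespace Pool.Agent.Work.MP_157c12_gt.Rot

open Pool.Agent.Work.MP_157c12_gt

namespace XMM

variable {n : ℕ} {M : Type} [TopologicalSpace M] [ChartedSpace (E n) M]

/-- translation of an immersion -/
theorem imm_sub {m : ℕ} (x : M → E m) (c : E m) (hx : SmoothImmersion (V := E n) x) :
    SmoothImmersion (V := E n) (fun p => x p - c) := by
  refine ⟨hx.1.sub contMDiff_const, fun p => ?_⟩
  have hd : MDifferentiableAt 𝓘(ℝ, E n) 𝓘(ℝ, E m) x p := (hx.1 p).mdifferentiableAt (by simp)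
  have h1 := hd.hasMFDerivAt.sub (hasMFDerivAt_const (I := 𝓘(ℝ, E n)) (I' := 𝓘(ℝ, E m)) c p)
  have h2 : mfderiv 𝓘(ℝ, E n) 𝓘(ℝ, E m) (fun p => x p - c) p =
      mfderiv 𝓘(ℝ, E n) 𝓘(ℝ, E m) x p := by
    rw [show (fun p => x p - c) = x - fun _ => c from rfl, h1.mfderiv]
    exact sub_zero _
  rw [h2]
  exact hx.2 p

/-- a locally constant function from charts -/
theorem const_of_charts [IsManifold 𝓘(ℝ, E n) ∞ M] [PreconnectedSpace M] (f : M → ℝ)
    (hf : ∀ φ ∈ atlas (E n) M, ∀ q ∈ φ.target,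
      HasFDerivAt (fun q => f (φ.symm q)) (0 : E n →L[ℝ] ℝ) q) (p p' : M) : f p = f p' := by
  have hloc : IsLocallyConstant f := by
    rw [IsLocallyConstant.iff_eventually_eq]
    intro y
    set φ := chartAt (E n) y with hφ
    have hφa : φ ∈ atlas (E n) M := chart_mem_atlas _ _
    have hy : y ∈ φ.source := mem_chart_source _ _
    obtain ⟨ε, hε, hball⟩ := Metric.isOpen_iff.1 φ.open_target (φ y) (φ.map_source hy)
    have hconst : ∀ q ∈ Metric.ball (φ y) ε, f (φ.symm q) = f (φ.symm (φ y)) := by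
      intro q hq
      have hconv := convex_ball (φ y) ε
      have := hconv.norm_image_sub_le_of_norm_hasFDerivWithin_le (C := 0)
        (f := fun q => f (φ.symm q)) (f' := fun _ => (0 : E n →L[ℝ] ℝ))
        (fun z hz => (hf φ hφa z (hball hz)).hasFDerivWithinAt) (fun z _ => by simp)
        (Metric.mem_ball_self hε) hq
      rw [zero_mul, norm_le_zero_iff, sub_eq_zero] at this
      exact this
    have hopen : φ.source ∩ φ ⁻¹' Metric.ball (φ y) ε ∈ nhds y :=
      (φ.isOpen_inter_preimage Metric.isOpen_ball).mem_nhds ⟨hy, Metric.mem_ball_self hε⟩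
    filter_upwards [hopen] with z hz
    have := hconst (φ z) hz.2
    rwa [φ.left_inv hz.1, φ.left_inv hy] at this
  exact hloc.apply_eq_of_preconnectedSpace p p'

/-- the squared norm of a patch -/
theorem normSq_smooth {m : ℕ} {O : Opens (E n)} {X : E n → E m}
    (hX : ∀ a, ContDiffOn ℝ ∞ (fun q => X q a) O) :
    ContDiffOn ℝ ∞ (fun q => ‖X q‖ ^ 2) O := by
  have e : (fun q => ‖X q‖ ^ 2) = fun q => ∑ a, X q a ^ 2 := by
    funext q
    rw [EuclideanSpace.real_norm_sq_eq]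
  rw [e]
  exact ContDiffOn.sum fun a _ => (hX a).pow 2

end XMM

theorem pr_MM (hGLoc : GLoc) (hMP : MP) (hMT : MT) (hMD : MD) (hMF : MF) (hMS : MS) : MM := by
  intro n M _ _ _ _ _ x hn hx hft o e he hinv
  have hne : ‖e‖ ≠ 0 := norm_ne_zero_iff.2 he
  set e' : E (n + 1) := ‖e‖⁻¹ • e with he'
  have he1 : ‖e'‖ = 1 := by
    rw [he', norm_smul, norm_inv, norm_norm, inv_mul_cancel₀ hne]
  have hee : e = ‖e‖ • e' := by rw [he', smul_smul, mul_inv_cancel₀ hne, one_smul]
  have hinv' : ∀ A : E (n + 1) ≃ₗᵢ[ℝ] E (n + 1),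
      LinearMap.det (A.toLinearEquiv : E (n + 1) →ₗ[ℝ] E (n + 1)) = 1 → A e' = e' →
      ∀ p, o + A (x p - o) ∈ Set.range x := by
    intro A hA hAe p
    refine hinv A hA ?_ p
    rw [hee, map_smul, hAe]
  obtain ⟨c, k, al, hk, hal0, halk, hFT⟩ := hMF n M x (by omega) hx hft
  have hx' := XMM.imm_sub x c hx
  set s : ℝ := inner ℝ (o - c) e' with hs
  set o' : E (n + 1) := (o - c) - s • e' with ho'
  have hoe : inner ℝ o' e' = 0 := by
    rw [ho', inner_sub_left, inner_smul_left, real_inner_self_eq_norm_sq, he1, ← hs]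
    simp
  -- off the axis
  have hoff : ∀ p : M, (∀ t : ℝ, x p ≠ o + t • e') → ∀ t : ℝ, x p - c ≠ o' + t • e' := by
    intro p hp t ht
    apply hp (t - s)
    have : x p = c + (o' + t • e') := by rw [← ht]; abel
    rw [this, ho', sub_smul]
    abel
  have hoff' : ∀ p : M, (∀ t : ℝ, x p - c ≠ o' + t • e') → ∀ t : ℝ, x p ≠ o + t • e' := by
    intro p hp t ht
    apply hp (t + s)
    rw [ht, ho', add_smul]
    abel
  have key : ∀ φ ∈ atlas (E n) M, ∀ q ∈ φ.target, (∀ t : ℝ, x (φ.symm q) - c ≠ o' + t • e') →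
      fderiv ℝ (fun q => ‖x (φ.symm q) - c‖ ^ 2) q = 0 := by
    intro φ hφ q hq hqo
    have hP := hMP n (n + 1) M (fun p => x p - c) hx' φ hφ
    have hT := hMT n M x hx o e' he1 hinv' φ hφ
    refine (hGLoc n k al ⟨φ.target, φ.open_target⟩ (fun q => x (φ.symm q) - c) o' e' hn hk hal0
      halk hP he1 hoe ?_ (hFT φ hφ) q hq hqo).2
    intro p hp hpo v hve hvx
    have hvx' : inner ℝ v (x (φ.symm p) - c - o') = (0 : ℝ) := hvx
    have h1 : x (φ.symm p) - o = (x (φ.symm p) - c - o') - s • e' := by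
      rw [ho']; abel
    obtain ⟨u, hu⟩ := hT p hp (hoff' _ hpo) v hve (by
      show inner ℝ v (x (φ.symm p) - o) = (0 : ℝ)
      rw [h1, inner_sub_right, hvx', inner_smul_right, hve, mul_zero, sub_zero])
    refine ⟨u, fun a => ?_⟩
    rw [← hu a]
    have h2 : (fun q => (x (φ.symm q) - c) a) = fun q => x (φ.symm q) a - c a := by
      funext q
      rfl
    show fderiv ℝ (fun q => (x (φ.symm q) - c) a) p u = _
    rw [h2, fderiv_sub_const]
  have hdense := hMD n M x hn hx o e'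
  have hzero : ∀ φ ∈ atlas (E n) M, ∀ q ∈ φ.target,
      HasFDerivAt (fun q => ‖x (φ.symm q) - c‖ ^ 2) (0 : E n →L[ℝ] ℝ) q := by
    intro φ hφ q hq
    have hP := hMP n (n + 1) M (fun p => x p - c) hx' φ hφ
    have hsm : ContDiffOn ℝ ∞ (fun q => ‖x (φ.symm q) - c‖ ^ 2) φ.target :=
      XMM.normSq_smooth (O := ⟨φ.target, φ.open_target⟩) hP.smooth
    have hdq : DifferentiableAt ℝ (fun q => ‖x (φ.symm q) - c‖ ^ 2) q :=
      (hsm.contDiffAt (φ.open_target.mem_nhds hq)).differentiableAt (by simp)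
    have hcont : ContinuousOn (fderiv ℝ (fun q => ‖x (φ.symm q) - c‖ ^ 2)) φ.target :=
      hsm.continuousOn_fderiv_of_isOpen φ.open_target (by simp)
    have h0 : fderiv ℝ (fun q => ‖x (φ.symm q) - c‖ ^ 2) q = 0 := by
      by_contra hcon
      have hev : ∀ᶠ q' in nhds q, fderiv ℝ (fun q => ‖x (φ.symm q) - c‖ ^ 2) q' ≠ 0 :=
        (hcont.continuousAt (φ.open_target.mem_nhds hq)).eventually_ne hcon
      obtain ⟨U, hU, hUo, hqU⟩ := mem_nhds_iff.1 hev
      have hV : IsOpen (φ.source ∩ φ ⁻¹' U) := φ.isOpen_inter_preimage hUo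
      have hVne : (φ.source ∩ φ ⁻¹' U).Nonempty :=
        ⟨φ.symm q, φ.map_target hq, by rw [Set.mem_preimage, φ.right_inv hq]; exact hqU⟩
      obtain ⟨p, hpV, hpo⟩ := hdense.inter_open_nonempty _ hV hVne
      have h3 := hU hpV.2
      apply h3
      refine key φ hφ (φ p) (φ.map_source hpV.1) ?_
      rw [φ.left_inv hpV.1]
      exact hoff p hpo
    rw [← h0]
    exact hdq.hasFDerivAt
  have hconst := XMM.const_of_charts (fun p => ‖x p - c‖ ^ 2) hzero
  obtain ⟨p0⟩ : Nonempty M := inferInstance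
  obtain ⟨r, hr, hrange⟩ := hMS n M (fun p => x p - c) (by omega) hx' (‖x p0 - c‖ ^ 2)
    (fun p => hconst p p0)
  refine ⟨c, r, hr, ?_⟩
  ext y
  rw [Metric.mem_sphere, dist_eq_norm]
  have h4 : y - c ∈ Set.range (fun p => x p - c) ↔ y - c ∈ Metric.sphere (0 : E (n + 1)) r := by
    rw [hrange]
  rw [mem_sphere_zero_iff_norm] at h4
  rw [← h4]
  constructor
  · rintro ⟨p, rfl⟩
    exact ⟨p, rfl⟩
  · rintro ⟨p, hp⟩
    exact ⟨p, sub_left_injective hp⟩

end Pool.Agent.Work.MP_157c12_gt.Rot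

end
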