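import Pool.Agent.Work.MP_157c12_gt.RA.PA
import Pool.Agent.Work.MP_157c12_gt.RA.PB
import Pool.Agent.Work.MP_157c12_gt.Bd.B01
import Pool.Agent.Work.MP_157c12_gt.RA.PD
import Pool.Agent.Work.MP_157c12_gt.Rot.PE
import Pool.Agent.Work.MP_157c12_gt.Rot.PG

/-!
# Rotational hypersurfaces of finite type: assembly
-/

namespace Pool.Agent.Work.MP_157c12_gt.RA

theorem pStar : SStar := sStar sTay sMap sRec sPole

theorem pSub : SSub := sSub sAdj

theorem pInt : SInt := sInt pStar sNS sNK sDX sHom pSub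

theorem pPrf : SPrf := sPrf pInt sSys sLau sDeh sMap

theorem pCon : VCon := vCon sTay

theorem pG : VG := vG vRed vUnit pCon

theorem pB : VB := vB vRed pCon pG vTr sAdj

theorem pE : VE := vE vTr

theorem pC : VC := vC pE

theorem pD1 : VD1 := vD1 pE pCon vRed vTr

theorem pD2 : VD2 := vD2 pE pCon vRed vTr vUnit pD1

theorem pD : VD := vD pE vTr pG pD2

theorem pH : VH := vH vI vA pB pC pD pE

theorem pSAM : SAM := sAM pPrf pH

theorem pJT : Pool.Agent.Work.MP_157c12_gt.Rot.JT := jT sTay pSAM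

end Pool.Agent.Work.MP_157c12_gt.RA

namespace Pool.Agent.Work.MP_157c12_gt.Rot

theorem pLD : LD := pr_LD pr_JC

theorem pRA2 : RA2 := pr_RA2 pr_RA1

theorem pRA3 : RA3 := pr_RA3 pr_RA1 pRA2

theorem pRT : RT := pr_RT pr_RA1 pRA2 pRA3

theorem pGC : GC := pr_GC pr_RA1

theorem pGA : GA := pr_GA pr_RA1 pRA2 pRT pGC RA.pJT

theorem pNE2 : NE2 := pr_NE2 pr_NE1

theorem pGLoc : GLoc := pr_GLo pr_NE1 pNE2 pLD pr_HY pr_RE pGA

theorem pMT : MT := pr_MT pr_MP pr_MI pr_MR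

theorem pMF : MF := pr_MF pr_MP

theorem pMM : MM := pr_MM pGLoc pr_MP pMT pr_MD pMF pr_MS

end Pool.Agent.Work.MP_157c12_gt.Rot
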