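import Mathlib

/-!
# Rotational hypersurfaces of finite type: definitions (algebraic part)

`F = 2 r` is twice the distance to the axis, `β` and `γ = β⁻¹` are the two null components of the
unit tangent vector of the profile, and the derivation is `2 r d/ds` (`s` is arc length). The pair
`(Q j, P j) = tw .. j` are the null components of `F ^ (2 j + 1) Δ ^ (j + 1) x`.
-/

open PowerSeries Finset

namespace Pool.Agent.Work.MP_157c12_gt.Rot

/-! ### the tower -/

section Tower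

variable {R : Type*} [CommRing R]

/-- `D_j u = D u - (2 j + 1) C u` -/
def dj (D : R → R) (C : R) (j : ℕ) (u : R) : R := D u - (2 * j + 1) * (C * u)

/-- `(D_j ^ 2 + (n - 2) C D_j) u - 2 (n - 1) w` -/
def st (D : R → R) (n : ℕ) (C : R) (j : ℕ) (u w : R) : R :=
  dj D C j (dj D C j u) + (n - 2) * (C * dj D C j u) - 2 * (n - 1) * w

/-- the linear tower with first pair `(q, p)` -/
def lt (D : R → R) (n : ℕ) (a b β γ q p : R) : ℕ → R × R
  | 0 => (q, p)
  | j + 1 =>
    (st D n (a * β + b * γ) j (lt D n a b β γ q p j).1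
        (a * b * (lt D n a b β γ q p j).1 + b ^ 2 * (lt D n a b β γ q p j).2),
      st D n (a * β + b * γ) j (lt D n a b β γ q p j).2
        (a * b * (lt D n a b β γ q p j).2 + a ^ 2 * (lt D n a b β γ q p j).1))

/-- `D β + (n - 1) (a β ^ 2 - b)` -/
def q0 (D : R → R) (n : ℕ) (a b β : R) : R := D β + (n - 1) * (a * β ^ 2 - b)

/-- the tower of the profile -/
def tw (D : R → R) (n : ℕ) (a b β γ : R) : ℕ → R × R :=
  lt D n a b β γ (q0 D n a b β) (q0 D n b a γ)

/-- `∑ a_l F ^ (2 l) Q_(k - l)` for a sequence `Q` -/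
def fs (F : R) (al : ℕ → R) (k : ℕ) (Q : ℕ → R) : R :=
  ∑ l ∈ range (k + 1), al l * F ^ (2 * l) * Q (k - l)

end Tower

/-- The equation of finite type of a (possibly degenerate) profile over a ring with a derivation. -/
structure Sys {𝕜 A : Type} [Field 𝕜] [CommRing A] [Algebra 𝕜 A] (D : Derivation 𝕜 A A) (n k : ℕ)
    (a b : 𝕜) (al : ℕ → 𝕜) (β γ F : A) : Prop where
  n2 : 2 ≤ n
  al0 : al 0 = 1
  bg : β * γ = 1
  dF : D F = (algebraMap 𝕜 A a * β + algebraMap 𝕜 A b * γ) * F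
  fq : fs F (fun l => algebraMap 𝕜 A (al l)) k
    (fun j => (tw D n (algebraMap 𝕜 A a) (algebraMap 𝕜 A b) β γ j).1) = 0
  fp : fs F (fun l => algebraMap 𝕜 A (al l)) k
    (fun j => (tw D n (algebraMap 𝕜 A a) (algebraMap 𝕜 A b) β γ j).2) = 0

/-! ### the two recursions -/

/-- `(x_j, y_j)`: the coefficients of the tower of `D β = (1 - e) β ^ 2` for `a = 1`, `b = 0` -/
def xy {R : Type*} [CommRing R] (n : ℕ) (e : R) : ℕ → R × R
  | 0 => (-1, 1)
  | j + 1 =>
    ((1 + 2 * j * e) * ((2 * j + 1) * e - (n - 2)) * (xy n e j).1 - 2 * (n - 1) * (xy n e j).2,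
      (1 - 2 * (j + 1) * e) * (n - (2 * j + 3) * e) * (xy n e j).2)

/-- `(x_j, y_j)`: the coefficients of the linear tower on the monomial `Φ ^ e` -/
def uv (n : ℕ) (e : ℤ) : ℕ → ℤ × ℤ
  | 0 => (-1, 1)
  | j + 1 =>
    ((e - 2 * n * j + 2 * n - 2) * (e - 2 * n * j + 2 * n - 3) * (uv n e j).1
        - 2 * (n - 1) * (uv n e j).2,
      (e - 2 * n * j) * (e - 2 * n * j - 1) * (uv n e j).2)

/-! ### Taylor expansion, valuation rings, reduction -/

section Val

variable {Ω : Type} [Field Ω]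

/-- Taylor expansion of `h` in the variable `z⁻¹ W` -/
noncomputable def tay {𝕜 A : Type} [Field 𝕜] [CommRing A] [Algebra 𝕜 A] [Algebra A Ω]
    (D : Derivation 𝕜 A A) (z : Ω) (h : A) : Ω⟦X⟧ :=
  PowerSeries.mk fun i => algebraMap A Ω (D^[i] h) / ((i.factorial : Ω) * z ^ i)

/-- all coefficients lie in `V` -/
def InV (V : ValuationSubring Ω) (Y : Ω⟦X⟧) : Prop := ∀ i, PowerSeries.coeff i Y ∈ V

/-- the residue class, extended by zero -/
noncomputable def res (V : ValuationSubring Ω) (x : Ω) : IsLocalRing.ResidueField V :=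
  open Classical in if h : x ∈ V then IsLocalRing.residue V ⟨x, h⟩ else 0

/-- reduction of a power series -/
noncomputable def red (V : ValuationSubring Ω) (Y : Ω⟦X⟧) : (IsLocalRing.ResidueField V)⟦X⟧ :=
  PowerSeries.mk fun i => res V (PowerSeries.coeff i Y)

/-- linear differential operators of order `< d` with coefficients in `V` -/
def OpLt (V : ValuationSubring Ω) (d : ℕ) (T : Ω⟦X⟧ → Ω⟦X⟧) : Prop :=
  ∃ r : ℕ → Ω⟦X⟧, (∀ i, InV V (r i)) ∧ ∀ y, T y = ∑ i ∈ range d, r i * (d⁄dX Ω)^[i] y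

/-- monic linear differential operators of order `d` with coefficients in `V` -/
def OpMonic (V : ValuationSubring Ω) (d : ℕ) (T : Ω⟦X⟧ → Ω⟦X⟧) : Prop :=
  OpLt V d fun y => T y - (d⁄dX Ω)^[d] y

end Val

/-! ### numbers -/

/-- `2 j + 1 - 2 (n - 2) J` -/
def oo (n J j : ℕ) : ℚ := 2 * j + 1 - 2 * (n - 2) * J

/-- `2 ^ r (2 J) (2 J + 1) ⋯ (2 J + r - 1) C(2 J - 2 - r, J - 1 - r) / C(2 J - 2, J - 1)` -/
def ee (J : ℕ) : ℕ → ℚ
  | 0 => 1
  | r + 1 => ee J r * (2 * (2 * J + r) * (J - (r + 1)) / (2 * J - 2 - r))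

end Pool.Agent.Work.MP_157c12_gt.Rot
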