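import Pool.Agent.Work.MP_157c12_gt.Rot.Defs

/-!
# Rotational hypersurfaces of finite type: statements (algebraic part)
-/

open PowerSeries Finset

namespace Pool.Agent.Work.MP_157c12_gt.Rot

/-! ### numbers -/

/-- Abel summation -/
def NA1 : Prop := ∀ n J : ℕ, 2 ≤ n → 1 ≤ J →
  ∑ i ∈ range J, (∏ j ∈ range i, (((J : ℚ) - 1 - j) * (2 * n * J - 2 * j - 3))) /
      (∏ j ∈ range (i + 1), (((J : ℚ) + j) * oo n J j)) =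
    1 / (2 * J - 1) * ∑ r ∈ range J, ee J r / ∏ j ∈ range (r + 1), oo n J j

/-- `ee` is integral at `2` -/
def NA2 : Prop := ∀ J r : ℕ, 1 ≤ J → r < J → ∃ d m : ℤ, Odd d ∧ (d : ℚ) * ee J r = m

/-- first type -/
def NA : Prop := ∀ n J : ℕ, 2 ≤ n → 1 ≤ J → (xy n (1 / (2 * J) : ℚ) J).1 ≠ 0

/-- the integral recursion for the second type -/
def NB0 : Prop := ∀ n J n1 N1 g : ℕ, 2 ≤ n → 1 ≤ J → n = g * n1 → 2 * J + 1 = g * N1 →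
  ∀ X Y : ℕ → ℤ, X 0 = -1 → Y 0 = 1 →
  (∀ j, X (j + 1) = (N1 + 2 * j * n1) * (N1 - n1 * (J - j)) * X j - (n - 1) * N1 ^ 2 * Y j) →
  (∀ j, Y (j + 1) = n1 * (J - 1 - j) * (N1 - 2 * (j + 1) * n1) * Y j) →
  ∀ j, (xy n (n / (2 * J + 1) : ℚ) j).1 * N1 ^ (2 * j) = 2 ^ j * X j

/-- second type, odd prime -/
def NB1 : Prop := ∀ n J n1 N1 g p : ℕ, 2 ≤ n → 1 ≤ J → n = g * n1 → 2 * J + 1 = g * N1 →
  p.Prime → p ≠ 2 → p ∣ n1 → ¬ p ∣ N1 →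
  ∀ X Y : ℕ → ℤ, X 0 = -1 → Y 0 = 1 →
  (∀ j, X (j + 1) = (N1 + 2 * j * n1) * (N1 - n1 * (J - j)) * X j - (n - 1) * N1 ^ 2 * Y j) →
  (∀ j, Y (j + 1) = n1 * (J - 1 - j) * (N1 - 2 * (j + 1) * n1) * Y j) → X J ≠ 0

/-- second type, even numerator -/
def NB2 : Prop := ∀ n J n1 N1 g : ℕ, 2 ≤ n → 1 ≤ J → n = g * n1 → 2 * J + 1 = g * N1 → 2 ∣ n1 →
  ∀ X Y : ℕ → ℤ, X 0 = -1 → Y 0 = 1 →
  (∀ j, X (j + 1) = (N1 + 2 * j * n1) * (N1 - n1 * (J - j)) * X j - (n - 1) * N1 ^ 2 * Y j) →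
  (∀ j, Y (j + 1) = n1 * (J - 1 - j) * (N1 - 2 * (j + 1) * n1) * Y j) → X J ≠ 0

/-- second type, numerator `1` -/
def NB3 : Prop := ∀ n J L : ℕ, 2 ≤ n → 1 ≤ J → 2 * J + 1 = n * L →
  ∀ X Y : ℕ → ℤ, X 0 = -1 → Y 0 = 1 →
  (∀ j, X (j + 1) = (L + 2 * j) * (L - (J - j)) * X j - (n - 1) * L ^ 2 * Y j) →
  (∀ j, Y (j + 1) = (J - 1 - j) * (L - 2 * (j + 1)) * Y j) → X J ≠ 0

/-- second type -/
def NB : Prop := ∀ n J : ℕ, 2 ≤ n → 1 ≤ J → (xy n (n / (2 * J + 1) : ℚ) J).1 ≠ 0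

/-- the two recursions never vanish together -/
def NT : Prop := ∀ (κ : Type) [Field κ] [CharZero κ] (n k : ℕ) (e : κ), 2 ≤ n →
  (xy n e k).2 = 0 → (xy n e k).1 ≠ 0

/-- signs in the linear tower -/
def NU : Prop := ∀ n i k : ℕ, ∀ ε : ℤ, 2 ≤ n → i < k → (ε = 0 ∨ ε = 1) →
  (uv n (2 * n * i + ε) k).2 = 0 ∧ (uv n (2 * n * i + ε) k).1 < 0

/-! ### rings with a derivation -/

/-- algebraic over the constants implies constant -/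
def AC : Prop := ∀ (𝕜 A : Type) [Field 𝕜] [CharZero 𝕜] [CommRing A] [IsDomain A] [Algebra 𝕜 A]
  (D : Derivation 𝕜 A A) (x : A), IsAlgebraic 𝕜 x → D x = 0

/-- exchanging the two null directions -/
def SY : Prop := (∀ (R : Type) [CommRing R] (D : R → R) (n : ℕ) (a b β γ q p : R) (j : ℕ),
    lt D n b a γ β p q j = (lt D n a b β γ q p j).swap) ∧
  ∀ (𝕜 A : Type) [Field 𝕜] [CommRing A] [Algebra 𝕜 A] (D : Derivation 𝕜 A A) (n k : ℕ)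
    (a b : 𝕜) (al : ℕ → 𝕜) (β γ F : A), Sys D n k a b al β γ F → Sys D n k b a al γ β F

/-- the tower and ring homomorphisms; linearity; `P_1 = - γ ^ 2 Q_1` -/
def LT : Prop := (∀ (R S : Type) [CommRing R] [CommRing S] (φ : R →+* S) (D : R → R) (E : S → S)
    (n : ℕ) (a b β γ q p : R) (j : ℕ), (∀ r, E (φ r) = φ (D r)) →
    lt E n (φ a) (φ b) (φ β) (φ γ) (φ q) (φ p) j =
      (φ (lt D n a b β γ q p j).1, φ (lt D n a b β γ q p j).2)) ∧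
  (∀ (𝕜 A : Type) [Field 𝕜] [CommRing A] [Algebra 𝕜 A] (D : Derivation 𝕜 A A) (n : ℕ)
    (a b β γ q p q' p' : A) (c : 𝕜) (j : ℕ),
    (lt D n a b β γ (q + algebraMap 𝕜 A c * q') (p + algebraMap 𝕜 A c * p') j).1 =
      (lt D n a b β γ q p j).1 + algebraMap 𝕜 A c * (lt D n a b β γ q' p' j).1 ∧
    (lt D n a b β γ (q + algebraMap 𝕜 A c * q') (p + algebraMap 𝕜 A c * p') j).2 =
      (lt D n a b β γ q p j).2 + algebraMap 𝕜 A c * (lt D n a b β γ q' p' j).2) ∧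
  (∀ (𝕜 A : Type) [Field 𝕜] [CommRing A] [Algebra 𝕜 A] (D : Derivation 𝕜 A A) (n : ℕ)
    (a b β γ : A), β * γ = 1 → q0 D n b a γ = - γ ^ 2 * q0 D n a b β)

/-- from the equation of finite type for the position vector to `Sys` -/
def FT : Prop := ∀ (𝕜 A : Type) [Field 𝕜] [CharZero 𝕜] [CommRing A] [IsDomain A] [Algebra 𝕜 A]
  (D : Derivation 𝕜 A A) (n k : ℕ) (al : ℕ → 𝕜) (β γ F Xq Xp : A), 2 ≤ n → 1 ≤ k → al 0 = 1 →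
  β * γ = 1 → D F = (β + γ) * F → D Xq = F * β → D Xp = F * γ → Xp + Xq = F →
  fs F (fun l => algebraMap 𝕜 A (al l)) (k - 1) (fun j => (tw D n 1 1 β γ j).1)
    + algebraMap 𝕜 A (al k) * F ^ (2 * k - 1) * Xq = 0 →
  fs F (fun l => algebraMap 𝕜 A (al l)) (k - 1) (fun j => (tw D n 1 1 β γ j).2)
    + algebraMap 𝕜 A (al k) * F ^ (2 * k - 1) * Xp = 0 →
  Sys D n k 1 1 al β γ F

/-! ### power series -/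

/-- Taylor expansion is a homomorphism of differential rings -/
def TA : Prop := ∀ (𝕜 A Ω : Type) [Field 𝕜] [CommRing A] [Algebra 𝕜 A] [Field Ω]
  [CharZero Ω] [Algebra 𝕜 Ω] [Algebra A Ω] [IsScalarTower 𝕜 A Ω] (D : Derivation 𝕜 A A) (z : Ω),
  z ≠ 0 → (∀ g h : A, tay D z (g + h) = tay D z g + tay D z h) ∧
    (∀ g h : A, tay D z (g * h) = tay D z g * tay D z h) ∧
    (∀ c : 𝕜, tay D z (algebraMap 𝕜 A c) = PowerSeries.C (algebraMap 𝕜 Ω c)) ∧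
    (∀ h : A, d⁄dX Ω (tay D z h) = PowerSeries.C z⁻¹ * tay D z (D h)) ∧
    (∀ h : A, PowerSeries.coeff 0 (tay D z h) = algebraMap A Ω h)

/-- scaling -/
def SC : Prop := ∀ (𝕜 A Ω : Type) [Field 𝕜] [CommRing A] [Algebra 𝕜 A] [Field Ω]
  [CharZero Ω] [Algebra 𝕜 Ω] [Algebra A Ω] [IsScalarTower 𝕜 A Ω] (D : Derivation 𝕜 A A) (n k : ℕ)
  (a b : 𝕜) (al : ℕ → 𝕜) (β γ F : A) (z lam : Ω), z ≠ 0 → lam ≠ 0 → Sys D n k a b al β γ F →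
  Sys (d⁄dX Ω) n k (algebraMap 𝕜 Ω a * lam / z) (algebraMap 𝕜 Ω b / (lam * z))
    (fun l => algebraMap 𝕜 Ω (al l)) (PowerSeries.C lam⁻¹ * tay D z β)
    (PowerSeries.C lam * tay D z γ) (PowerSeries.C z⁻¹ * tay D z F) ∧
  ∀ j, tw (d⁄dX Ω) n (PowerSeries.C (algebraMap 𝕜 Ω a * lam / z))
      (PowerSeries.C (algebraMap 𝕜 Ω b / (lam * z))) (PowerSeries.C lam⁻¹ * tay D z β)
      (PowerSeries.C lam * tay D z γ) j =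
    (PowerSeries.C (z ^ (2 * j + 1) * lam)⁻¹ *
        tay D z (tw D n (algebraMap 𝕜 A a) (algebraMap 𝕜 A b) β γ j).1,
      PowerSeries.C (lam / z ^ (2 * j + 1)) *
        tay D z (tw D n (algebraMap 𝕜 A a) (algebraMap 𝕜 A b) β γ j).2)

/-- basic facts on residue classes -/
def RS : Prop := ∀ (Ω : Type) [Field Ω] (V : ValuationSubring Ω),
  (∀ x ∈ V, ∀ y ∈ V, res V (x + y) = res V x + res V y ∧ res V (x * y) = res V x * res V y) ∧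
  (res V 1 = 1) ∧ (∀ x ∈ V, res V x = 0 ↔ x ∈ V.nonunits) ∧
  (∀ x ∈ V, res V x ≠ 0 → x⁻¹ ∈ V) ∧
  ((∀ m : ℕ, m ≠ 0 → (m : Ω)⁻¹ ∈ V) → CharZero Ω → CharZero (IsLocalRing.ResidueField V))

/-- basic facts on reduction -/
def RD : Prop := ∀ (Ω : Type) [Field Ω] (V : ValuationSubring Ω),
  (∀ Y Z : Ω⟦X⟧, InV V Y → InV V Z → InV V (Y + Z) ∧ InV V (Y * Z) ∧ InV V (d⁄dX Ω Y) ∧
    InV V (-Y) ∧ red V (Y + Z) = red V Y + red V Z ∧ red V (Y * Z) = red V Y * red V Z ∧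
    red V (d⁄dX Ω Y) = d⁄dX (IsLocalRing.ResidueField V) (red V Y) ∧ red V (-Y) = - red V Y) ∧
  (∀ c ∈ V, InV V (PowerSeries.C c) ∧ red V (PowerSeries.C c) = PowerSeries.C (res V c)) ∧
  (∀ Y : Ω⟦X⟧, InV V Y → (red V Y = 0 ↔ ∀ i, PowerSeries.coeff i Y ∈ V.nonunits))

/-- reduction of a system -/
def RY : Prop := ∀ (Ω : Type) [Field Ω] [CharZero Ω] (V : ValuationSubring Ω),
  (∀ m : ℕ, m ≠ 0 → (m : Ω)⁻¹ ∈ V) → ∀ (n k : ℕ) (a b : Ω) (al : ℕ → Ω) (β γ F : Ω⟦X⟧),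
  Sys (d⁄dX Ω) n k a b al β γ F → a ∈ V → b ∈ V → (∀ l, al l ∈ V) → InV V β → InV V γ →
  InV V F →
  Sys (d⁄dX (IsLocalRing.ResidueField V)) n k (res V a) (res V b) (fun l => res V (al l))
    (red V β) (red V γ) (red V F) ∧
  ∀ (q p : Ω⟦X⟧), InV V q → InV V p → ∀ j,
    InV V (lt (d⁄dX Ω) n (PowerSeries.C a) (PowerSeries.C b) β γ q p j).1 ∧
    InV V (lt (d⁄dX Ω) n (PowerSeries.C a) (PowerSeries.C b) β γ q p j).2 ∧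
    lt (d⁄dX (IsLocalRing.ResidueField V)) n (PowerSeries.C (res V a)) (PowerSeries.C (res V b))
      (red V β) (red V γ) (red V q) (red V p) j =
    (red V (lt (d⁄dX Ω) n (PowerSeries.C a) (PowerSeries.C b) β γ q p j).1,
      red V (lt (d⁄dX Ω) n (PowerSeries.C a) (PowerSeries.C b) β γ q p j).2)

/-- recursion for the coefficients -/
def RC : Prop := ∀ (Ω : Type) [Field Ω] [CharZero Ω] (V : ValuationSubring Ω),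
  (∀ m : ℕ, m ≠ 0 → (m : Ω)⁻¹ ∈ V) → ∀ (n k : ℕ) (a b : Ω) (al : ℕ → Ω) (β γ F : Ω⟦X⟧),
  Sys (d⁄dX Ω) n k a b al β γ F → a ∈ V → b ∈ V → (∀ l, al l ∈ V) →
  (∀ i, i < 2 * k + 1 → PowerSeries.coeff i β ∈ V) → PowerSeries.coeff 0 γ ∈ V →
  PowerSeries.coeff 0 F ∈ V → InV V β ∧ InV V γ ∧ InV V F

/-- solutions of monic linear equations can be normalised -/
def LN : Prop := ∀ (Ω : Type) [Field Ω] [CharZero Ω] (V : ValuationSubring Ω),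
  (∀ m : ℕ, m ≠ 0 → (m : Ω)⁻¹ ∈ V) → ∀ (d : ℕ) (T : Ω⟦X⟧ → Ω⟦X⟧), OpMonic V d T →
  ∀ Y : Ω⟦X⟧, Y ≠ 0 → T Y = 0 → ∃ s : Ω, s ≠ 0 ∧ InV V (PowerSeries.C s * Y) ∧
    red V (PowerSeries.C s * Y) ≠ 0

/-- composition of operators -/
def OP : Prop := ∀ (Ω : Type) [Field Ω] (V : ValuationSubring Ω), (∀ m : ℕ, (m : Ω) ∈ V) →
  (∀ (d : ℕ) (S T : Ω⟦X⟧ → Ω⟦X⟧), OpLt V d S → OpLt V d T → OpLt V d (fun y => S y + T y)) ∧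
  (∀ (d : ℕ) (r : Ω⟦X⟧) (T : Ω⟦X⟧ → Ω⟦X⟧), InV V r → OpLt V d T → OpLt V d (fun y => r * T y)) ∧
  (∀ (d : ℕ) (T : Ω⟦X⟧ → Ω⟦X⟧), OpLt V d T → OpLt V (d + 1) T) ∧
  (∀ (d : ℕ) (T : Ω⟦X⟧ → Ω⟦X⟧), OpLt V d T → OpLt V (d + 1) (fun y => d⁄dX Ω (T y)))

/-- the tower as a linear operator -/
def OT : Prop := ∀ (Ω : Type) [Field Ω] (V : ValuationSubring Ω), (∀ m : ℕ, (m : Ω) ∈ V) →
  ∀ (n : ℕ) (a b : Ω) (β γ : Ω⟦X⟧), a ∈ V → b ∈ V → InV V β → InV V γ → ∀ j : ℕ,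
  OpMonic V (2 * j) (fun y => (lt (d⁄dX Ω) n (PowerSeries.C a) (PowerSeries.C b) β γ y
    (- γ ^ 2 * y) j).1) ∧
  OpLt V (2 * j + 1) (fun y => (lt (d⁄dX Ω) n (PowerSeries.C a) (PowerSeries.C b) β γ y
    (- γ ^ 2 * y) j).2)

/-- `D F = C F` -/
def DF : Prop := ∀ (κ : Type) [Field κ] [CharZero κ] (C F : κ⟦X⟧), d⁄dX κ F = C * F →
  (PowerSeries.coeff 0 F = 0 → F = 0) ∧
  (∀ c : κ, c ≠ 0 → C = PowerSeries.C c → PowerSeries.coeff 0 F = 1 → ∀ (N : ℕ) (h : ℕ → κ),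
    ∑ i ∈ range N, PowerSeries.C (h i) * F ^ i = 0 → ∀ i < N, h i = 0)

/-- two polynomials with product `1` -/
def PP : Prop := ∀ (κ : Type) [Field κ] [CharZero κ] (β γ : κ⟦X⟧) (N : ℕ), β * γ = 1 →
  (d⁄dX κ)^[N] β = 0 → (d⁄dX κ)^[N] γ = 0 → d⁄dX κ β = 0

/-- the tower for `a = b = 0` -/
def T0 : Prop := ∀ (κ : Type) [Field κ] (n : ℕ) (β γ : κ⟦X⟧) (j : ℕ),
  tw (d⁄dX κ) n 0 0 β γ j = ((d⁄dX κ)^[2 * j + 1] β, (d⁄dX κ)^[2 * j + 1] γ)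

/-- the sum for `F = 0` -/
def F0 : Prop := ∀ (R : Type) [CommRing R] (al : ℕ → R) (k : ℕ) (Q : ℕ → R), al 0 = 1 →
  fs 0 al k Q = Q k

/-! ### the linear tower at `β = 1 / T` -/

/-- the unit `Φ` -/
def PH : Prop := ∀ (κ : Type) [Field κ] [CharZero κ] (n : ℕ) (β γ : κ⟦X⟧), 2 ≤ n → β * γ = 1 →
  PowerSeries.coeff 0 β = 1 → d⁄dX κ β = - (n - 1) * β ^ 2 →
  ∃ φ : κ⟦X⟧ˣ, γ = φ ^ (n - 1) ∧ PowerSeries.coeff 0 (φ : κ⟦X⟧) = 1 ∧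
    ∀ s : ℤ, d⁄dX κ ((φ ^ s : κ⟦X⟧ˣ) : κ⟦X⟧) = s * β * ((φ ^ s : κ⟦X⟧ˣ) : κ⟦X⟧)

/-- the linear tower on monomials -/
def MO : Prop := ∀ (κ : Type) [Field κ] [CharZero κ] (n : ℕ) (β : κ⟦X⟧) (φ : κ⟦X⟧ˣ), 2 ≤ n →
  β * (φ : κ⟦X⟧) ^ (n - 1) = 1 →
  (∀ s : ℤ, d⁄dX κ ((φ ^ s : κ⟦X⟧ˣ) : κ⟦X⟧) = s * β * ((φ ^ s : κ⟦X⟧ˣ) : κ⟦X⟧)) →
  ∀ (e : ℤ) (j : ℕ), lt (d⁄dX κ) n 1 0 β ((φ : κ⟦X⟧) ^ (n - 1)) ((φ ^ (e + 1) : κ⟦X⟧ˣ) : κ⟦X⟧)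
      (- ((φ : κ⟦X⟧) ^ (n - 1)) ^ 2 * ((φ ^ (e + 1) : κ⟦X⟧ˣ) : κ⟦X⟧)) j =
    (((uv n e j).2 : κ⟦X⟧) * ((φ ^ (e - 2 * n * j + 2 * j + 1) : κ⟦X⟧ˣ) : κ⟦X⟧),
      ((uv n e j).1 : κ⟦X⟧) * ((φ ^ (e - 2 * n * j + 2 * j + 2 * n - 1) : κ⟦X⟧ˣ) : κ⟦X⟧))

/-- solutions of the first half of the linear tower are sums of monomials -/
def SN : Prop := ∀ (κ : Type) [Field κ] [CharZero κ] (n : ℕ) (β p q : κ⟦X⟧) (φ : κ⟦X⟧ˣ), 2 ≤ n →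
  β * (φ : κ⟦X⟧) ^ (n - 1) = 1 → PowerSeries.coeff 0 (φ : κ⟦X⟧) = 1 →
  (∀ s : ℤ, d⁄dX κ ((φ ^ s : κ⟦X⟧ˣ) : κ⟦X⟧) = s * β * ((φ ^ s : κ⟦X⟧ˣ) : κ⟦X⟧)) →
  ∀ k : ℕ, (lt (d⁄dX κ) n 1 0 β ((φ : κ⟦X⟧) ^ (n - 1)) q p k).1 = 0 →
  ∃ c : ℕ → ℕ → κ, q = ∑ i ∈ range k, ∑ ε ∈ range 2,
    PowerSeries.C (c i ε) * ((φ ^ ((2 * n * i + ε : ℤ) + 1) : κ⟦X⟧ˣ) : κ⟦X⟧)

/-- independence of the powers of `Φ` -/
def IN : Prop := ∀ (κ : Type) [Field κ] [CharZero κ] (β : κ⟦X⟧) (φ : κ⟦X⟧ˣ), IsUnit β →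
  (∀ s : ℤ, d⁄dX κ ((φ ^ s : κ⟦X⟧ˣ) : κ⟦X⟧) = s * β * ((φ ^ s : κ⟦X⟧ˣ) : κ⟦X⟧)) →
  ∀ (ι : Type) (S : Finset ι) (s : ι → ℤ) (c : ι → κ), Set.InjOn s S →
  ∑ i ∈ S, PowerSeries.C (c i) * ((φ ^ s i : κ⟦X⟧ˣ) : κ⟦X⟧) = 0 → ∀ i ∈ S, c i = 0

/-- the linear tower at `β = 1 / T` -/
def LI : Prop := ∀ (κ : Type) [Field κ] [CharZero κ] (n k : ℕ) (β γ q : κ⟦X⟧), 2 ≤ n →
  β * γ = 1 → PowerSeries.coeff 0 β = 1 → d⁄dX κ β = - (n - 1) * β ^ 2 →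
  lt (d⁄dX κ) n 1 0 β γ q (- γ ^ 2 * q) k = (0, 0) → q = 0

/-! ### valuation rings -/

/-- elements of all valuation rings over `𝕜` and `F, F⁻¹` -/
def VI : Prop := ∀ (𝕜 Ω : Type) [Field 𝕜] [Field Ω] [Algebra 𝕜 Ω] (x : Ω),
  ((∀ V : ValuationSubring Ω, (∀ c : 𝕜, algebraMap 𝕜 Ω c ∈ V) → x ∈ V) → IsAlgebraic 𝕜 x) ∧
  ∀ F : Ω, F ≠ 0 → (∀ V : ValuationSubring Ω, (∀ c : 𝕜, algebraMap 𝕜 Ω c ∈ V) → F ∈ V →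
    F⁻¹ ∈ V → x ∈ V) →
  ∃ h : ℕ × ℕ →₀ 𝕜, (∃ i, h (i, 0) ≠ 0) ∧
    (h.sum fun ij c => algebraMap 𝕜 Ω c * (x ^ ij.1 * F ^ ij.2)) = 0

/-- Case I, first form -/
def C1 : Prop := ∀ (𝕜 A Ω : Type) [Field 𝕜] [CharZero 𝕜] [CommRing A] [IsDomain A] [Algebra 𝕜 A]
  [Field Ω] [Algebra 𝕜 Ω] [Algebra A Ω] [IsScalarTower 𝕜 A Ω] (D : Derivation 𝕜 A A) (n k : ℕ)
  (a b : 𝕜) (al : ℕ → 𝕜) (β γ F : A), Function.Injective (algebraMap A Ω) →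
  Sys D n k a b al β γ F → ∀ V : ValuationSubring Ω, (∀ c : 𝕜, algebraMap 𝕜 Ω c ∈ V) →
  ∀ z : Ω, z ≠ 0 → algebraMap 𝕜 Ω a * algebraMap A Ω β / z ∈ V.nonunits →
  algebraMap 𝕜 Ω b * algebraMap A Ω γ / z ∈ V.nonunits → algebraMap A Ω F / z ∈ V.nonunits →
  (∀ i, 1 ≤ i → i ≤ 2 * k → algebraMap A Ω (D^[i] β) / (algebraMap A Ω β * z ^ i) ∈ V) →
  (∃ i, 1 ≤ i ∧ i ≤ 2 * k ∧ algebraMap A Ω (D^[i] β) / (algebraMap A Ω β * z ^ i) ∉ V.nonunits) →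
  False

/-- Case I, second form -/
def C1b : Prop := ∀ (𝕜 A Ω : Type) [Field 𝕜] [CharZero 𝕜] [CommRing A] [IsDomain A] [Algebra 𝕜 A]
  [Field Ω] [IsAlgClosed Ω] [Algebra 𝕜 Ω] [Algebra A Ω] [IsScalarTower 𝕜 A Ω]
  (D : Derivation 𝕜 A A) (n k : ℕ) (a b : 𝕜) (al : ℕ → 𝕜) (β γ F : A),
  Function.Injective (algebraMap A Ω) →
  Sys D n k a b al β γ F → ∀ V : ValuationSubring Ω, (∀ c : 𝕜, algebraMap 𝕜 Ω c ∈ V) →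
  ∀ w : Ω, w ≠ 0 → algebraMap 𝕜 Ω a * algebraMap A Ω β / w ∈ V →
  algebraMap 𝕜 Ω b * algebraMap A Ω γ / w ∈ V → algebraMap A Ω F / w ∈ V →
  ∀ i, 1 ≤ i → i ≤ 2 * k → algebraMap A Ω (D^[i] β) / (algebraMap A Ω β * w ^ i) ∈ V

/-- the scaled expansion has coefficients in `V` -/
def BD : Prop := ∀ (𝕜 A Ω : Type) [Field 𝕜] [CharZero 𝕜] [CommRing A] [IsDomain A] [Algebra 𝕜 A]
  [Field Ω] [IsAlgClosed Ω] [Algebra 𝕜 Ω] [Algebra A Ω] [IsScalarTower 𝕜 A Ω]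
  (D : Derivation 𝕜 A A) (n k : ℕ) (a b : 𝕜) (al : ℕ → 𝕜) (β γ F : A),
  Function.Injective (algebraMap A Ω) →
  Sys D n k a b al β γ F → ∀ V : ValuationSubring Ω, (∀ c : 𝕜, algebraMap 𝕜 Ω c ∈ V) →
  ∀ w : Ω, w ≠ 0 → algebraMap 𝕜 Ω a * algebraMap A Ω β / w ∈ V →
  algebraMap 𝕜 Ω b * algebraMap A Ω γ / w ∈ V → algebraMap A Ω F / w ∈ V →
  InV V (PowerSeries.C (algebraMap A Ω β)⁻¹ * tay D w β) ∧
  InV V (PowerSeries.C (algebraMap A Ω β) * tay D w γ) ∧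
  InV V (PowerSeries.C w⁻¹ * tay D w F) ∧
  ∀ j, algebraMap A Ω (tw D n (algebraMap 𝕜 A a) (algebraMap 𝕜 A b) β γ j).1 /
      (algebraMap A Ω β * w ^ (2 * j + 1)) ∈ V ∧
    algebraMap A Ω (tw D n (algebraMap 𝕜 A a) (algebraMap 𝕜 A b) β γ j).2 /
      (algebraMap A Ω γ * w ^ (2 * j + 1)) ∈ V

/-- the degenerate system, tower of `D β = μ β ^ 2` -/
def S0a : Prop := ∀ (κ : Type) [Field κ] [CharZero κ] (n : ℕ) (β γ : κ⟦X⟧) (μ : κ), β * γ = 1 →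
  d⁄dX κ β = PowerSeries.C μ * β ^ 2 → ∀ j, tw (d⁄dX κ) n 1 0 β γ j =
    (PowerSeries.C ((μ + (n - 1)) * (xy n (1 - μ) j).2) * β ^ (2 * j + 2),
      PowerSeries.C ((μ + (n - 1)) * (xy n (1 - μ) j).1) * β ^ (2 * j))

/-- the degenerate system -/
def S0 : Prop := ∀ (κ : Type) [Field κ] [CharZero κ] (n k : ℕ) (al : ℕ → κ) (β γ : κ⟦X⟧),
  Sys (d⁄dX κ) n k 1 0 al β γ 0 → d⁄dX κ β = - (n - 1) * β ^ 2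

/-- Case II -/
def C2 : Prop := ∀ (𝕜 A Ω : Type) [Field 𝕜] [CharZero 𝕜] [CommRing A] [IsDomain A] [Algebra 𝕜 A]
  [Field Ω] [IsAlgClosed Ω] [Algebra 𝕜 Ω] [Algebra A Ω] [IsScalarTower 𝕜 A Ω]
  (D : Derivation 𝕜 A A) (n k : ℕ) (al : ℕ → 𝕜) (β γ F : A),
  Function.Injective (algebraMap A Ω) →
  Sys D n k 1 1 al β γ F → ∀ V : ValuationSubring Ω, (∀ c : 𝕜, algebraMap 𝕜 Ω c ∈ V) →
  algebraMap A Ω γ ∈ V.nonunits → algebraMap A Ω F * algebraMap A Ω γ ∈ V.nonunits →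
  q0 D n 1 1 β = 0

/-- `β, γ` are bounded by `max 1 F` -/
def CD : Prop := ∀ (𝕜 A Ω : Type) [Field 𝕜] [CharZero 𝕜] [CommRing A] [IsDomain A] [Algebra 𝕜 A]
  [Field Ω] [IsAlgClosed Ω] [Algebra 𝕜 Ω] [Algebra A Ω] [IsScalarTower 𝕜 A Ω]
  (D : Derivation 𝕜 A A) (n k : ℕ) (al : ℕ → 𝕜) (β γ F : A),
  Function.Injective (algebraMap A Ω) → Sys D n k 1 1 al β γ F → q0 D n 1 1 β ≠ 0 → F ≠ 0 →
  ∀ V : ValuationSubring Ω, (∀ c : 𝕜, algebraMap 𝕜 Ω c ∈ V) →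
  (algebraMap A Ω F ∈ V → algebraMap A Ω β ∈ V ∧ algebraMap A Ω γ ∈ V) ∧
  ((algebraMap A Ω F)⁻¹ ∈ V → algebraMap A Ω β / algebraMap A Ω F ∈ V ∧
    algebraMap A Ω γ / algebraMap A Ω F ∈ V)

/-- the complete data of the main theorem -/
structure Dat {𝕜 A : Type} [Field 𝕜] [CommRing A] [Algebra 𝕜 A] (D : Derivation 𝕜 A A) (n k : ℕ)
    (al : ℕ → 𝕜) (β γ F Xq Xp : A) : Prop where
  n2 : 2 ≤ n
  k1 : 1 ≤ k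
  al0 : al 0 = 1
  alk : al k ≠ 0
  bg : β * γ = 1
  F0 : F ≠ 0
  dF : D F = (β + γ) * F
  dq : D Xq = F * β
  dp : D Xp = F * γ
  pq : Xp + Xq = F
  eq : fs F (fun l => algebraMap 𝕜 A (al l)) (k - 1) (fun j => (tw D n 1 1 β γ j).1)
    + algebraMap 𝕜 A (al k) * F ^ (2 * k - 1) * Xq = 0
  ep : fs F (fun l => algebraMap 𝕜 A (al l)) (k - 1) (fun j => (tw D n 1 1 β γ j).2)
    + algebraMap 𝕜 A (al k) * F ^ (2 * k - 1) * Xp = 0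

/-- the mean curvature is not zero -/
def NZ : Prop := ∀ (𝕜 A : Type) [Field 𝕜] [CharZero 𝕜] [CommRing A] [IsDomain A] [Algebra 𝕜 A]
  (D : Derivation 𝕜 A A) (n k : ℕ) (al : ℕ → 𝕜) (β γ F Xq Xp : A),
  Dat D n k al β γ F Xq Xp → q0 D n 1 1 β ≠ 0

/-- places with `1 ≤ |F|` -/
def CE : Prop := ∀ (𝕜 A Ω : Type) [Field 𝕜] [CharZero 𝕜] [CommRing A] [IsDomain A] [Algebra 𝕜 A]
  [Field Ω] [IsAlgClosed Ω] [Algebra 𝕜 Ω] [Algebra A Ω] [IsScalarTower 𝕜 A Ω]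
  (D : Derivation 𝕜 A A) (n k : ℕ) (al : ℕ → 𝕜) (β γ F Xq Xp : A),
  Function.Injective (algebraMap A Ω) → Dat D n k al β γ F Xq Xp →
  ∀ V : ValuationSubring Ω, (∀ c : 𝕜, algebraMap 𝕜 Ω c ∈ V) → (algebraMap A Ω F)⁻¹ ∈ V →
  algebraMap A Ω Xq / algebraMap A Ω β ∈ V ∧ algebraMap A Ω Xp / algebraMap A Ω γ ∈ V

/-- algebraic relations over `𝕜[F]` -/
def CG : Prop := ∀ (𝕜 A Ω : Type) [Field 𝕜] [CharZero 𝕜] [CommRing A] [IsDomain A] [Algebra 𝕜 A]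
  [Field Ω] [IsAlgClosed Ω] [Algebra 𝕜 Ω] [Algebra A Ω] [IsScalarTower 𝕜 A Ω]
  (D : Derivation 𝕜 A A) (n k : ℕ) (al : ℕ → 𝕜) (β γ F Xq Xp : A),
  Function.Injective (algebraMap A Ω) → Dat D n k al β γ F Xq Xp →
  (∃ h : ℕ × ℕ →₀ 𝕜, (∃ i, h (i, 0) ≠ 0) ∧
    (h.sum fun ij c => algebraMap 𝕜 A c * (β ^ ij.1 * F ^ ij.2)) = 0) ∧
  ∃ h : ℕ × ℕ →₀ 𝕜, (∃ i, h (i, 0) ≠ 0) ∧
    (h.sum fun ij c => algebraMap 𝕜 A c * (Xp ^ ij.1 * F ^ ij.2)) = 0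

/-- places with `|F| < 1`: the limit is a constant and `β + γ` does not vanish -/
def CF : Prop := ∀ (𝕜 A Ω : Type) [Field 𝕜] [CharZero 𝕜] [CommRing A] [IsDomain A] [Algebra 𝕜 A]
  [Field Ω] [IsAlgClosed Ω] [Algebra 𝕜 Ω] [Algebra A Ω] [IsScalarTower 𝕜 A Ω]
  (D : Derivation 𝕜 A A) (n k : ℕ) (al : ℕ → 𝕜) (β γ F Xq Xp : A),
  Function.Injective (algebraMap A Ω) → Dat D n k al β γ F Xq Xp →
  ∀ V : ValuationSubring Ω, (∀ c : 𝕜, algebraMap 𝕜 Ω c ∈ V) →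
  algebraMap A Ω F ∈ V.nonunits →
  InV V (tay D (1 : Ω) β) ∧ InV V (tay D (1 : Ω) γ) ∧
  ∃ c : IsLocalRing.ResidueField V, c ≠ 0 ∧
    red V (tay D (1 : Ω) β) + red V (tay D (1 : Ω) γ) = PowerSeries.C c

/-- places with `|F| < 1`: the height is finite -/
def CH : Prop := ∀ (𝕜 A Ω : Type) [Field 𝕜] [CharZero 𝕜] [CommRing A] [IsDomain A] [Algebra 𝕜 A]
  [Field Ω] [IsAlgClosed Ω] [Algebra 𝕜 Ω] [Algebra A Ω] [IsScalarTower 𝕜 A Ω]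
  (D : Derivation 𝕜 A A) (n k : ℕ) (al : ℕ → 𝕜) (β γ F Xq Xp : A),
  Function.Injective (algebraMap A Ω) → Dat D n k al β γ F Xq Xp →
  ∀ V : ValuationSubring Ω, (∀ c : 𝕜, algebraMap 𝕜 Ω c ∈ V) →
  algebraMap A Ω F ∈ V.nonunits → algebraMap A Ω Xp ∈ V

/-- the algebraic main theorem -/
def AM : Prop := ∀ (𝕜 : Type) [Field 𝕜] [CharZero 𝕜] (n k : ℕ) (al : ℕ → 𝕜)
  (β γ F Xq Xp : 𝕜⟦X⟧), Dat (d⁄dX 𝕜) n k al β γ F Xq Xp → d⁄dX 𝕜 (Xq * Xp) = 0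

end Pool.Agent.Work.MP_157c12_gt.Rot
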