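import Pool.Agent.Work.MP_157c12_gt.Surf
import Pool.Agent.Work.MP_157c12_gt.Rot.Stmts

/-!
# Rotational hypersurfaces of finite type: definitions (geometric part)

The ring of smooth real functions on an open set of Euclidean space with its partial derivatives,
and hypersurfaces described by the tangential derivatives of the coordinate directions.
-/

open TopologicalSpace
open scoped Manifold ContDiff

namespace Pool.Agent.Work.MP_157c12_gt.Rot

open Pool.Agent.Work.MP_157c12_gt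

section Ring

variable {n : ℕ}

/-! ### the ring of smooth real functions on an open set -/

/-- extension by zero -/
noncomputable def ext0 (O : Opens (E n)) (f : O → ℝ) (p : E n) : ℝ :=
  open Classical in if h : p ∈ O then f ⟨p, h⟩ else 0

lemma ext0_of_mem {O : Opens (E n)} (f : O → ℝ) {p : E n} (h : p ∈ O) : ext0 O f p = f ⟨p, h⟩ := by
  rw [ext0, dif_pos h]

/-- smooth real functions on `O` -/
def Sm (O : Opens (E n)) : Subalgebra ℝ (O → ℝ) where
  carrier := {f | ContDiffOn ℝ ∞ (ext0 O f) O}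
  mul_mem' := by
    intro f g hf hg
    refine (ContDiffOn.mul hf hg).congr ?_
    intro p hp
    rw [ext0_of_mem _ hp]
    show f _ * g _ = ext0 O f p * ext0 O g p
    rw [ext0_of_mem f hp, ext0_of_mem g hp]
  add_mem' := by
    intro f g hf hg
    refine (ContDiffOn.add hf hg).congr ?_
    intro p hp
    rw [ext0_of_mem _ hp]
    show f _ + g _ = ext0 O f p + ext0 O g p
    rw [ext0_of_mem f hp, ext0_of_mem g hp]
  algebraMap_mem' := by
    intro c
    refine (contDiffOn_const (c := c)).congr ?_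
    intro p hp
    rw [ext0_of_mem _ hp]
    rfl

/-- value at a point of `O`, extended by zero -/
noncomputable def ev {O : Opens (E n)} (f : Sm O) : E n → ℝ := ext0 O f.1

lemma smooth_ev {O : Opens (E n)} (f : Sm O) : ContDiffOn ℝ ∞ (ev f) O := f.2

/-- restriction of a smooth function to `O` -/
noncomputable def mk {O : Opens (E n)} (f : E n → ℝ) (hf : ContDiffOn ℝ ∞ f O) : Sm O :=
  ⟨fun p => f p.1, by
    refine hf.congr ?_
    intro p hp
    rw [ext0_of_mem _ hp]⟩

lemma mk_ev {O : Opens (E n)} (f : E n → ℝ) (hf : ContDiffOn ℝ ∞ f O) {p : E n} (hp : p ∈ O) :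
    ev (mk f hf) p = f p := by
  rw [ev, ext0_of_mem _ hp]
  rfl

lemma ext_ev {O : Opens (E n)} {f g : Sm O} (h : ∀ p ∈ O, ev f p = ev g p) : f = g := by
  apply Subtype.ext
  funext p
  have := h p.1 p.2
  rw [ev, ev, ext0_of_mem _ p.2, ext0_of_mem _ p.2] at this
  exact this

lemma mul_ev {O : Opens (E n)} (f g : Sm O) {p : E n} (hp : p ∈ O) :
    ev (f * g) p = ev f p * ev g p := by
  rw [ev, ev, ev, ext0_of_mem _ hp, ext0_of_mem _ hp, ext0_of_mem _ hp]
  rfl

lemma add_ev {O : Opens (E n)} (f g : Sm O) {p : E n} (hp : p ∈ O) :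
    ev (f + g) p = ev f p + ev g p := by
  rw [ev, ev, ev, ext0_of_mem _ hp, ext0_of_mem _ hp, ext0_of_mem _ hp]
  rfl

lemma sub_ev {O : Opens (E n)} (f g : Sm O) {p : E n} (hp : p ∈ O) :
    ev (f - g) p = ev f p - ev g p := by
  rw [ev, ev, ev, ext0_of_mem _ hp, ext0_of_mem _ hp, ext0_of_mem _ hp]
  rfl

lemma neg_ev {O : Opens (E n)} (f : Sm O) {p : E n} (hp : p ∈ O) :
    ev (-f) p = -ev f p := by
  rw [ev, ev, ext0_of_mem _ hp, ext0_of_mem _ hp]
  rfl

lemma algebraMap_ev {O : Opens (E n)} (c : ℝ) {p : E n} (hp : p ∈ O) :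
    ev (algebraMap ℝ (Sm O) c) p = c := by
  rw [ev, ext0_of_mem _ hp]
  rfl

lemma zero_ev {O : Opens (E n)} {p : E n} (hp : p ∈ O) : ev (0 : Sm O) p = 0 := by
  rw [ev, ext0_of_mem _ hp]
  rfl

lemma one_ev {O : Opens (E n)} {p : E n} (hp : p ∈ O) : ev (1 : Sm O) p = 1 := by
  rw [ev, ext0_of_mem _ hp]
  rfl

/-- evaluation at a point is a homomorphism -/
noncomputable def evH {O : Opens (E n)} {p : E n} (hp : p ∈ O) : Sm O →ₐ[ℝ] ℝ :=
  (Pi.evalAlgHom ℝ (fun _ : O => ℝ) ⟨p, hp⟩).comp (Sm O).val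

lemma evH_apply {O : Opens (E n)} {p : E n} (hp : p ∈ O) (f : Sm O) : evH hp f = ev f p := by
  rw [ev, ext0_of_mem _ hp]
  rfl

/-- a nowhere vanishing smooth function is invertible -/
lemma isUnit_of_ne {O : Opens (E n)} (f : Sm O) (hf : ∀ p ∈ O, ev f p ≠ 0) : IsUnit f := by
  refine IsUnit.of_mul_eq_one (mk (fun p => (ev f p)⁻¹) ((smooth_ev f).inv hf)) ?_
  apply ext_ev
  intro p hp
  rw [mul_ev _ _ hp, mk_ev _ _ hp, one_ev hp, mul_inv_cancel₀ (hf p hp)]

/-- coordinate vector -/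
noncomputable def eb (i : Fin n) : E n := EuclideanSpace.single i 1

lemma fderiv_smooth {O : Opens (E n)} {f : E n → ℝ} (hf : ContDiffOn ℝ ∞ f O) (v : E n) :
    ContDiffOn ℝ ∞ (fun p => fderiv ℝ f p v) O := by
  have h := hf.fderiv_of_isOpen O.isOpen (m := ∞) (by simp)
  exact h.clm_apply contDiffOn_const

lemma diffAt_ev {O : Opens (E n)} (f : Sm O) {p : E n} (hp : p ∈ O) :
    DifferentiableAt ℝ (ev f) p :=
  ((smooth_ev f).contDiffAt (O.isOpen.mem_nhds hp)).differentiableAt (by simp)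

/-- the partial derivatives as derivations -/
noncomputable def dS (O : Opens (E n)) (i : Fin n) : Derivation ℝ (Sm O) (Sm O) where
  toFun := fun f => mk (fun p => fderiv ℝ (ev f) p (eb i)) (fderiv_smooth (smooth_ev f) _)
  map_add' := by
    intro f g
    apply ext_ev
    intro p hp
    rw [add_ev _ _ hp, mk_ev _ _ hp, mk_ev _ _ hp, mk_ev _ _ hp]
    have h : ev (f + g) =ᶠ[nhds p] fun q => ev f q + ev g q :=
      Filter.eventually_of_mem (O.isOpen.mem_nhds hp) fun q hq => add_ev f g hq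
    rw [h.fderiv_eq, fderiv_fun_add (diffAt_ev f hp) (diffAt_ev g hp)]
    rfl
  map_smul' := by
    intro c f
    apply ext_ev
    intro p hp
    have e1 : ∀ g : Sm O, ∀ q ∈ O, ev (c • g) q = c * ev g q := by
      intro g q hq
      rw [Algebra.smul_def, mul_ev _ _ hq, algebraMap_ev c hq]
    rw [RingHom.id_apply, e1 _ p hp, mk_ev _ _ hp, mk_ev _ _ hp]
    have h : ev (c • f) =ᶠ[nhds p] fun q => c * ev f q :=
      Filter.eventually_of_mem (O.isOpen.mem_nhds hp) fun q hq => e1 f q hq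
    rw [h.fderiv_eq, fderiv_const_mul (diffAt_ev f hp)]
    rfl
  map_one_eq_zero' := by
    apply ext_ev
    intro p hp
    show ev (mk (fun p => fderiv ℝ (ev (1 : Sm O)) p (eb i))
      (fderiv_smooth (smooth_ev _) _)) p = _
    rw [mk_ev _ _ hp, zero_ev hp]
    have h : ev (1 : Sm O) =ᶠ[nhds p] fun _ => (1 : ℝ) :=
      Filter.eventually_of_mem (O.isOpen.mem_nhds hp) fun q hq => one_ev hq
    rw [h.fderiv_eq]
    simp
  leibniz' := by
    intro f g
    apply ext_ev
    intro p hp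
    show ev (mk (fun p => fderiv ℝ (ev (f * g)) p (eb i)) (fderiv_smooth (smooth_ev _) _)) p =
      ev (f * mk (fun p => fderiv ℝ (ev g) p (eb i)) (fderiv_smooth (smooth_ev g) _) +
        g * mk (fun p => fderiv ℝ (ev f) p (eb i)) (fderiv_smooth (smooth_ev f) _)) p
    rw [mk_ev _ _ hp, add_ev _ _ hp, mul_ev _ _ hp, mul_ev _ _ hp, mk_ev _ _ hp,
      mk_ev _ _ hp]
    have h : ev (f * g) =ᶠ[nhds p] fun q => ev f q * ev g q :=
      Filter.eventually_of_mem (O.isOpen.mem_nhds hp) fun q hq => mul_ev f g hq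
    rw [h.fderiv_eq, fderiv_fun_mul (diffAt_ev f hp) (diffAt_ev g hp)]
    simp

lemma dS_ev {O : Opens (E n)} (i : Fin n) (f : Sm O) {p : E n} (hp : p ∈ O) :
    ev (dS O i f) p = fderiv ℝ (ev f) p (eb i) := mk_ev _ _ hp

lemma dS_comm (O : Opens (E n)) (i j : Fin n) (f : Sm O) : dS O i (dS O j f) = dS O j (dS O i f) := by
  apply ext_ev
  intro p hp
  rw [dS_ev _ _ hp, dS_ev _ _ hp]
  have h1 : ∀ k : Fin n, ev (dS O k f) =ᶠ[nhds p] fun q => fderiv ℝ (ev f) q (eb k) := fun k =>
    Filter.eventually_of_mem (O.isOpen.mem_nhds hp) fun q hq => dS_ev k f hq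
  rw [(h1 i).fderiv_eq, (h1 j).fderiv_eq]
  have hc : ContDiffAt ℝ ∞ (ev f) p := (smooth_ev f).contDiffAt (O.isOpen.mem_nhds hp)
  have hd : DifferentiableAt ℝ (fderiv ℝ (ev f)) p := by
    have := ((smooth_ev f).fderiv_of_isOpen O.isOpen (m := ∞) (by simp)).contDiffAt
      (O.isOpen.mem_nhds hp)
    exact this.differentiableAt (by simp)
  have hs : IsSymmSndFDerivAt ℝ (ev f) p := hc.isSymmSndFDerivAt (by
    simp only [minSmoothness_of_isRCLikeNormedField]
    exact WithTop.coe_le_coe.mpr le_top)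
  have h2 : ∀ k : Fin n, ∀ v, fderiv ℝ (fun q => fderiv ℝ (ev f) q (eb k)) p v =
      fderiv ℝ (fderiv ℝ (ev f)) p v (eb k) := by
    intro k v
    rw [fderiv_clm_apply hd (differentiableAt_const _)]
    simp
  rw [h2, h2]
  exact hs _ _

end Ring

/-! ### hypersurfaces, algebraically -/

section Hyp

variable {R : Type} [CommRing R] [Algebra ℝ R]

/-- first fundamental form -/
def gm {n m : ℕ} (d : Fin n → Derivation ℝ R R) (x : Fin m → R) : Matrix (Fin n) (Fin n) R :=
  Matrix.of fun i j => ∑ a, d i (x a) * d j (x a)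

/-- the components of the tangential gradient: `∇_a f = ∑ g^ij d_i x_a d_j f` -/
def nb {n m : ℕ} (d : Fin n → Derivation ℝ R R) (x : Fin m → R) (Gi : Matrix (Fin n) (Fin n) R)
    (a : Fin m) : Derivation ℝ R R := ∑ i, ∑ j, (Gi i j * d i (x a)) • d j

/-- Laplace operator in coordinates, `W = √ det g`, `W * Wi = 1` -/
def lapC {n : ℕ} (d : Fin n → Derivation ℝ R R) (Gi : Matrix (Fin n) (Fin n) R) (W Wi f : R) : R :=
  Wi * ∑ i, d i (W * ∑ j, Gi i j * d j f)

/-- A hypersurface with position vector `x`, unit normal `N` and tangential derivatives `D a` in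
the coordinate directions of the ambient space. -/
structure Hyp {m : ℕ} (D : Fin m → Derivation ℝ R R) (x N : Fin m → R) : Prop where
  norm : ∑ a, N a ^ 2 = 1
  dx : ∀ a b, D a (x b) = (if a = b then 1 else 0) - N a * N b
  tan : ∀ f, ∑ a, N a * D a f = 0
  symm : ∀ a b, D a (N b) = D b (N a)
  comm : ∀ a b f, D a (D b f) - D b (D a f) = ∑ c, (N a * D b (N c) - N b * D a (N c)) * D c f

/-- Laplace operator -/
def lapD {m : ℕ} (D : Fin m → Derivation ℝ R R) (f : R) : R := ∑ a, D a (D a f)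

/-- A hypersurface of revolution: axis through `o` in the direction `e`, distance `r` to the axis,
`w` radial unit vector, profile tangent `c w + s e`, unit normal `- s w + c e`. -/
structure RotH {m : ℕ} (D : Fin m → Derivation ℝ R R) (x N : Fin m → R) (o e : Fin m → ℝ)
    (r ri c s : R) (w : Fin m → R) : Prop where
  hyp : Hyp D x N
  e1 : ∑ a, e a ^ 2 = 1
  oe : ∑ a, o a * e a = 0
  ri : r * ri = 1
  w1 : ∑ a, w a ^ 2 = 1
  we : ∑ a, w a * algebraMap ℝ R (e a) = 0
  xw : ∀ a, x a = algebraMap ℝ R (o a) + (∑ b, x b * algebraMap ℝ R (e b)) * algebraMap ℝ R (e a)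
    + r * w a
  cs : c ^ 2 + s ^ 2 = 1
  N : ∀ a, N a = -s * w a + c * algebraMap ℝ R (e a)

/-- derivative in the direction of the profile -/
def pT {m : ℕ} (D : Fin m → Derivation ℝ R R) (e : Fin m → ℝ) (c s : R) (w : Fin m → R) :
    Derivation ℝ R R := ∑ a, (c * w a + s * algebraMap ℝ R (e a)) • D a

/-- `f` depends on the profile parameter only -/
def Rad {m : ℕ} (D : Fin m → Derivation ℝ R R) (e : Fin m → ℝ) (c s : R) (w : Fin m → R)
    (f : R) : Prop := ∀ a, D a f = pT D e c s w f * (c * w a + s * algebraMap ℝ R (e a))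

end Hyp

/-! ### patches -/

/-- an immersed patch -/
structure PatchN {n m : ℕ} (O : Opens (E n)) (X : E n → E m) : Prop where
  smooth : ∀ a, ContDiffOn ℝ ∞ (fun q => X q a) O
  imm : ∀ p ∈ O, 0 < (gram X p).det

/-- At each point off the axis `o + ℝ e` the tangent space contains the directions orthogonal to
the axis and to the radius. -/
def TanRot {n m : ℕ} (O : Opens (E n)) (X : E n → E m) (o e : E m) : Prop :=
  ∀ p ∈ O, (∀ t : ℝ, X p ≠ o + t • e) → ∀ v : E m, inner ℝ v e = 0 → inner ℝ v (X p - o) = 0 →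
    ∃ u : E n, ∀ a, fderiv ℝ (fun q => X q a) p u = v a

/-- `∑ a_l Δ ^ (k - l) X = 0` on `O` -/
def FTn {n m : ℕ} (O : Opens (E n)) (X : E n → E m) (k : ℕ) (al : ℕ → ℝ) : Prop :=
  ∀ p ∈ O, ∀ a, ∑ l ∈ Finset.range (k + 1), al l * ((lap X)^[k - l] (fun q => X q a)) p = 0

end Pool.Agent.Work.MP_157c12_gt.Rot
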